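import Mathlib

/-!
A rational basis of the abelianization of a finitely generated group: every additive function on
`N` with values in a real vector space is a combination of `rank` characters.
-/

set_option autoImplicit false

namespace Pool.Agent.H9Nil

open Module

theorem ab_basis {N : Type} [Group N] [Group.FG N] :
    ∃ (u : Fin (Module.finrank ℤ (Additive (Abelianization N))) → N)
      (χ : Fin (Module.finrank ℤ (Additive (Abelianization N))) → N → ℝ),
      (∀ i g h, χ i (g * h) = χ i g + χ i h) ∧
      ∀ (W : Type) [AddCommGroup W] [Module ℝ W] (D : N → W),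
        (∀ g h, D (g * h) = D g + D h) → ∀ g, D g = ∑ i, χ i g • D (u i) := by
  classical
  have hfgG : Group.FG (Abelianization N) := QuotientGroup.fg (commutator N)
  have hfg : AddGroup.FG (Additive (Abelianization N)) := inferInstance
  have hfin : Module.Finite ℤ (Additive (Abelianization N)) :=
    Module.Finite.iff_addGroup_fg.mpr hfg
  let T : Submodule ℤ (Additive (Abelianization N)) :=
    Submodule.torsion ℤ (Additive (Abelianization N))
  have hr : finrank ℤ (Additive (Abelianization N) ⧸ T)
      = finrank ℤ (Additive (Abelianization N)) :=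
    finrank_quotient_eq_of_le_torsion le_rfl
  let b : Basis (Fin (finrank ℤ (Additive (Abelianization N)))) ℤ
      (Additive (Abelianization N) ⧸ T) := finBasisOfFinrankEq ℤ _ hr
  let π : N → (Additive (Abelianization N) ⧸ T) :=
    fun g => T.mkQ (Additive.ofMul (Abelianization.of g))
  have hπ : ∀ g h, π (g * h) = π g + π h := by
    intro g h
    show T.mkQ (Additive.ofMul (Abelianization.of (g * h))) = _
    rw [map_mul, ofMul_mul, map_add]
  have hsurj : Function.Surjective π := by
    intro x
    obtain ⟨a, rfl⟩ := T.mkQ_surjective x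
    obtain ⟨g, hg⟩ := QuotientGroup.mk_surjective a.toMul
    refine ⟨g, ?_⟩
    show T.mkQ (Additive.ofMul (Abelianization.of g)) = T.mkQ a
    congr 1
  choose u hu using fun i => hsurj (b i)
  refine ⟨u, fun i g => ((b.repr (π g) i : ℤ) : ℝ), ?_, ?_⟩
  · intro i g h
    show ((b.repr (π (g * h)) i : ℤ) : ℝ) = ((b.repr (π g) i : ℤ) : ℝ) + ((b.repr (π h) i : ℤ) : ℝ)
    rw [hπ, map_add, Finsupp.add_apply, Int.cast_add]
  · intro W _ _ D hD g
    have hD1 : D 1 = 0 := by
      have h := hD 1 1
      rw [mul_one] at h
      exact left_eq_add.mp h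
    let φ : N →* Multiplicative W :=
      { toFun := fun g => Multiplicative.ofAdd (D g)
        map_one' := by rw [hD1]; rfl
        map_mul' := fun g h => by rw [hD]; rfl }
    let E : Additive (Abelianization N) →+ W :=
      { toFun := fun a => Multiplicative.toAdd (Abelianization.lift φ a.toMul)
        map_zero' := by rw [toMul_zero, map_one]; rfl
        map_add' := fun a a' => by rw [toMul_add, map_mul]; rfl }
    have hE : ∀ g, E (Additive.ofMul (Abelianization.of g)) = D g := fun g => by
      show Multiplicative.toAdd (Abelianization.lift φ (Abelianization.of g)) = D g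
      rw [Abelianization.lift_apply_of]
      rfl
    have hT : T ≤ LinearMap.ker E.toIntLinearMap := by
      intro a ha
      obtain ⟨n, hn⟩ := (Submodule.mem_torsion_iff a).mp ha
      rw [LinearMap.mem_ker]
      have h1 : (n : ℤ) • E a = 0 := by
        rw [← map_zsmul]
        have : ((n : ℤ)) • a = 0 := hn
        rw [this, map_zero]
      have h2 : ((n : ℤ) : ℝ) • E a = 0 := by
        rw [Int.cast_smul_eq_zsmul]
        exact h1
      rcases smul_eq_zero.mp h2 with h | h
      · exact absurd (by exact_mod_cast h) (nonZeroDivisors.ne_zero n.2)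
      · exact h
    let F : (Additive (Abelianization N) ⧸ T) →ₗ[ℤ] W := T.liftQ E.toIntLinearMap hT
    have hF : ∀ g, F (π g) = D g := fun g => by
      show T.liftQ E.toIntLinearMap hT (T.mkQ _) = D g
      rw [Submodule.mkQ_apply, Submodule.liftQ_apply]
      exact hE g
    calc D g = F (π g) := (hF g).symm
      _ = F (∑ i, b.repr (π g) i • b i) := by rw [b.sum_repr]
      _ = ∑ i, ((b.repr (π g) i : ℤ) : ℝ) • D (u i) := by
          rw [map_sum]
          refine Finset.sum_congr rfl fun i _ => ?_
          rw [map_zsmul, ← hu i, hF, Int.cast_smul_eq_zsmul]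

end Pool.Agent.H9Nil
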