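import Mathlib

/-!
# Products of conjugates in a nilpotent group

Let `S` be a finite symmetric set with `1 ∈ S` in a nilpotent group `N`. A product of `t` conjugates
of elements of `S` by elements of `S ^ (K t)` lies in `S ^ (K' t)`, and `|S ^ (K' t)| ≤ C t ^ D`
(`conj_products`). The proof collects commutators level by level (downward induction on the level of
the iterated commutators, inside an induction on the nilpotency class by the quotient by the centre).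
-/

set_option autoImplicit false

namespace Pool.Agent.H9Nil

open scoped Pointwise commutatorElement

variable {G : Type*} [Group G]

/-- `x⁻¹ y⁻¹ x y` -/
def cm (x y : G) : G := x⁻¹ * y⁻¹ * x * y

/-- the iterated commutators of elements of `S`, and their inverses -/
def Zs (S : Set G) : ℕ → Set G
  | 0 => S
  | i + 1 => {g | ∃ v ∈ Zs S i, ∃ u ∈ S, g = cm v u ∨ g = (cm v u)⁻¹}

/-- the conjugates of elements of `Zs S i` by elements of `S ^ r` -/
def Xs (S : Set G) (i r : ℕ) : Set G := {g | ∃ ζ ∈ Zs S i, ∃ c ∈ S ^ r, g = c⁻¹ * ζ * c}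

/-- the elements that conjugate like an element of `S ^ k` -/
def Cj (S : Set G) (k : ℕ) : Set G := {g | ∃ w ∈ S ^ k, ∀ x : G, g⁻¹ * x * g = w⁻¹ * x * w}

/-- the family lies in `S ^ (K t)` and has at most `K t ^ D` elements -/
def Good (S : Set G) (Y : ℕ → Set G) : Prop :=
  ∃ K D : ℕ, ∀ t, 1 ≤ t → Y t ⊆ S ^ (K * t) ∧ (Y t).ncard ≤ K * t ^ D

/-- finite, symmetric, with `1` -/
structure Symm (S : Set G) : Prop where
  fin : S.Finite
  one : (1 : G) ∈ S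
  inv : ∀ x ∈ S, x⁻¹ ∈ S

theorem inv_mem_pow {T : Set G} (h : ∀ x ∈ T, x⁻¹ ∈ T) {n : ℕ} {x : G} (hx : x ∈ T ^ n) :
    x⁻¹ ∈ T ^ n := by
  have hT : T⁻¹ = T := by
    ext y
    constructor
    · intro hy
      have := h _ (Set.mem_inv.1 hy)
      rwa [inv_inv] at this
    · intro hy
      exact Set.mem_inv.2 (h _ hy)
  rw [← hT, inv_pow]
  exact Set.inv_mem_inv.2 hx

theorem mul_mem_pow {T : Set G} {a b : ℕ} {x y : G} (hx : x ∈ T ^ a) (hy : y ∈ T ^ b) :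
    x * y ∈ T ^ (a + b) := by
  rw [pow_add]
  exact Set.mul_mem_mul hx hy

theorem mul_mem_pow_succ {T : Set G} {a : ℕ} {x y : G} (hx : x ∈ T) (hy : y ∈ T ^ a) :
    x * y ∈ T ^ (a + 1) := by
  rw [pow_succ']
  exact Set.mul_mem_mul hx hy

theorem conj_mem_pow {T T' : Set G} {c : G} (h : ∀ x ∈ T, c⁻¹ * x * c ∈ T') :
    ∀ (m : ℕ) (x : G), x ∈ T ^ m → c⁻¹ * x * c ∈ T' ^ m := by
  intro m
  induction m with
  | zero =>
    intro x hx
    rw [pow_zero, Set.mem_one] at hx ⊢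
    rw [hx]; group
  | succ m ih =>
    intro x hx
    rw [pow_succ'] at hx
    obtain ⟨a, ha, b, hb, rfl⟩ := Set.mem_mul.1 hx
    have : c⁻¹ * (a * b) * c = (c⁻¹ * a * c) * (c⁻¹ * b * c) := by group
    rw [this]
    exact mul_mem_pow_succ (h a ha) (ih b hb)

section basic

variable {S : Set G} (hS : Symm S)
include hS

theorem Symm.mono {a b : ℕ} (h : a ≤ b) {x : G} (hx : x ∈ S ^ a) : x ∈ S ^ b :=
  Set.pow_subset_pow_right hS.one h hx

theorem Symm.inv_pow {n : ℕ} {x : G} (hx : x ∈ S ^ n) : x⁻¹ ∈ S ^ n := inv_mem_pow hS.inv hx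

theorem Symm.finpow (n : ℕ) : (S ^ n).Finite := by
  induction n with
  | zero => rw [pow_zero]; exact Set.finite_one
  | succ n ih => rw [pow_succ]; exact ih.mul hS.fin

theorem one_Zs (i : ℕ) : (1 : G) ∈ Zs S i := by
  induction i with
  | zero => exact hS.one
  | succ i ih => exact ⟨1, ih, 1, hS.one, Or.inl (by simp [cm])⟩

theorem inv_Zs (i : ℕ) : ∀ x ∈ Zs S i, x⁻¹ ∈ Zs S i := by
  cases i with
  | zero => exact hS.inv
  | succ i =>
    rintro x ⟨v, hv, u, hu, h | h⟩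
    · exact ⟨v, hv, u, hu, Or.inr (by rw [h])⟩
    · exact ⟨v, hv, u, hu, Or.inl (by rw [h, inv_inv])⟩

theorem Zs_subset (i : ℕ) : ∃ l, Zs S i ⊆ S ^ l := by
  induction i with
  | zero => exact ⟨1, by rw [pow_one]; exact subset_rfl⟩
  | succ i ih =>
    obtain ⟨l, hl⟩ := ih
    refine ⟨l + 1 + l + 1, ?_⟩
    have key : ∀ v ∈ Zs S i, ∀ u ∈ S, cm v u ∈ S ^ (l + 1 + l + 1) := by
      intro v hv u hu
      have hu1 : u ∈ S ^ 1 := by rwa [pow_one]
      exact mul_mem_pow (mul_mem_pow (mul_mem_pow (hS.inv_pow (hl hv)) (hS.inv_pow hu1)) (hl hv)) hu1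
    rintro x ⟨v, hv, u, hu, h | h⟩
    · rw [h]; exact key v hv u hu
    · rw [h]; exact hS.inv_pow (key v hv u hu)

theorem Zs_finite (i : ℕ) : (Zs S i).Finite := by
  obtain ⟨l, hl⟩ := Zs_subset hS i
  exact (hS.finpow l).subset hl

theorem Zs_Xs (i r : ℕ) : Zs S i ⊆ Xs S i r := fun ζ hζ =>
  ⟨ζ, hζ, 1, Set.one_mem_pow hS.one, by group⟩

theorem one_Xs (i r : ℕ) : (1 : G) ∈ Xs S i r := Zs_Xs hS i r (one_Zs hS i)

theorem inv_Xs (i r : ℕ) : ∀ x ∈ Xs S i r, x⁻¹ ∈ Xs S i r := by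
  rintro x ⟨ζ, hζ, c, hc, rfl⟩
  exact ⟨ζ⁻¹, inv_Zs hS i ζ hζ, c, hc, by group⟩

theorem Xs_mono {i r r' : ℕ} (h : r ≤ r') : Xs S i r ⊆ Xs S i r' := by
  rintro x ⟨ζ, hζ, c, hc, rfl⟩
  exact ⟨ζ, hζ, c, hS.mono h hc, rfl⟩

theorem Xs_pow_mono {i r r' m m' : ℕ} (h : r ≤ r') (hm : m ≤ m') :
    Xs S i r ^ m ⊆ Xs S i r' ^ m' :=
  Set.pow_subset_pow (Xs_mono hS h) (one_Xs hS i r') hm

omit hS in
theorem Xs_conj {i r s : ℕ} {c : G} (hc : c ∈ S ^ s) :
    ∀ x ∈ Xs S i r, c⁻¹ * x * c ∈ Xs S i (r + s) := by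
  rintro x ⟨ζ, hζ, d, hd, rfl⟩
  exact ⟨ζ, hζ, d * c, mul_mem_pow hd hc, by group⟩

omit hS in
theorem pow_Cj {k : ℕ} : S ^ k ⊆ Cj S k := fun w hw => ⟨w, hw, fun _ => rfl⟩

theorem Cj_mono {k k' : ℕ} (h : k ≤ k') : Cj S k ⊆ Cj S k' := by
  rintro g ⟨w, hw, hg⟩
  exact ⟨w, hS.mono h hw, hg⟩

omit hS in
theorem Cj_mul {k k' : ℕ} {g g' : G} (h : g ∈ Cj S k) (h' : g' ∈ Cj S k') :
    g * g' ∈ Cj S (k + k') := by
  obtain ⟨w, hw, hg⟩ := h
  obtain ⟨w', hw', hg'⟩ := h'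
  refine ⟨w * w', mul_mem_pow hw hw', fun x => ?_⟩
  have h1 : (g * g')⁻¹ * x * (g * g') = g'⁻¹ * (g⁻¹ * x * g) * g' := by group
  have h2 : (w * w')⁻¹ * x * (w * w') = w'⁻¹ * (w⁻¹ * x * w) * w' := by group
  rw [h1, h2, hg, hg']

omit hS in
theorem Cj_conj {i r s m : ℕ} {g x : G} (hg : g ∈ Cj S s) (hx : x ∈ Xs S i r ^ m) :
    g⁻¹ * x * g ∈ Xs S i (r + s) ^ m := by
  obtain ⟨w, hw, hg⟩ := hg
  rw [hg]
  exact conj_mem_pow (Xs_conj hw) m x hx

theorem cm_mem {i : ℕ} {x : G} (hx : x ∈ Zs S i) :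
    ∀ (m : ℕ) (c : G), c ∈ S ^ m → cm x c ∈ Xs S (i + 1) m ^ m := by
  intro m
  induction m with
  | zero =>
    intro c hc
    rw [pow_zero, Set.mem_one] at hc ⊢
    rw [hc]; simp [cm]
  | succ m ih =>
    intro c hc
    rw [pow_succ] at hc
    obtain ⟨c', hc', u, hu, rfl⟩ := Set.mem_mul.1 hc
    have h1 : cm x (c' * u) = cm x u * (u⁻¹ * cm x c' * u) := by simp only [cm]; group
    rw [h1]
    refine mul_mem_pow_succ (Zs_Xs hS _ _ ⟨x, hx, u, hu, Or.inl rfl⟩) ?_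
    exact conj_mem_pow (Xs_conj (s := 1) (by rwa [pow_one])) m _ (ih c' hc')

theorem cm_Cj {i m : ℕ} {x g : G} (hx : x ∈ Zs S i) (hg : g ∈ Cj S m) :
    cm x g ∈ Xs S (i + 1) m ^ m := by
  obtain ⟨w, hw, hg⟩ := hg
  have h1 : cm x g = cm x w := by
    have := hg x
    simp only [cm, mul_assoc] at this ⊢
    rw [this]
  rw [h1]
  exact cm_mem hS hx m w hw

/-- step 1: conjugates into plain elements -/
theorem conj_plain {i M r L : ℕ} (hM : Xs S i r ^ M ⊆ Cj S L) : ∀ m ≤ M,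
    Xs S i r ^ m ⊆ Zs S i ^ m * Xs S (i + 1) (r + L) ^ (m * r) := by
  intro m
  induction m with
  | zero =>
    intro _ x hx
    rw [pow_zero, Set.mem_one] at hx
    rw [hx]
    refine Set.mem_mul.2 ⟨1, by simp, 1, by simp, by simp⟩
  | succ m ih =>
    intro hm x hx
    rw [pow_succ'] at hx
    obtain ⟨a, ⟨ζ, hζ, c, hc, rfl⟩, b, hb, rfl⟩ := Set.mem_mul.1 hx
    obtain ⟨p, hp, R, hR, rfl⟩ := Set.mem_mul.1 (ih (by omega) hb)
    have hpC : p ∈ Cj S L := hM (Set.pow_subset_pow (Zs_Xs hS i r) (one_Xs hS i r) (by omega) hp)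
    refine Set.mem_mul.2 ⟨ζ * p, mul_mem_pow_succ hζ hp, (p⁻¹ * cm ζ c * p) * R, ?_, ?_⟩
    · have h1 := mul_mem_pow (Cj_conj hpC (cm_mem hS hζ r c hc)) hR
      rwa [show r + m * r = (m + 1) * r by ring] at h1
    · simp only [cm]; group

/-- step 2: sorting -/
theorem sort_step {i M r L : ℕ} (hM : Xs S i r ^ M ⊆ Cj S L) {y : G} (hy : y ∈ Zs S i)
    {Y : Set G} (hY : Y ⊆ Zs S i) (h1 : (1 : G) ∈ Y) : ∀ m ≤ M,
    (insert y Y) ^ m ⊆ {g | ∃ n ≤ m, g = y ^ n} * (Y ^ m * Xs S (i + 1) (L + L) ^ (m * L)) := by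
  have hZ : Zs S i ^ M ⊆ Cj S L := fun x hx =>
    hM (Set.pow_subset_pow_left (Zs_Xs hS i r) hx)
  intro m
  induction m with
  | zero =>
    intro _ x hx
    rw [pow_zero, Set.mem_one] at hx
    rw [hx]
    refine Set.mem_mul.2 ⟨1, ⟨0, le_rfl, by simp⟩, 1, Set.mem_mul.2 ⟨1, by simp, 1, by simp, by simp⟩,
      by simp⟩
  | succ m ih =>
    intro hm x hx
    rw [pow_succ'] at hx
    obtain ⟨x, hxY, b, hb, rfl⟩ := Set.mem_mul.1 hx
    obtain ⟨a, ⟨n, hn, rfl⟩, b', hb', rfl⟩ := Set.mem_mul.1 (ih (by omega) hb)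
    obtain ⟨p, hp, R, hR, rfl⟩ := Set.mem_mul.1 hb'
    rcases hxY with rfl | hxY
    · refine Set.mem_mul.2 ⟨x ^ (n + 1), ⟨n + 1, by omega, rfl⟩, p * R, Set.mem_mul.2 ⟨p,
        Set.pow_subset_pow_right h1 (Nat.le_succ m) hp, R, ?_, rfl⟩, ?_⟩
      · exact Set.pow_subset_pow_right (one_Xs hS _ _) (Nat.mul_le_mul_right _ (Nat.le_succ m)) hR
      · rw [pow_succ']; group
    · have hpC : p ∈ Cj S L :=
        hZ (Set.pow_subset_pow hY (one_Zs hS i) (by omega) hp)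
      have hyC : y ^ n ∈ Cj S L :=
        hZ (Set.pow_subset_pow_right (one_Zs hS i) (by omega) (Set.pow_mem_pow hy))
      refine Set.mem_mul.2 ⟨y ^ n, ⟨n, by omega, rfl⟩, (x * p) * ((p⁻¹ * cm x (y ^ n) * p) * R),
        Set.mem_mul.2 ⟨x * p, mul_mem_pow_succ hxY hp, _, ?_, rfl⟩, ?_⟩
      · have h2 := mul_mem_pow (Cj_conj hpC (cm_Cj hS (hY hxY) hyC)) hR
        rwa [show L + m * L = (m + 1) * L by ring] at h2
      · simp only [cm]; group

/-- step 3, bookkeeping set: `ζ ^ n` times a product of `n k` conjugates of the next level -/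
def TT (S : Set G) (i k L : ℕ) (ζ : G) (n : ℕ) : Set G :=
  {g | ∃ R ∈ Xs S (i + 1) (k + L) ^ (n * k), g = ζ ^ n * R}

theorem TT_step {i k L n : ℕ} {ζ c g : G} (hζ : ζ ∈ Zs S i) (hn : ζ ^ n ∈ Cj S L)
    (hc : c ∈ Cj S k) (hg : g ∈ TT S i k L ζ n) : c⁻¹ * ζ * c * g ∈ TT S i k L ζ (n + 1) := by
  obtain ⟨R, hR, rfl⟩ := hg
  refine ⟨(ζ ^ n)⁻¹ * cm ζ c * ζ ^ n * R, ?_, ?_⟩
  · have h1 := mul_mem_pow (Cj_conj hn (cm_Cj hS hζ hc)) hR
    rwa [show k + n * k = (n + 1) * k by ring] at h1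
  · rw [pow_succ']
    generalize ζ ^ n = z
    simp only [cm]; group

theorem stepA {i t L L' M : ℕ} {v u w : G} (hv : v ∈ Zs S i) (hu : u ∈ S) (hw : w ∈ Cj S L)
    (hM : ∀ n ≤ M, cm v u ^ n ∈ Cj S L') : ∀ (b e n : ℕ) (g : G), e + b ≤ t → n + b ≤ M →
    g ∈ TT S (i + 1) (t + L) L' (cm v u) n →
    (u ^ e * w)⁻¹ * cm v (u ^ b) * (u ^ e * w) * g ∈ TT S (i + 1) (t + L) L' (cm v u) (n + b) := by
  intro b
  induction b with
  | zero =>
    intro e n g _ _ hg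
    have h1 : (u ^ e * w)⁻¹ * cm v (u ^ 0) * (u ^ e * w) * g = g := by
      rw [pow_zero]; simp [cm]
    rw [h1]
    exact hg
  | succ b ih =>
    intro e n g he hn hg
    have h1 : (u ^ e * w)⁻¹ * cm v (u ^ (b + 1)) * (u ^ e * w) * g =
        (u ^ e * w)⁻¹ * cm v u * (u ^ e * w) *
          ((u ^ (e + 1) * w)⁻¹ * cm v (u ^ b) * (u ^ (e + 1) * w) * g) := by
      rw [pow_succ u b, pow_succ' u e]
      generalize u ^ b = x
      generalize u ^ e = y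
      simp only [cm]; group
    have hue : u ^ e ∈ Cj S t := pow_Cj (hS.mono (show e ≤ t by omega) (Set.pow_mem_pow hu))
    rw [h1]
    exact TT_step hS ⟨v, hv, u, hu, Or.inl rfl⟩ (hM (n + b) (by omega)) (Cj_mul hue hw)
      (ih (e + 1) n g (by omega) (by omega) hg)

theorem stepB {i t L L' M q : ℕ} {v u : G} (hv : v ∈ Zs S i) (hu : u ∈ S)
    (hw : ∀ a ≤ q, v ^ a ∈ Cj S L) (hM : ∀ n ≤ M, cm v u ^ n ∈ Cj S L') (hq : q * t ≤ M) :
    ∀ a ≤ q, cm (v ^ a) (u ^ t) ∈ TT S (i + 1) (t + L) L' (cm v u) (a * t) := by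
  intro a
  induction a with
  | zero =>
    intro _
    refine ⟨1, by simp, ?_⟩
    simp [cm]
  | succ a ih =>
    intro ha
    have h1 : cm (v ^ (a + 1)) (u ^ t) = (u ^ 0 * v ^ a)⁻¹ * cm v (u ^ t) * (u ^ 0 * v ^ a) *
        cm (v ^ a) (u ^ t) := by
      rw [pow_succ', pow_zero]
      generalize v ^ a = x
      generalize u ^ t = y
      simp only [cm]; group
    rw [h1, Nat.succ_mul]
    have h2 : (a + 1) * t ≤ q * t := Nat.mul_le_mul_right _ ha
    rw [Nat.succ_mul] at h2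
    exact stepA hS hv hu (hw a (by omega)) hM t 0 (a * t) _ (by omega) (by omega) (ih (by omega))

/-- powers of level `i` -/
def PD (S : Set G) (i : ℕ) : Prop :=
  ∀ K, ∃ L, ∀ t, 1 ≤ t → ∀ ζ ∈ Zs S i, ∀ n ≤ K * t ^ (i + 1), ζ ^ n ∈ S ^ (L * t)

/-- products of conjugates of level `i` -/
def PE (S : Set G) (i : ℕ) : Prop :=
  ∀ K, Good S (fun t => Xs S i (K * t) ^ (K * t ^ (i + 1)))

/-- products of conjugates of level `i`, modulo the centre -/
def Star (S : Set G) (i : ℕ) : Prop :=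
  ∀ K, ∃ L, ∀ t, 1 ≤ t → Xs S i (K * t) ^ (K * t ^ (i + 1)) ⊆ Cj S (L * t)

theorem Good.mono {Y Y' : ℕ → Set G} (h : Good S Y') (hY : ∀ t, 1 ≤ t → Y t ⊆ Y' t) :
    Good S Y := by
  obtain ⟨K, D, h⟩ := h
  refine ⟨K, D, fun t ht => ⟨(hY t ht).trans (h t ht).1, ?_⟩⟩
  exact (Set.ncard_le_ncard (hY t ht) ((hS.finpow _).subset (h t ht).1)).trans (h t ht).2

theorem Good.mul {Y Y' : ℕ → Set G} (h : Good S Y) (h' : Good S Y') :
    Good S (fun t => Y t * Y' t) := by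
  obtain ⟨K, D, h⟩ := h
  obtain ⟨K', D', h'⟩ := h'
  refine ⟨K + K' + K * K', D + D', fun t ht => ⟨?_, ?_⟩⟩
  · rintro x hx
    obtain ⟨a, ha, b, hb, rfl⟩ := Set.mem_mul.1 hx
    refine hS.mono ?_ (mul_mem_pow ((h t ht).1 ha) ((h' t ht).1 hb))
    nlinarith [Nat.zero_le (K * K' * t)]
  · have h1 : (Y t * Y' t).ncard ≤ (Y t).ncard * (Y' t).ncard := Set.natCard_mul_le
    refine h1.trans ((Nat.mul_le_mul (h t ht).2 (h' t ht).2).trans ?_)
    rw [show K * t ^ D * (K' * t ^ D') = (K * K') * t ^ (D + D') by rw [pow_add]; ring]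
    exact Nat.mul_le_mul_right _ (by omega)

theorem PD_zero : PD S 0 := fun K => ⟨K, fun t _ ζ hζ n hn =>
  hS.mono (by simpa using hn) (Set.pow_mem_pow hζ)⟩

theorem PD_succ {i : ℕ} (h0 : Star S i) (h1 : Star S (i + 1)) (hE : PE S (i + 2)) :
    PD S (i + 1) := by
  intro K
  obtain ⟨L₁, hL₁⟩ := h0 K
  obtain ⟨L₂, hL₂⟩ := h1 K
  obtain ⟨L₃, _, hL₃⟩ := hE (K * (1 + L₁) + (1 + L₁ + L₂))
  obtain ⟨l, hl⟩ := Zs_subset hS (i + 1)
  refine ⟨(L₁ + 1 + L₁ + 1) + L₃ + l, fun t ht => ?_⟩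
  have key : ∀ v ∈ Zs S i, ∀ u ∈ S, ∀ n ≤ K * t ^ (i + 1 + 1),
      cm v u ^ n ∈ S ^ (((L₁ + 1 + L₁ + 1) + L₃ + l) * t) := by
    intro v hv u hu n hn
    have hζ : cm v u ∈ Zs S (i + 1) := ⟨v, hv, u, hu, Or.inl rfl⟩
    obtain ⟨q, hq⟩ : ∃ q, q = n / t := ⟨_, rfl⟩
    have hnq : n = q * t + n % t := by rw [hq, mul_comm]; exact (Nat.div_add_mod n t).symm
    have hr : n % t < t := Nat.mod_lt _ ht
    have hqt : q * t ≤ K * t ^ (i + 1 + 1) := le_trans (by omega) hn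
    have hqK : q ≤ K * t ^ (i + 1) := by
      rw [pow_succ, ← mul_assoc] at hqt
      exact Nat.le_of_mul_le_mul_right hqt ht
    have hva : ∀ a ≤ q, v ^ a ∈ Cj S (L₁ * t) := fun a ha => hL₁ t ht
      (Set.pow_subset_pow (Zs_Xs hS i _) (one_Xs hS i _) (ha.trans hqK) (Set.pow_mem_pow hv))
    have hζn : ∀ n ≤ K * t ^ (i + 1 + 1), cm v u ^ n ∈ Cj S (L₂ * t) := fun a ha => hL₂ t ht
      (Set.pow_subset_pow (Zs_Xs hS (i + 1) _) (one_Xs hS (i + 1) _) ha (Set.pow_mem_pow hζ))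
    obtain ⟨R, hR, hRe⟩ := stepB hS (t := t) hv hu hva hζn hqt q le_rfl
    have hR3 : R ∈ S ^ (L₃ * t) := by
      refine (hL₃ t ht).1 (Xs_pow_mono hS ?_ ?_ hR)
      · nlinarith [Nat.zero_le (K * (1 + L₁) * t)]
      · calc q * t * (t + L₁ * t) ≤ K * t ^ (i + 1 + 1) * (t + L₁ * t) :=
              Nat.mul_le_mul_right _ hqt
          _ = (K * (1 + L₁)) * t ^ (i + 2 + 1) := by ring
          _ ≤ _ := Nat.mul_le_mul_right _ (by omega)
    obtain ⟨w, hw, hwv⟩ := hva q le_rfl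
    have hut : u ^ t ∈ S ^ t := Set.pow_mem_pow hu
    have hcm : cm (v ^ q) (u ^ t) ∈ S ^ (L₁ * t + t + L₁ * t + t) := by
      have h2 : cm (v ^ q) (u ^ t) = w⁻¹ * (u ^ t)⁻¹ * w * u ^ t := by
        simp only [cm]
        rw [hwv]
      rw [h2]
      exact mul_mem_pow (mul_mem_pow (mul_mem_pow (hS.inv_pow hw) (hS.inv_pow hut)) hw) hut
    have hzr : cm v u ^ (n % t) ∈ S ^ (l * t) := by
      have h3 : cm v u ^ (n % t) ∈ (S ^ l) ^ (n % t) := Set.pow_mem_pow (hl hζ)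
      rw [← pow_mul] at h3
      exact hS.mono (Nat.mul_le_mul_left _ hr.le) h3
    have h4 : cm v u ^ n = cm (v ^ q) (u ^ t) * R⁻¹ * cm v u ^ (n % t) := by
      conv_lhs => rw [hnq, pow_add]
      rw [hRe]; group
    rw [h4]
    refine hS.mono ?_ (mul_mem_pow (mul_mem_pow hcm (hS.inv_pow hR3)) hzr)
    exact le_of_eq (by ring)
  rintro ζ ⟨v, hv, u, hu, h | h⟩ n hn
  · rw [h]; exact key v hv u hu n hn
  · rw [h, _root_.inv_pow]; exact hS.inv_pow (key v hv u hu n hn)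

theorem PE_step {i : ℕ} (h0 : Star S i) (hD : PD S i) (hE : PE S (i + 1)) : PE S i := by
  intro K
  obtain ⟨L, hL⟩ := h0 K
  have tail : ∀ A B, Good S (fun t => Xs S (i + 1) (A * t) ^ (B * t ^ (i + 1 + 1))) := fun A B =>
    Good.mono hS (hE (A + B)) fun t _ => Xs_pow_mono hS (Nat.mul_le_mul_right _ (by omega))
      (Nat.mul_le_mul_right _ (by omega))
  have pw : ∀ y ∈ Zs S i, Good S (fun t => {g | ∃ n ≤ K * t ^ (i + 1), g = y ^ n}) := by
    intro y hy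
    obtain ⟨L', hL'⟩ := hD K
    refine ⟨L' + (K + 1), i + 1, fun t ht => ⟨?_, ?_⟩⟩
    · rintro g ⟨n, hn, rfl⟩
      exact hS.mono (Nat.mul_le_mul_right _ (by omega)) (hL' t ht y hy n hn)
    · have h1 : {g | ∃ n ≤ K * t ^ (i + 1), g = y ^ n} ⊆
          (fun n => y ^ n) '' (Set.Iic (K * t ^ (i + 1))) := by
        rintro g ⟨n, hn, rfl⟩
        exact ⟨n, hn, rfl⟩
      refine (Set.ncard_le_ncard h1 ((Set.finite_Iic _).image _)).trans
        ((Set.ncard_image_le (Set.finite_Iic _)).trans ?_)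
      have h2 : (Set.Iic (K * t ^ (i + 1))).ncard = K * t ^ (i + 1) + 1 := by
        rw [Set.ncard_eq_toFinset_card']; simp
      rw [h2]
      have h3 : 1 ≤ t ^ (i + 1) := Nat.one_le_pow _ _ ht
      nlinarith [Nat.zero_le (L' * t ^ (i + 1))]
  have srt : ∀ Y : Set G, Y.Finite → Y ⊆ Zs S i →
      Good S (fun t => (insert 1 Y) ^ (K * t ^ (i + 1))) := by
    intro Y hY
    induction Y, hY using Set.Finite.induction_on with
    | empty =>
      intro _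
      refine ⟨1, 0, fun t _ => ?_⟩
      have h1 : (insert (1 : G) ∅ : Set G) ^ (K * t ^ (i + 1)) = {1} := by
        rw [insert_empty_eq, Set.singleton_one, one_pow]
      beta_reduce
      rw [h1]
      refine ⟨?_, by simp⟩
      intro x hx
      rw [Set.mem_singleton_iff.1 hx]
      exact Set.one_mem_pow hS.one
    | @insert y Y _ _ ih =>
      intro hYZ
      have hy : y ∈ Zs S i := hYZ (Set.mem_insert _ _)
      have hY' : Y ⊆ Zs S i := fun z hz => hYZ (Set.mem_insert_of_mem _ hz)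
      refine Good.mono hS (Good.mul hS (pw y hy) (Good.mul hS (ih hY') (tail (L + L) (K * L))))
        fun t ht => ?_
      rw [Set.insert_comm]
      refine (sort_step hS (hL t ht) hy (Y := insert 1 Y) (Set.insert_subset (one_Zs hS i) hY')
        (Set.mem_insert _ _) _ le_rfl).trans ?_
      refine Set.mul_subset_mul subset_rfl (Set.mul_subset_mul subset_rfl (Xs_pow_mono hS ?_ ?_))
      · exact le_of_eq (by ring)
      · exact le_of_eq (by ring)
  have hz : Good S (fun t => (Zs S i) ^ (K * t ^ (i + 1))) :=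
    Good.mono hS (srt _ (Zs_finite hS i) subset_rfl) fun t _ =>
      Set.pow_subset_pow_left (Set.subset_insert _ _)
  refine Good.mono hS (Good.mul hS hz (tail (K + L) (K * K))) fun t ht => ?_
  refine (conj_plain hS (hL t ht) _ le_rfl).trans
    (Set.mul_subset_mul subset_rfl (Xs_pow_mono hS ?_ ?_))
  · exact le_of_eq (by ring)
  · exact le_of_eq (by ring)

omit hS in
theorem Zs_lcs (i : ℕ) : ∀ x ∈ Zs S i, x ∈ Subgroup.lowerCentralSeries (⊤ : Subgroup G) i := by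
  induction i with
  | zero => intro x _; exact Subgroup.mem_top x
  | succ i ih =>
    have key : ∀ v ∈ Zs S i, ∀ u : G, cm v u ∈ Subgroup.lowerCentralSeries (⊤ : Subgroup G) (i + 1) := by
      intro v hv u
      have h1 : cm v u = ⁅v⁻¹, u⁻¹⁆ := by simp [cm, commutatorElement_def]
      rw [h1]
      exact Subgroup.commutator_mem_commutator (Subgroup.inv_mem _ (ih v hv)) (Subgroup.mem_top _)
    rintro x ⟨v, hv, u, _, h | h⟩
    · rw [h]; exact key v hv u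
    · rw [h]; exact Subgroup.inv_mem _ (key v hv u)

theorem PE_all [hN : Group.IsNilpotent G] (hst : ∀ i, Star S i) : ∀ i, PE S i := by
  obtain ⟨c, hc⟩ := Subgroup.nilpotent_iff_lowerCentralSeries.1 hN
  have top : ∀ i, c ≤ i → PE S i := by
    intro i hi K
    refine ⟨1, 0, fun t _ => ?_⟩
    have hZ : ∀ x ∈ Zs S i, x = 1 := by
      intro x hx
      have h1 := Zs_lcs i x hx
      have h2 : Subgroup.lowerCentralSeries (⊤ : Subgroup G) i ≤
          Subgroup.lowerCentralSeries (⊤ : Subgroup G) c := Subgroup.lowerCentralSeries_antitone _ hi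
      have h3 := h2 h1
      rw [hc] at h3
      exact Subgroup.mem_bot.1 h3
    have hX : Xs S i (K * t) ⊆ {1} := by
      rintro x ⟨ζ, hζ, d, _, rfl⟩
      rw [hZ ζ hζ]
      simp
    have hXp : Xs S i (K * t) ^ (K * t ^ (i + 1)) ⊆ {1} := by
      refine (Set.pow_subset_pow_left hX).trans ?_
      rw [Set.singleton_one, one_pow]
    refine ⟨?_, ?_⟩
    · intro x hx
      rw [Set.mem_singleton_iff.1 (hXp hx)]
      exact Set.one_mem_pow hS.one
    · refine (Set.ncard_le_ncard hXp (Set.finite_singleton _)).trans ?_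
      simp
  have down : ∀ j i, c ≤ i + j → PE S i := by
    intro j
    induction j with
    | zero => intro i hi; exact top i hi
    | succ j ih =>
      intro i hi
      have hE : PE S (i + 1) := ih (i + 1) (by omega)
      refine PE_step hS (hst i) ?_ hE
      cases i with
      | zero => exact PD_zero hS
      | succ i => exact PD_succ hS (hst i) (hst (i + 1)) hE
  exact fun i => down c i (by omega)

end basic

section hom

variable {H : Type*} [Group H]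

theorem Symm.image {S : Set G} (hS : Symm S) (f : G →* H) : Symm (f '' S) where
  fin := hS.fin.image f
  one := ⟨1, hS.one, map_one f⟩
  inv := by
    rintro x ⟨y, hy, rfl⟩
    exact ⟨y⁻¹, hS.inv y hy, map_inv f y⟩

theorem map_Zs (S : Set G) (f : G →* H) (i : ℕ) : ∀ x ∈ Zs S i, f x ∈ Zs (f '' S) i := by
  induction i with
  | zero => exact fun x hx => ⟨x, hx, rfl⟩
  | succ i ih =>
    rintro x ⟨v, hv, u, hu, h | h⟩
    · exact ⟨f v, ih v hv, f u, ⟨u, hu, rfl⟩, Or.inl (by rw [h]; simp [cm])⟩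
    · exact ⟨f v, ih v hv, f u, ⟨u, hu, rfl⟩, Or.inr (by rw [h]; simp [cm])⟩

theorem map_Xs (S : Set G) (f : G →* H) (i r m : ℕ) :
    ∀ x ∈ Xs S i r ^ m, f x ∈ Xs (f '' S) i r ^ m := by
  intro x hx
  have h1 : f x ∈ f '' (Xs S i r ^ m) := ⟨x, hx, rfl⟩
  rw [Set.image_pow] at h1
  refine Set.pow_subset_pow_left ?_ h1
  rintro _ ⟨y, ⟨ζ, hζ, c, hc, rfl⟩, rfl⟩
  refine ⟨f ζ, map_Zs S f i ζ hζ, f c, ?_, by simp⟩
  rw [← Set.image_pow]
  exact ⟨c, hc, rfl⟩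

end hom

theorem star_of_quot {S : Set G}
    (h : ∀ i, PE (QuotientGroup.mk' (Subgroup.center G) '' S) i) : ∀ i, Star S i := by
  intro i K
  obtain ⟨L, _, hL⟩ := h i K
  refine ⟨L, fun t ht x hx => ?_⟩
  have h1 := (hL t ht).1 (map_Xs S _ i _ _ x hx)
  rw [← Set.image_pow] at h1
  obtain ⟨w, hw, hwx⟩ := h1
  have hz : w⁻¹ * x ∈ Subgroup.center G := QuotientGroup.eq.1 hwx
  refine ⟨w, hw, fun y => ?_⟩
  have h2 := Subgroup.mem_center_iff.1 hz (w⁻¹ * y * w)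
  have h3 : y * x = x * (w⁻¹ * y * w) := by
    calc y * x = w * ((w⁻¹ * y * w) * (w⁻¹ * x)) := by group
      _ = w * ((w⁻¹ * x) * (w⁻¹ * y * w)) := by rw [h2]
      _ = x * (w⁻¹ * y * w) := by group
  rw [mul_assoc, h3]
  group

theorem PE_nilpotent (G : Type*) [Group G] [Group.IsNilpotent G] :
    ∀ S : Set G, Symm S → ∀ i, PE S i := by
  refine Group.nilpotent_center_quotient_ind
    (P := fun G _ _ => ∀ S : Set G, Symm S → ∀ i, PE S i) G ?_ ?_
  · intro G _ _ S hS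
    refine PE_all hS fun i K => ⟨0, fun t _ x _ => ⟨1, Set.one_mem_pow hS.one, fun y => ?_⟩⟩
    exact Subsingleton.elim _ _
  · intro G _ _ ih S hS
    exact PE_all hS (star_of_quot (ih _ (hS.image _)))

theorem conj_products {N : Type} [Group N] [Group.IsNilpotent N] (S : Set N) (hfin : S.Finite)
    (h1 : (1 : N) ∈ S) (hinv : ∀ x ∈ S, x⁻¹ ∈ S) (K : ℕ) :
    ∃ K' C D : ℕ, ∀ t : ℕ, 1 ≤ t →
      {g : N | ∃ s ∈ S, ∃ c ∈ S ^ (K * t), g = c⁻¹ * s * c} ^ t ⊆ S ^ (K' * t) ∧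
      (S ^ (K' * t)).ncard ≤ C * t ^ D := by
  have hS : Symm S := ⟨hfin, h1, hinv⟩
  obtain ⟨K₁, D₁, hK₁⟩ := PE_nilpotent N S hS 0 (K + 1)
  obtain ⟨K₂, D₂, hK₂⟩ := PE_nilpotent N S hS 0 K₁
  refine ⟨K₁, K₂, D₂, fun t ht => ⟨?_, ?_⟩⟩
  · refine Set.Subset.trans ?_ (hK₁ t ht).1
    refine Xs_pow_mono hS (i := 0) (Nat.mul_le_mul_right _ (by omega)) ?_
    rw [zero_add, pow_one]
    nlinarith
  · refine (Set.ncard_le_ncard ?_ ((hS.finpow _).subset (hK₂ t ht).1)).trans (hK₂ t ht).2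
    beta_reduce
    rw [zero_add, pow_one t]
    exact Set.pow_subset_pow_left (Zs_Xs hS 0 _)

end Pool.Agent.H9Nil
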