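import Pool.Agent.H9Nil.Cv

set_option autoImplicit false

/-!
# Derivatives of kernels: from generators to the group
-/

namespace Pool.Agent.H9Nil

open Pool.Agent.AutDim3 Pool.Agent.H9Thin

variable {N : Type} [Group N]

/-- `v` is almost invariant under `h`, at the rate `δ`. -/
def AI (v : ℕ → (N →₀ ℝ)) (δ : ℕ → ℝ) (h : N) : Prop :=
  ∃ c : ℝ, ∀ m, l1 (L h (v m) - v m) ≤ c * δ m

theorem AI.one (v : ℕ → (N →₀ ℝ)) (δ : ℕ → ℝ) : AI v δ (1 : N) :=
  ⟨0, fun m => by rw [L_one, sub_self, l1_zero, zero_mul]⟩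

theorem AI.mul {v : ℕ → (N →₀ ℝ)} {δ : ℕ → ℝ} {g h : N} (hg : AI v δ g) (hh : AI v δ h) :
    AI v δ (g * h) := by
  obtain ⟨a, ha⟩ := hg
  obtain ⟨b, hb⟩ := hh
  refine ⟨b + a, fun m => ?_⟩
  have e : L (g * h) (v m) - v m = L g (L h (v m) - v m) + (L g (v m) - v m) := by
    rw [map_sub, L_mul]; abel
  rw [e]
  refine (l1_add_le _ _).trans ?_
  rw [l1_L, add_mul]
  exact add_le_add (hb m) (ha m)

theorem l1_neg' (v : N →₀ ℝ) : l1 (-v) = l1 v := by
  have := l1_smul (-1) v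
  rw [neg_one_smul, abs_neg, abs_one, one_mul] at this
  exact this

theorem AI.inv {v : ℕ → (N →₀ ℝ)} {δ : ℕ → ℝ} {g : N} (hg : AI v δ g) : AI v δ g⁻¹ := by
  obtain ⟨a, ha⟩ := hg
  refine ⟨a, fun m => ?_⟩
  have e : L g⁻¹ (v m) - v m = - L g⁻¹ (L g (v m) - v m) := by
    rw [map_sub, ← L_mul, inv_mul_cancel, L_one]; abel
  rw [e, l1_neg', l1_L]
  exact ha m

theorem AI.all {v : ℕ → (N →₀ ℝ)} {δ : ℕ → ℝ} {S : Set N} (hgen : Subgroup.closure S = ⊤)
    (hS : ∀ s ∈ S, AI v δ s) (h : N) : AI v δ h := by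
  have hh : h ∈ Subgroup.closure S := by rw [hgen]; trivial
  induction hh using Subgroup.closure_induction with
  | mem x hx => exact hS x hx
  | one => exact AI.one v δ
  | mul x y _ _ hx hy => exact hx.mul hy
  | inv x _ hx => exact hx.inv

/-- Second order. -/
theorem second {μ : ℕ → (N →₀ ℝ)} {δ : ℕ → ℝ} {S : Set N} (hgen : Subgroup.closure S = ⊤)
    (hS : ∀ s ∈ S, ∀ s' ∈ S, AI (fun m => L s' (μ m) - μ m) δ s) (g : N) :
    ∀ h : N, AI (fun m => L g (μ m) - μ m) δ h := by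
  have hg : g ∈ Subgroup.closure S := by rw [hgen]; trivial
  induction hg using Subgroup.closure_induction with
  | mem x hx => exact fun h => AI.all hgen (fun s hs => hS s hs x hx) h
  | one =>
    intro h
    refine ⟨0, fun m => ?_⟩
    simp only [L_one, sub_self, map_zero, l1_zero, zero_mul, le_refl]
  | mul x y _ _ hx hy =>
    intro h
    obtain ⟨a, ha⟩ := hx h
    obtain ⟨b, hb⟩ := hy (h * x)
    obtain ⟨c, hc⟩ := hy x
    refine ⟨a + (b + c), fun m => ?_⟩
    have e : L h (L (x * y) (μ m) - μ m) - (L (x * y) (μ m) - μ m) =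
        (L h (L x (μ m) - μ m) - (L x (μ m) - μ m)) +
        ((L (h * x) (L y (μ m) - μ m) - (L y (μ m) - μ m)) +
          - (L x (L y (μ m) - μ m) - (L y (μ m) - μ m))) := by
      simp only [map_sub, L_mul]; abel
    simp only at ha hb hc ⊢
    rw [e, add_mul, add_mul]
    refine (l1_add_le _ _).trans (add_le_add (ha m) ?_)
    refine (l1_add_le _ _).trans (add_le_add (hb m) ?_)
    rw [l1_neg']
    exact hc m
  | inv x _ hx =>
    intro h
    obtain ⟨a, ha⟩ := hx (h * x⁻¹)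
    obtain ⟨b, hb⟩ := hx x⁻¹
    refine ⟨a + b, fun m => ?_⟩
    have e : L h (L x⁻¹ (μ m) - μ m) - (L x⁻¹ (μ m) - μ m) =
        - (L (h * x⁻¹) (L x (μ m) - μ m) - (L x (μ m) - μ m)) +
          (L x⁻¹ (L x (μ m) - μ m) - (L x (μ m) - μ m)) := by
      simp only [map_sub, L_mul]
      rw [← L_mul x⁻¹ x, inv_mul_cancel, L_one]; abel
    simp only at ha hb ⊢
    rw [e, add_mul]
    refine (l1_add_le _ _).trans (add_le_add ?_ (hb m))
    rw [l1_neg']
    exact ha m

/-- Sequences of size `O(δ)`. -/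
noncomputable def V0 (N : Type) (δ : ℕ → ℝ) : Submodule ℝ (ℕ → (N →₀ ℝ)) where
  carrier := {v | ∃ c : ℝ, ∀ m, l1 (v m) ≤ c * δ m}
  add_mem' := by
    rintro v w ⟨a, ha⟩ ⟨b, hb⟩
    refine ⟨a + b, fun m => ?_⟩
    rw [add_mul]
    exact (l1_add_le _ _).trans (add_le_add (ha m) (hb m))
  zero_mem' := ⟨0, fun m => by
    rw [zero_mul]
    exact (l1_zero (Q := N)).le⟩
  smul_mem' := by
    rintro r v ⟨a, ha⟩
    refine ⟨|r| * a, fun m => ?_⟩
    change l1 (r • v m) ≤ _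
    rw [l1_smul, mul_assoc]
    exact mul_le_mul_of_nonneg_left (ha m) (abs_nonneg _)

/-- First derivatives are linear combinations of finitely many, up to second order. -/
theorem third {μ : ℕ → (N →₀ ℝ)} {δ : ℕ → ℝ}
    (h2 : ∀ g h : N, AI (fun m => L g (μ m) - μ m) δ h) {r : ℕ} (u : Fin r → N)
    (χ : Fin r → N → ℝ)
    (hb : ∀ (W : Type) [AddCommGroup W] [Module ℝ W] (D : N → W),
      (∀ g h, D (g * h) = D g + D h) → ∀ g, D g = ∑ i, χ i g • D (u i)) (g : N) :
    ∃ c : ℝ, ∀ m, l1 (L g (μ m) - μ m - ∑ i, χ i g • (L (u i) (μ m) - μ m)) ≤ c * δ m := by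
  have h1 := hb ((ℕ → (N →₀ ℝ)) ⧸ V0 N δ)
    (fun g => (V0 N δ).mkQ (fun m => L g (μ m) - μ m)) (by
      intro x y
      rw [← map_add]
      have : (V0 N δ).mkQ ((fun m => L (x * y) (μ m) - μ m) -
          ((fun m => L x (μ m) - μ m) + fun m => L y (μ m) - μ m)) = 0 := by
        rw [Submodule.mkQ_apply, Submodule.Quotient.mk_eq_zero]
        obtain ⟨c, hc⟩ := h2 y x
        refine ⟨c, fun m => ?_⟩
        have e : ((fun m => L (x * y) (μ m) - μ m) -
          ((fun m => L x (μ m) - μ m) + fun m => L y (μ m) - μ m)) m =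
          L x (L y (μ m) - μ m) - (L y (μ m) - μ m) := by
          simp only [Pi.sub_apply, Pi.add_apply, L_mul, map_sub]
          abel
        rw [e]
        exact hc m
      rw [map_sub, sub_eq_zero] at this
      exact this) g
  simp only [← map_smul, ← map_sum] at h1
  rw [← sub_eq_zero, ← map_sub, Submodule.mkQ_apply, Submodule.Quotient.mk_eq_zero] at h1
  obtain ⟨c, hc⟩ := h1
  refine ⟨c, fun m => ?_⟩
  have := hc m
  simpa only [Pi.sub_apply, Finset.sum_apply, Pi.smul_apply] using this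

end Pool.Agent.H9Nil
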