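import Pool.Agent.H9Nil.Cv

/-!
# Smoothing kernels on a nilpotent group

From the growth of the products of conjugates (`hcp`) we get probability measures `μ m` on `N`,
supported in `S ^ (κ m 2^m)`, which are moved by `O(2^{-m})` in `ℓ¹` by `S`, with second differences
`O(4^{-m})`.
-/

set_option autoImplicit false

namespace Pool.Agent.H9Nil

open Pointwise Pool.Agent.H9Thin

section gen

variable {N : Type}

theorem l1_single (x : N) (c : ℝ) : l1 (Finsupp.single x c) = |c| := by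
  rw [l1, Finsupp.sum_single_index abs_zero]

theorem l1_sum_le {ι : Type} (s : Finset ι) (f : ι → (N →₀ ℝ)) :
    l1 (∑ i ∈ s, f i) ≤ ∑ i ∈ s, l1 (f i) := by
  classical
  induction s using Finset.induction_on with
  | empty => simp [l1_zero]
  | insert a s ha ih =>
    rw [Finset.sum_insert ha, Finset.sum_insert ha]
    exact (l1_add_le _ _).trans (by linarith)

theorem l1_neg (x : N →₀ ℝ) : l1 (-x) = l1 x := by
  have := l1_smul (-1) x
  simpa using this

/-- constant weight on a finite set -/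
noncomputable def un (F : Finset N) (c : ℝ) : N →₀ ℝ := ∑ x ∈ F, Finsupp.single x c

theorem mass_un (F : Finset N) (c : ℝ) : mass (un F c) = F.card * c := by
  rw [un, map_sum]
  simp [mass_single]

theorem l1_un_le (F : Finset N) {c : ℝ} (hc : 0 ≤ c) : l1 (un F c) ≤ F.card * c := by
  refine (l1_sum_le _ _).trans ?_
  simp [l1_single, abs_of_nonneg hc]

theorem un_sub {F B : Finset N} (h : F ⊆ B) {c : ℝ} (hc : 0 ≤ c) :
    l1 (un B c - un F c) ≤ ((B.card : ℝ) - F.card) * c := by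
  classical
  have h1 : un B c - un F c = un (B \ F) c := by
    rw [un, un, un, ← Finset.sum_sdiff h, add_sub_cancel_right]
  rw [h1]
  refine (l1_un_le _ hc).trans (le_of_eq ?_)
  rw [Finset.card_sdiff_of_subset h, Nat.cast_sub (Finset.card_le_card h)]

theorem un_support (F : Finset N) (c : ℝ) : (un F c).support ⊆ F := by
  classical
  intro x hx
  rw [Finsupp.mem_support_iff, un, Finsupp.finsetSum_apply] at hx
  obtain ⟨y, hy, hxy⟩ := Finset.exists_ne_zero_of_sum_ne_zero hx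
  rw [Finsupp.single_apply] at hxy
  have : y = x := by
    by_contra h
    exact hxy (if_neg h)
  rwa [← this]

end gen

variable {N : Type} [Group N]

theorem L_un (a : N) [DecidableEq N] (F : Finset N) (c : ℝ) :
    L a (un F c) = un (F.image (a * ·)) c := by
  rw [un, un, map_sum, Finset.sum_image (fun x _ y _ h => mul_left_cancel h)]
  exact Finset.sum_congr rfl fun x _ => L_single _ _ _

/-- the pigeonhole: some power of `A` grows by a small factor only -/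
theorem exists_slow {a : ℕ → ℝ} (h0 : a 0 = 1) {C D : ℕ} {m : ℕ} (hm : 1 ≤ m)
    (hC : a (m * 2 ^ m) ≤ (C : ℝ) * ((m * 2 ^ m : ℕ) : ℝ) ^ D) :
    ∃ r, r < m * 2 ^ m ∧ a (r + 1) ≤ (1 + ((C + 1) * 4 ^ D : ℝ) / 2 ^ m) * a r := by
  by_contra hcon
  push Not at hcon
  obtain ⟨Λ, hΛ⟩ : ∃ Λ : ℝ, Λ = (C + 1) * 4 ^ D := ⟨_, rfl⟩
  have hΛ0 : 0 < Λ := by rw [hΛ]; positivity
  rw [← hΛ] at hcon
  have hq : 0 < 1 + Λ / 2 ^ m := by positivity
  have h1 : ∀ r, r ≤ m * 2 ^ m → (1 + Λ / 2 ^ m) ^ r ≤ a r := by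
    intro r
    induction r with
    | zero => intro _; rw [pow_zero, h0]
    | succ r ih =>
      intro hr
      rw [pow_succ']
      exact (mul_le_mul_of_nonneg_left (ih (by omega)) hq.le).trans (hcon r (by omega)).le
  have h2 := h1 _ le_rfl
  have h3 : (1 + Λ) ^ m ≤ (1 + Λ / 2 ^ m) ^ (m * 2 ^ m) := by
    rw [mul_comm, pow_mul]
    refine pow_le_pow_left₀ (by positivity) ?_ m
    have h4 := one_add_mul_le_pow (show (-2 : ℝ) ≤ Λ / 2 ^ m by
      have : 0 ≤ Λ / 2 ^ m := by positivity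
      linarith) (2 ^ m)
    refine le_trans (le_of_eq ?_) h4
    push_cast
    field_simp
  have h5 : (C : ℝ) * ((m * 2 ^ m : ℕ) : ℝ) ^ D < (1 + Λ) ^ m := by
    have h6 : ((m * 2 ^ m : ℕ) : ℝ) ^ D ≤ ((4 : ℝ) ^ D) ^ m := by
      rw [← pow_mul, mul_comm D m, pow_mul]
      refine pow_le_pow_left₀ (by positivity) ?_ D
      have h7 : m * 2 ^ m ≤ 4 ^ m := by
        calc m * 2 ^ m ≤ 2 ^ m * 2 ^ m := Nat.mul_le_mul_right _ Nat.lt_two_pow_self.le
          _ = 4 ^ m := by rw [← mul_pow]; norm_num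
      exact_mod_cast h7
    have h8 : (C : ℝ) < ((C : ℝ) + 1) ^ m := by
      have : ((C : ℝ) + 1) ^ 1 ≤ ((C : ℝ) + 1) ^ m :=
        pow_le_pow_right₀ (by linarith [Nat.cast_nonneg (α := ℝ) C]) hm
      rw [pow_one] at this
      linarith
    calc (C : ℝ) * ((m * 2 ^ m : ℕ) : ℝ) ^ D ≤ C * ((4 : ℝ) ^ D) ^ m :=
          mul_le_mul_of_nonneg_left h6 (Nat.cast_nonneg _)
      _ < ((C : ℝ) + 1) ^ m * ((4 : ℝ) ^ D) ^ m := mul_lt_mul_of_pos_right h8 (by positivity)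
      _ = Λ ^ m := by rw [← mul_pow, hΛ]
      _ ≤ (1 + Λ) ^ m := pow_le_pow_left₀ hΛ0.le (by linarith) m
  linarith

/-- first kernel: almost invariant under conjugates -/
theorem exists_kernel1 (S : Set N) (hfin : S.Finite) (h1 : (1 : N) ∈ S)
    (hcp : ∀ K : ℕ, ∃ K' C D : ℕ, ∀ t : ℕ, 1 ≤ t →
      {g : N | ∃ s ∈ S, ∃ c ∈ S ^ (K * t), g = c⁻¹ * s * c} ^ t ⊆ S ^ (K' * t) ∧
      (S ^ (K' * t)).ncard ≤ C * t ^ D) (K : ℕ) :
    ∃ κ Λ : ℕ, ∀ m : ℕ, 1 ≤ m → ∃ P : N →₀ ℝ, mass P = 1 ∧ l1 P ≤ 1 ∧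
      (∀ x ∈ P.support, x ∈ S ^ (κ * (m * 2 ^ m))) ∧
      ∀ s ∈ S, ∀ c ∈ S ^ (K * (m * 2 ^ m)), l1 (L (c⁻¹ * s * c) P - P) ≤ (Λ : ℝ) / 2 ^ m := by
  classical
  obtain ⟨K', C, D, h⟩ := hcp K
  refine ⟨K', 2 * ((C + 1) * 4 ^ D), fun m hm => ?_⟩
  have ht : 1 ≤ m * 2 ^ m := Nat.one_le_iff_ne_zero.2 (by positivity)
  obtain ⟨hA1, hA2⟩ := h _ ht
  obtain ⟨A, hA⟩ : ∃ A : Set N, A = {g : N | ∃ s ∈ S, ∃ c ∈ S ^ (K * (m * 2 ^ m)),
    g = c⁻¹ * s * c} := ⟨_, rfl⟩
  rw [← hA] at hA1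
  have hSfin : ∀ n : ℕ, (S ^ n).Finite := by
    intro n
    induction n with
    | zero => rw [pow_zero]; exact Set.finite_one
    | succ n ih => rw [pow_succ]; exact ih.mul hfin
  have hA_one : (1 : N) ∈ A := by
    rw [hA]
    exact ⟨1, h1, 1, Set.one_mem_pow h1, by group⟩
  have hAfin : A.Finite := by
    have hsub : A ⊆ (fun p : N × N => p.2⁻¹ * p.1 * p.2) '' (S ×ˢ (S ^ (K * (m * 2 ^ m)))) := by
      rw [hA]
      rintro g ⟨s, hs, c, hc, rfl⟩
      exact ⟨(s, c), ⟨hs, hc⟩, rfl⟩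
    exact ((hfin.prod (hSfin _)).image _).subset hsub
  have hApfin : ∀ n : ℕ, (A ^ n).Finite := by
    intro n
    induction n with
    | zero => rw [pow_zero]; exact Set.finite_one
    | succ n ih => rw [pow_succ]; exact ih.mul hAfin
  obtain ⟨r, hr, hslow⟩ := exists_slow (a := fun n => ((A ^ n).ncard : ℝ)) (C := C) (D := D)
    (by
      simp only [pow_zero]
      rw [← Set.singleton_one, Set.ncard_singleton]
      norm_num) hm (by
      have h2 : (A ^ (m * 2 ^ m)).ncard ≤ C * (m * 2 ^ m) ^ D :=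
        (Set.ncard_le_ncard hA1 (hSfin _)).trans hA2
      exact_mod_cast h2)
  obtain ⟨F, hF⟩ : ∃ F : Finset N, F = (hApfin r).toFinset := ⟨_, rfl⟩
  obtain ⟨B, hB⟩ : ∃ B : Finset N, B = (hApfin (r + 1)).toFinset := ⟨_, rfl⟩
  have hFc : ((A ^ r).ncard : ℝ) = F.card := by
    rw [hF, Set.ncard_eq_toFinset_card _ (hApfin r)]
  have hBc : ((A ^ (r + 1)).ncard : ℝ) = B.card := by
    rw [hB, Set.ncard_eq_toFinset_card _ (hApfin (r + 1))]
  rw [hFc, hBc] at hslow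
  have hFne : F.Nonempty := ⟨1, by rw [hF, Set.Finite.mem_toFinset]; exact Set.one_mem_pow hA_one⟩
  have hFpos : (0 : ℝ) < F.card := by exact_mod_cast hFne.card_pos
  have hFB : F ⊆ B := by
    intro x hx
    rw [hF, Set.Finite.mem_toFinset] at hx
    rw [hB, Set.Finite.mem_toFinset]
    exact Set.pow_subset_pow_right hA_one (Nat.le_succ r) hx
  refine ⟨un F (1 / F.card), ?_, ?_, ?_, ?_⟩
  · rw [mass_un]; field_simp
  · refine (l1_un_le _ (by positivity)).trans (le_of_eq ?_)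
    field_simp
  · intro x hx
    have h2 := un_support _ _ hx
    rw [hF, Set.Finite.mem_toFinset] at h2
    exact hA1 (Set.pow_subset_pow_right hA_one hr.le h2)
  · intro s hs c hc
    have ha : c⁻¹ * s * c ∈ A := by rw [hA]; exact ⟨s, hs, c, hc, rfl⟩
    generalize c⁻¹ * s * c = a at ha
    rw [L_un]
    have hF'B : F.image (a * ·) ⊆ B := by
      intro x hx
      obtain ⟨y, hy, rfl⟩ := Finset.mem_image.1 hx
      rw [hF, Set.Finite.mem_toFinset] at hy
      rw [hB, Set.Finite.mem_toFinset, pow_succ']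
      exact Set.mul_mem_mul ha hy
    have hF'c : (F.image (a * ·)).card = F.card :=
      Finset.card_image_of_injective _ (mul_right_injective a)
    have e1 := un_sub hFB (c := 1 / (F.card : ℝ)) (by positivity)
    have e2 := un_sub hF'B (c := 1 / (F.card : ℝ)) (by positivity)
    rw [hF'c] at e2
    have e3 : un (F.image (a * ·)) (1 / (F.card : ℝ)) - un F (1 / (F.card : ℝ)) =
        -(un B (1 / (F.card : ℝ)) - un (F.image (a * ·)) (1 / (F.card : ℝ))) +
          (un B (1 / (F.card : ℝ)) - un F (1 / (F.card : ℝ))) := by abel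
    rw [e3]
    refine (l1_add_le _ _).trans ?_
    rw [l1_neg]
    have e4 : ((B.card : ℝ) - F.card) * (1 / F.card) ≤ ((C + 1) * 4 ^ D : ℝ) / 2 ^ m := by
      rw [mul_one_div, div_le_iff₀ hFpos]
      nlinarith
    push_cast
    rw [mul_div_assoc]
    linarith

/-- convolution on the right with `Q` -/
noncomputable def conv (Q : N →₀ ℝ) : (N →₀ ℝ) →ₗ[ℝ] (N →₀ ℝ) :=
  Finsupp.linearCombination ℝ (fun x => L x Q)

theorem conv_single (Q : N →₀ ℝ) (x : N) (r : ℝ) : conv Q (Finsupp.single x r) = r • L x Q := by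
  simp [conv]

theorem conv_eq (Q v : N →₀ ℝ) : conv Q v = ∑ x ∈ v.support, v x • L x Q := by
  rw [conv, Finsupp.linearCombination_apply, Finsupp.sum]

theorem L_conv (Q : N →₀ ℝ) (g : N) (v : N →₀ ℝ) : L g (conv Q v) = conv Q (L g v) := by
  induction v using Finsupp.induction_linear with
  | zero => simp
  | add f h hf hh => rw [map_add, map_add, hf, hh, map_add, map_add]
  | single x r => rw [conv_single, L_single, conv_single, map_smul, L_mul]

theorem mass_conv (Q v : N →₀ ℝ) : mass (conv Q v) = mass v * mass Q := by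
  induction v using Finsupp.induction_linear with
  | zero => simp
  | add f h hf hh => rw [map_add, map_add, hf, hh, map_add, add_mul]
  | single x r => rw [conv_single, map_smul, mass_L, mass_single, smul_eq_mul]

theorem l1_conv_le (Q v : N →₀ ℝ) : l1 (conv Q v) ≤ l1 v * l1 Q := by
  have hv : l1 v = ∑ x ∈ v.support, |v x| := rfl
  rw [conv_eq, hv, Finset.sum_mul]
  refine (l1_sum_le _ _).trans (Finset.sum_le_sum fun x _ => ?_)
  rw [l1_smul, l1_L]

theorem conv_support {A B : Set N} {Q v : N →₀ ℝ} (hv : ∀ x ∈ v.support, x ∈ A)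
    (hQ : ∀ x ∈ Q.support, x ∈ B) : ∀ x ∈ (conv Q v).support, x ∈ A * B := by
  classical
  intro x hx
  rw [Finsupp.mem_support_iff, conv_eq, Finsupp.finsetSum_apply] at hx
  obtain ⟨a, ha, hax⟩ := Finset.exists_ne_zero_of_sum_ne_zero hx
  have h2 : x ∈ (L a Q).support := by
    rw [Finsupp.mem_support_iff]
    intro h0
    exact hax (by rw [Finsupp.smul_apply, h0, smul_zero])
  have h3 : (L a Q).support ⊆ Q.support.image (a * ·) := Finsupp.mapDomain_support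
  obtain ⟨b, hb, rfl⟩ := Finset.mem_image.1 (h3 h2)
  exact Set.mul_mem_mul (hv a ha) (hQ b hb)

theorem exists_kernel (S : Set N) (hfin : S.Finite)
    (h1 : (1 : N) ∈ S) (_hinv : ∀ x ∈ S, x⁻¹ ∈ S)
    (hcp : ∀ K : ℕ, ∃ K' C D : ℕ, ∀ t : ℕ, 1 ≤ t →
      {g : N | ∃ s ∈ S, ∃ c ∈ S ^ (K * t), g = c⁻¹ * s * c} ^ t ⊆ S ^ (K' * t) ∧
      (S ^ (K' * t)).ncard ≤ C * t ^ D) :
    ∃ (κ c : ℕ) (μ : ℕ → (N →₀ ℝ)), ∀ m : ℕ, 1 ≤ m →
      mass (μ m) = 1 ∧ l1 (μ m) ≤ 1 ∧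
      (∀ x ∈ (μ m).support, x ∈ S ^ (κ * (m * 2 ^ m))) ∧
      (∀ s ∈ S, l1 (L s (μ m) - μ m) ≤ (c : ℝ) / 2 ^ m) ∧
      (∀ s ∈ S, ∀ s' ∈ S, l1 (L s (L s' (μ m) - μ m) - (L s' (μ m) - μ m)) ≤
        ((c : ℝ) / 2 ^ m) ^ 2) := by
  classical
  obtain ⟨κ₀, Λ₀, h₀⟩ := exists_kernel1 S hfin h1 hcp 0
  obtain ⟨κ₁, Λ₁, h₁⟩ := exists_kernel1 S hfin h1 hcp (κ₀ + 1)
  have main : ∀ m : ℕ, ∃ μ : N →₀ ℝ, 1 ≤ m →
      mass μ = 1 ∧ l1 μ ≤ 1 ∧
      (∀ x ∈ μ.support, x ∈ S ^ ((κ₀ + κ₁) * (m * 2 ^ m))) ∧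
      (∀ s ∈ S, l1 (L s μ - μ) ≤ ((Λ₀ + Λ₁ : ℕ) : ℝ) / 2 ^ m) ∧
      (∀ s ∈ S, ∀ s' ∈ S, l1 (L s (L s' μ - μ) - (L s' μ - μ)) ≤
        (((Λ₀ + Λ₁ : ℕ) : ℝ) / 2 ^ m) ^ 2) := by
    intro m
    by_cases hm : 1 ≤ m
    swap
    · exact ⟨0, fun h => absurd h hm⟩
    obtain ⟨P, hP1, hP2, hP3, hP4⟩ := h₀ m hm
    obtain ⟨Q, hQ1, hQ2, hQ3, hQ4⟩ := h₁ m hm
    have ht : 1 ≤ m * 2 ^ m := Nat.one_le_iff_ne_zero.2 (by positivity)
    have hP : ∀ s ∈ S, l1 (L s P - P) ≤ (Λ₀ : ℝ) / 2 ^ m := by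
      intro s hs
      have := hP4 s hs 1 (Set.one_mem_pow h1)
      simpa using this
    have hdiff : ∀ s, L s (conv Q P) - conv Q P = conv Q (L s P - P) := by
      intro s
      rw [L_conv, map_sub]
    have hpos : (0 : ℝ) < 2 ^ m := by positivity
    refine ⟨conv Q P, fun _ => ⟨?_, ?_, ?_, ?_, ?_⟩⟩
    · rw [mass_conv, hP1, hQ1, one_mul]
    · refine (l1_conv_le _ _).trans ?_
      exact mul_le_one₀ hP2 (l1_nonneg _) hQ2
    · rw [Nat.add_mul, pow_add]
      exact conv_support hP3 hQ3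
    · intro s hs
      rw [hdiff]
      refine (l1_conv_le _ _).trans ?_
      have e1 : l1 (L s P - P) * l1 Q ≤ l1 (L s P - P) * 1 :=
        mul_le_mul_of_nonneg_left hQ2 (l1_nonneg _)
      rw [mul_one] at e1
      refine e1.trans ((hP s hs).trans ?_)
      exact div_le_div_of_nonneg_right (by push_cast; linarith [Nat.cast_nonneg (α := ℝ) Λ₁]) hpos.le
    · intro s hs s' hs'
      rw [hdiff]
      obtain ⟨D, hD⟩ : ∃ D, D = L s' P - P := ⟨_, rfl⟩
      rw [← hD]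
      have hDl : l1 D ≤ (Λ₀ : ℝ) / 2 ^ m := by rw [hD]; exact hP s' hs'
      have hDs : ∀ x ∈ D.support, x ∈ S ^ ((κ₀ + 1) * (m * 2 ^ m)) := by
        intro x hx
        rw [hD] at hx
        have h2 := Finsupp.support_sub hx
        rcases Finset.mem_union.1 h2 with h3 | h3
        · have h4 : (L s' P).support ⊆ P.support.image (s' * ·) := Finsupp.mapDomain_support
          obtain ⟨y, hy, rfl⟩ := Finset.mem_image.1 (h4 h3)
          have h5 : s' * y ∈ S ^ (κ₀ * (m * 2 ^ m) + 1) := by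
            rw [pow_succ']
            exact Set.mul_mem_mul hs' (hP3 y hy)
          exact Set.pow_subset_pow_right h1 (by rw [Nat.add_mul, one_mul]; omega) h5
        · exact Set.pow_subset_pow_right h1 (Nat.mul_le_mul_right _ (Nat.le_succ _)) (hP3 x h3)
      have e1 : L s (conv Q D) - conv Q D =
          ∑ x ∈ D.support, D x • L x (L (x⁻¹ * s * x) Q - Q) := by
        rw [conv_eq, map_sum, ← Finset.sum_sub_distrib]
        refine Finset.sum_congr rfl fun x _ => ?_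
        rw [map_smul, ← smul_sub, map_sub, ← L_mul, ← L_mul]
        rw [show x * (x⁻¹ * s * x) = s * x by group]
      rw [e1]
      have e2 : l1 (∑ x ∈ D.support, D x • L x (L (x⁻¹ * s * x) Q - Q)) ≤
          l1 D * ((Λ₁ : ℝ) / 2 ^ m) := by
        have hv : l1 D = ∑ x ∈ D.support, |D x| := rfl
        rw [hv, Finset.sum_mul]
        refine (l1_sum_le _ _).trans (Finset.sum_le_sum fun x hx => ?_)
        rw [l1_smul, l1_L]
        exact mul_le_mul_of_nonneg_left (hQ4 s hs x (hDs x hx)) (abs_nonneg _)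
      refine e2.trans ?_
      have e3 : (0 : ℝ) ≤ (Λ₁ : ℝ) / 2 ^ m := by positivity
      have e4 : (0 : ℝ) ≤ (Λ₀ : ℝ) / 2 ^ m := by positivity
      refine (mul_le_mul_of_nonneg_right hDl e3).trans ?_
      push_cast
      rw [add_div]
      nlinarith
  choose μ hμ using main
  exact ⟨κ₀ + κ₁, Λ₀ + Λ₁, μ, fun m hm => hμ m hm⟩

end Pool.Agent.H9Nil
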