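import Pool.Agent.H9Nil.Smooth
import Pool.Agent.H9Nil.Deriv
import Pool.Agent.H9Nil.Conj
import Pool.Agent.H9Nil.Kernel
import Pool.Agent.H9Nil.AbBasis
import Pool.Agent.H9DimN.Vanish

set_option autoImplicit false

/-!
# The vanishing theorem for nilpotent groups
-/

namespace Pool.Agent.H9Nil

open Pool.Agent.AutDim3 Pool.Agent.H9Thin Pool.Agent.H9DimN
open Pointwise

/-- Chains which are cycles for invariant functionals. -/
def IsCyc {N : Type} [Group N] (z : Ch N) : Prop :=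
  ∀ E : Ch N →ₗ[ℝ] ℝ, InvUnder (MonoidHom.id N) E → E (bd z) = 0

/-- Invariant cocycles which are bounded on small lists vanish on the cycle. -/
def Vanishes {N G : Type} [Group N] [Group G] (k : ℕ) (C : Comb G) (φ : N →* G) (z : Ch N) : Prop :=
  ∀ F : Ch G →ₗ[ℝ] ℝ, InvUnder φ F → Closed (k + 2) F →
    (∀ R : ℕ, ∃ M : ℝ, ∀ l : List G, l.length = k + 2 → C.Small R l → |F (sg l)| ≤ M) →
    F (push φ z) = 0

/-- The limit. -/
theorem lim_zero (c a : ℝ) (ha : 0 ≤ a) (d : ℕ) : Filter.Tendsto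
    (fun m : ℕ => |c / 2 ^ (m + 1)| ^ (d + 1) * (1 + a * ((m + 1 : ℕ) * 2 ^ (m + 1))) ^ d)
    Filter.atTop (nhds 0) := by
  have h1 : Filter.Tendsto (fun m : ℕ => ((m : ℕ) : ℝ) ^ d / 2 ^ m) Filter.atTop (nhds 0) :=
    tendsto_pow_const_div_const_pow_of_one_lt d (by norm_num)
  have h2 := (Filter.tendsto_add_atTop_iff_nat 1).mpr h1
  have h3 := h2.const_mul (|c| ^ (d + 1) * (1 + a) ^ d)
  rw [mul_zero] at h3
  refine squeeze_zero (fun m => by positivity) (fun m => ?_) h3
  have e1 : (1 : ℝ) ≤ ((m + 1 : ℕ) : ℝ) * 2 ^ (m + 1) := by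
    have f1 : (1 : ℝ) ≤ ((m + 1 : ℕ) : ℝ) := by exact_mod_cast Nat.succ_le_succ (Nat.zero_le m)
    have f2 : (1 : ℝ) ≤ 2 ^ (m + 1) := one_le_pow₀ (by norm_num)
    calc (1 : ℝ) = 1 * 1 := by ring
      _ ≤ _ := mul_le_mul f1 f2 zero_le_one (by positivity)
  have e2 : 1 + a * (((m + 1 : ℕ) : ℝ) * 2 ^ (m + 1)) ≤
      (1 + a) * (((m + 1 : ℕ) : ℝ) * 2 ^ (m + 1)) := by
    rw [add_mul, one_mul]; linarith
  have e3 : (1 + a * (((m + 1 : ℕ) : ℝ) * 2 ^ (m + 1))) ^ d ≤
      ((1 + a) * (((m + 1 : ℕ) : ℝ) * 2 ^ (m + 1))) ^ d :=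
    pow_le_pow_left₀ (by positivity) e2 d
  have e4 : |c / 2 ^ (m + 1)| = |c| / 2 ^ (m + 1) := by
    rw [abs_div, abs_of_pos (by positivity : (0 : ℝ) < 2 ^ (m + 1))]
  rw [e4]
  calc (|c| / 2 ^ (m + 1)) ^ (d + 1) * (1 + a * (((m + 1 : ℕ) : ℝ) * 2 ^ (m + 1))) ^ d
      ≤ (|c| / 2 ^ (m + 1)) ^ (d + 1) * ((1 + a) * (((m + 1 : ℕ) : ℝ) * 2 ^ (m + 1))) ^ d :=
        mul_le_mul_of_nonneg_left e3 (by positivity)
    _ = |c| ^ (d + 1) * (1 + a) ^ d * (((m + 1 : ℕ) : ℝ) ^ d / 2 ^ (m + 1)) := by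
        have hp : (2 : ℝ) ^ (m + 1) ≠ 0 := by positivity
        rw [div_pow, mul_pow, mul_pow]
        field_simp
        ring

/-- On the cycles of a finitely generated nilpotent group `N` every invariant cocycle of a combed
group that is bounded on small simplices is a combination of cup products of homomorphisms. -/
theorem nil_span {N G : Type} [Group N] [Group.IsNilpotent N] [Group.FG N] [Group G]
    (C : Comb G) (φ : N →* G) {k : ℕ} (F : Ch G →ₗ[ℝ] ℝ) (hi : InvUnder φ F)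
    (hc : Closed (k + 2) F)
    (hb : ∀ R : ℕ, ∃ M : ℝ, ∀ l : List G, l.length = k + 2 → C.Small R l → |F (sg l)| ≤ M) :
    ∃ χ : Fin (Module.finrank ℤ (Additive (Abelianization N))) → N → ℝ,
      (∀ i g h, χ i (g * h) = χ i g + χ i h) ∧
      ∃ a : (Fin (k + 1) → Fin (Module.finrank ℤ (Additive (Abelianization N)))) → ℝ,
        ∀ z : Cyc N (k + 1), F (push φ z.1) = ∑ s, a s * KI χ (List.ofFn s) z.1 := by
  obtain ⟨S, H₄, H₃, R, A, hH₃, hH₄, hS, hn⟩ := exists_eff C k
  obtain ⟨M, hM⟩ := hb R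
  -- a functional of polynomial growth in the same class
  set F₂ : Ch G →ₗ[ℝ] ℝ := F + F ∘ₗ H₃ ∘ₗ bd with hF₂
  have hH₃w : ∀ (g : G) (w : Ch G), H₃ (push (g * ·) w) = push (g * ·) (H₃ w) := by
    intro g w
    have := ext_sg (f := H₃ ∘ₗ push (g * ·)) (g := push (g * ·) ∘ₗ H₃) (by
      intro l
      simp only [LinearMap.comp_apply, push_sg]
      exact hH₃ g l)
    exact LinearMap.congr_fun this w
  have hF₂i : InvUnder φ F₂ := by
    intro n l
    simp only [hF₂, LinearMap.add_apply, LinearMap.comp_apply]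
    rw [hi n l, ← push_sg, ← push_bd, hH₃w, hi.apply n]
  have hF₂c : Closed (k + 2) F₂ := by
    intro l hl
    simp only [hF₂, LinearMap.add_apply, LinearMap.comp_apply]
    rw [bd_bd, map_zero, map_zero, add_zero]
    exact hc l hl
  have hF₂S : ∀ l : List G, l.length = k + 2 → F₂ (sg l) = F (S (sg l)) := by
    intro l hl
    simp only [hF₂, LinearMap.add_apply, LinearMap.comp_apply]
    obtain ⟨h1, h2⟩ := hH₄ l hl
    have h3 : S (sg l) = sg l + bd (H₄ (sg l)) + H₃ (bd (sg l)) := by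
      rw [add_assoc, ← h2]; abel
    rw [h3, map_add, map_add, hc.apply h1, add_zero]
  set F₃ : Ch N →ₗ[ℝ] ℝ := F₂ ∘ₗ push φ with hF₃
  have hF₃i : InvUnder (MonoidHom.id N) F₃ := by
    intro n l
    simp only [hF₃, LinearMap.comp_apply, push_sg, MonoidHom.id_apply, List.map_map]
    have := hF₂i n (l.map φ)
    rw [List.map_map] at this
    rw [← this]
    congr 2
    apply List.map_congr_left
    intro x _
    simp
  have hF₃c : Closed (k + 1 + 1) F₃ := by
    intro l hl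
    simp only [hF₃, LinearMap.comp_apply]
    rw [push_bd, push_sg]
    exact hF₂c _ (by simpa using hl)
  have hF₃z : ∀ z : Cyc N (k + 1), F₃ z.1 = F (push φ z.1) := by
    rintro ⟨z, -, cyc⟩
    simp only [hF₃, hF₂, LinearMap.comp_apply, LinearMap.add_apply]
    have e4 : InvUnder (MonoidHom.id N) (F ∘ₗ H₃ ∘ₗ push φ) := by
      intro n l
      simp only [LinearMap.comp_apply, push_sg, MonoidHom.id_apply, List.map_map]
      have e5 : (l.map φ).map (φ n * ·) = l.map (φ ∘ fun x => n * x) := by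
        rw [List.map_map]
        apply List.map_congr_left
        intro x _
        simp
      rw [← e5, hH₃, hi.apply n]
    have e6 := cyc _ e4
    simp only [LinearMap.comp_apply] at e6
    rw [push_bd] at e6
    rw [e6, add_zero]
  -- generators
  obtain ⟨S₀, hS₀gen, hS₀fin⟩ := Group.fg_iff.mp (inferInstance : Group.FG N)
  set S₁ : Set N := insert 1 (S₀ ∪ S₀⁻¹) with hS₁
  have hfin : S₁.Finite := (hS₀fin.union hS₀fin.inv).insert 1
  have hone : (1 : N) ∈ S₁ := Set.mem_insert _ _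
  have hinv : ∀ x ∈ S₁, x⁻¹ ∈ S₁ := by
    rintro x (rfl | hx | hx)
    · rw [inv_one]; exact hone
    · exact Or.inr (Or.inr (Set.inv_mem_inv.mpr hx))
    · exact Or.inr (Or.inl hx)
  have hgen : Subgroup.closure S₁ = ⊤ := by
    rw [eq_top_iff, ← hS₀gen]
    exact Subgroup.closure_mono fun x hx => Or.inr (Or.inl hx)
  obtain ⟨κ, c, μ, hμ⟩ := exists_kernel S₁ hfin hone hinv (conj_products S₁ hfin hone hinv)
  obtain ⟨u, χ, hχ, hb'⟩ := ab_basis (N := N)
  -- the length
  set ell : N → ℕ := fun n => C.len (φ n) with hell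
  have ell_mul : ∀ g h, ell (g * h) ≤ ell g + ell h := fun g h => by
    simp only [hell, map_mul]; exact C.len_mul _ _
  have ell_inv : ∀ g, ell g⁻¹ = ell g := fun g => by
    simp only [hell, map_inv]; exact C.len_inv _
  obtain ⟨Λ, hΛ⟩ := (hfin.image ell).bddAbove
  have hΛ' : ∀ s ∈ S₁, ell s ≤ Λ := fun s hs => hΛ ⟨s, hs, rfl⟩
  have hpow : ∀ (n : ℕ), ∀ x ∈ S₁ ^ n, ell x ≤ n * Λ := by
    intro n
    induction n with
    | zero =>
      intro x hx
      rw [pow_zero, Set.mem_one] at hx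
      rw [hx]; simp [hell, C.len_one]
    | succ n ih =>
      intro x hx
      rw [pow_succ] at hx
      obtain ⟨a, ha, b, hb, rfl⟩ := hx
      refine (ell_mul a b).trans ?_
      have := ih a ha
      have := hΛ' b hb
      rw [Nat.succ_mul]
      omega
  set ε : ℕ → ℝ := fun m => (c : ℝ) / 2 ^ (m + 1) with hεd
  have hε : ∀ m, 0 ≤ ε m := fun m => by simp only [hεd]; positivity
  have hfirst : ∀ g : N, AI (fun m => μ (m + 1)) ε g := fun g =>
    AI.all hgen (fun s hs => ⟨1, fun m => by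
      rw [one_mul]; exact (hμ (m + 1) (Nat.le_add_left 1 m)).2.2.2.1 s hs⟩) g
  have hsecond : ∀ g h : N, AI (fun m => L g (μ (m + 1)) - μ (m + 1)) (fun m => ε m ^ 2) h :=
    fun g h => second (μ := fun m => μ (m + 1)) hgen (fun s hs s' hs' => ⟨1, fun m => by
      rw [one_mul]; exact (hμ (m + 1) (Nat.le_add_left 1 m)).2.2.2.2 s hs s' hs'⟩) g h
  refine ⟨χ, hχ, ?_⟩
  have hlim : Filter.Tendsto (fun m => ε m ^ (k + 1 + 1) *
      (1 + ((κ * ((m + 1) * 2 ^ (m + 1)) * Λ : ℕ) : ℝ)) ^ (k + 1)) Filter.atTop (nhds 0) := by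
    have := lim_zero c (κ * Λ) (by positivity) (k + 1)
    refine this.congr fun m => ?_
    simp only [hεd]
    rw [abs_of_nonneg (by positivity)]
    push_cast
    ring_nf
  have hgrow : ∀ (δ : ℕ) (l : List N), l.length = k + 1 + 1 →
      (∀ p ∈ l, ∀ q ∈ l, ell (p⁻¹ * q) ≤ δ) → |F₃ (sg l)| ≤ |M| * A * (1 + δ) ^ (k + 1) := by
    intro δ l hl hδ
    have hl' : (l.map φ).length = k + 2 := by simpa using hl
    have hsm : C.Small δ (l.map φ) := by
      intro p hp q hq
      rw [List.mem_map] at hp hq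
      obtain ⟨p', hp', rfl⟩ := hp
      obtain ⟨q', hq', rfl⟩ := hq
      have := hδ p' hp' q' hq'
      simp only [hell, map_mul, map_inv] at this
      exact this
    have e1 : F₃ (sg l) = F (S (sg (l.map φ))) := by
      simp only [hF₃, LinearMap.comp_apply, push_sg]
      exact hF₂S _ hl'
    rw [e1]
    have e2 := abs_le_nrm F (S (sg (l.map φ))) (c := |M|) (fun m hm => by
      obtain ⟨g1, g2⟩ := hS (l.map φ) hl' m hm
      exact (hM m g1 g2).trans (le_abs_self M))
    refine e2.trans ?_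
    rw [mul_assoc]
    exact mul_le_mul_of_nonneg_left (hn _ δ hl' hsm) (abs_nonneg _)
  obtain ⟨a, ha⟩ := span_closed (d := k + 1) χ F₃ (fun m i => L (u i) (μ (m + 1)) - μ (m + 1))
    (fun m => μ (m + 1)) (by
      rintro ⟨z, hz, cyc⟩
      obtain ⟨Q, hQ⟩ := smooth_key (d := k + 1) ell ell_mul ell_inv χ u (fun m => μ (m + 1)) ε
        (fun m => κ * ((m + 1) * 2 ^ (m + 1)) * Λ) hε
        (fun m => (hμ (m + 1) (Nat.le_add_left 1 m)).1)
        (fun m => (hμ (m + 1) (Nat.le_add_left 1 m)).2.1)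
        (fun m x hx => hpow _ _ ((hμ (m + 1) (Nat.le_add_left 1 m)).2.2.1 x hx))
        hfirst hsecond (fun g => third (μ := fun m => μ (m + 1)) hsecond u χ hb' g) F₃ hF₃i hF₃c
        (|M| * A) (by positivity) hgrow z hz cyc
      have h5 := hlim.const_mul Q
      rw [mul_zero] at h5
      rw [tendsto_iff_dist_tendsto_zero]
      refine squeeze_zero (fun m => dist_nonneg) (fun m => ?_) h5
      rw [Real.dist_eq, abs_sub_comm]
      exact hQ m)
  exact ⟨a, fun z => by rw [← hF₃z]; exact ha z⟩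

/-- In a finitely generated nilpotent group whose abelianisation has rank less than `k + 1`, every
cycle of dimension `k + 1` is killed by all invariant cocycles of a combed group that are bounded on
small simplices. -/
theorem nil_vanish {N G : Type} [Group N] [Group.IsNilpotent N] [Group.FG N] [Group G]
    (C : Comb G) (φ : N →* G) {k : ℕ}
    (hr : Module.finrank ℤ (Additive (Abelianization N)) < k + 1) (z : Ch N)
    (hz : z ∈ Deg (G := N) (k + 2)) (cyc : IsCyc z) : Vanishes k C φ z := by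
  intro F hi hc hb
  obtain ⟨χ, hχ, a, ha⟩ := nil_span C φ F hi hc hb
  rw [ha ⟨z, hz, cyc⟩]
  refine Finset.sum_eq_zero fun s _ => ?_
  rw [KI_zero hχ (List.ofFn s) (by simp) hr hz cyc, mul_zero]

end Pool.Agent.H9Nil
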