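import Pool.Agent.H36Top.SeriesDefs

/-!
Groups with a central series with infinite cyclic factors: they are nilpotent and finitely
generated, and the rank of the abelianization of a noncommutative one is less than the length.
-/

set_option autoImplicit false

namespace Pool.Agent.H9Nil

open Module Pool.Agent.H36Top

theorem series_nilpotent {N : Type} [Group N] {d : ℕ} (h : HasSeries N d) :
    Group.IsNilpotent N := by
  obtain ⟨S, h0, hd, hS⟩ := h
  have key : ∀ i, i ≤ d → S i ≤ Subgroup.upperCentralSeries N i := by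
    intro i
    induction i with
    | zero => intro _; rw [h0]; exact bot_le
    | succ i ih =>
      intro hi x hx
      rw [Subgroup.mem_upperCentralSeries_succ_iff]
      intro y
      refine ih (by omega) ?_
      have h1 := (hS i (by omega)).2.1 y x hx
      have h2 := (S i).inv_mem h1
      have h3 : (y * x * y⁻¹ * x⁻¹)⁻¹ = x * y * x⁻¹ * y⁻¹ := by group
      rw [h3] at h2
      exact h2
  exact ⟨d, top_le_iff.mp (hd ▸ key d le_rfl)⟩

theorem series_fg {N : Type} [Group N] {d : ℕ} (h : HasSeries N d) : Group.FG N := by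
  obtain ⟨S, h0, hd, hS⟩ := h
  have key : ∀ i, i ≤ d → (S i).FG := by
    intro i
    induction i with
    | zero => intro _; rw [h0]; exact Subgroup.FG.bot
    | succ i ih =>
      intro hi
      obtain ⟨h1, -, τ, hτ, h2, -⟩ := hS i (by omega)
      have h3 : S (i + 1) = S i ⊔ Subgroup.zpowers τ := by
        apply le_antisymm
        · intro s hs
          obtain ⟨k, hk⟩ := h2 s hs
          have h4 : s = s * τ ^ k * (τ ^ k)⁻¹ := by group
          rw [h4]
          exact mul_mem (Subgroup.mem_sup_left hk)
            (Subgroup.mem_sup_right (inv_mem (Subgroup.zpow_mem_zpowers τ k)))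
        · exact sup_le h1 (by rwa [Subgroup.zpowers_le])
      rw [h3]
      refine (ih (by omega)).sup ⟨{τ}, ?_⟩
      rw [Finset.coe_singleton, Subgroup.zpowers_eq_closure]
  exact Group.fg_def.mpr (hd ▸ key d le_rfl)

theorem rank_lt {N : Type} [Group N] {d : ℕ} (h : HasSeries N d)
    (hc : ∃ x y : N, x * y ≠ y * x) :
    Module.finrank ℤ (Additive (Abelianization N)) < d := by
  classical
  obtain ⟨S, h0, hd, hS⟩ := h
  choose hle hcen τ hτ hgen hinf using hS
  let cl : N → Additive (Abelianization N) := fun g => Additive.ofMul (Abelianization.of g)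
  have cl_mul : ∀ g h, cl (g * h) = cl g + cl h := fun g h => by
    show Additive.ofMul (Abelianization.of (g * h)) = _
    rw [map_mul, ofMul_mul]
  have cl_one : cl 1 = 0 := by
    show Additive.ofMul (Abelianization.of (1 : N)) = 0
    rw [map_one, ofMul_one]
  have cl_inv : ∀ g, cl g⁻¹ = - cl g := fun g => by
    show Additive.ofMul (Abelianization.of g⁻¹) = _
    rw [map_inv, ofMul_inv]
  have cl_zpow : ∀ (g : N) (k : ℤ), cl (g ^ k) = k • cl g := fun g k => by
    show Additive.ofMul (Abelianization.of (g ^ k)) = _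
    rw [map_zpow, ofMul_zpow]
  let t : Fin d → Additive (Abelianization N) := fun j => cl (τ j j.2)
  have key : ∀ i, i ≤ d → ∀ s ∈ S i, cl s ∈ Submodule.span ℤ (t '' {j | (j : ℕ) < i}) := by
    intro i
    induction i with
    | zero =>
      intro _ s hs
      rw [h0, Subgroup.mem_bot] at hs
      rw [hs, cl_one]
      exact zero_mem _
    | succ i ih =>
      intro hi s hs
      obtain ⟨k, hk⟩ := hgen i (by omega) s hs
      have h1 := ih (by omega) _ hk
      rw [cl_mul, cl_zpow] at h1
      have h2 : cl s = (cl s + k • cl (τ i (by omega))) + (-k) • t ⟨i, by omega⟩ := by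
        show cl s = (cl s + k • cl (τ i (by omega))) + (-k) • cl (τ i (by omega))
        rw [neg_smul]; abel
      rw [h2]
      refine add_mem (Submodule.span_mono (Set.image_mono ?_) h1)
        (Submodule.smul_mem _ _ (Submodule.subset_span ⟨⟨i, by omega⟩, ?_, rfl⟩))
      · intro j hj
        exact Nat.lt_succ_of_lt hj
      · exact Nat.lt_succ_self i
  by_contra hlt
  push Not at hlt
  have hspan : ⊤ ≤ Submodule.span ℤ (Set.range t) := by
    intro a _
    obtain ⟨g, hg⟩ := QuotientGroup.mk_surjective a.toMul
    have h1 : cl g = a := by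
      show Additive.ofMul (Abelianization.of g) = a
      exact congrArg Additive.ofMul hg
    rw [← h1]
    refine Submodule.span_mono (Set.image_subset_range _ _) (key d le_rfl g ?_)
    rw [hd]; exact Subgroup.mem_top g
  have hli : LinearIndependent ℤ t :=
    linearIndependent_of_top_le_span_of_card_le_finrank hspan (by rwa [Fintype.card_fin])
  obtain ⟨x, y, hxy⟩ := hc
  have hc1 : x * y * x⁻¹ * y⁻¹ ≠ 1 := by
    intro h1
    apply hxy
    calc x * y = (x * y * x⁻¹ * y⁻¹) * (y * x) := by group
      _ = y * x := by rw [h1, one_mul]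
  have hcl : cl (x * y * x⁻¹ * y⁻¹) = 0 := by
    rw [cl_mul, cl_mul, cl_mul, cl_inv, cl_inv]; abel
  generalize x * y * x⁻¹ * y⁻¹ = c at hc1 hcl
  have hex : ∃ n, c ∈ S n := ⟨d, by rw [hd]; exact Subgroup.mem_top c⟩
  have hfind : Nat.find hex ≤ d := Nat.find_min' hex (by rw [hd]; exact Subgroup.mem_top c)
  have hmem := Nat.find_spec hex
  have hmin : ∀ m, m < Nat.find hex → c ∉ S m := fun m hm => Nat.find_min hex hm
  generalize Nat.find hex = n at hfind hmem hmin
  cases n with
  | zero =>
    rw [h0, Subgroup.mem_bot] at hmem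
    exact hc1 hmem
  | succ i =>
    have hid : i < d := by omega
    obtain ⟨k, hk⟩ := hgen i hid c hmem
    have hk0 : k ≠ 0 := by
      intro h1
      rw [h1, zpow_zero, mul_one] at hk
      exact hmin i (Nat.lt_succ_self i) hk
    have h1 := key i hid.le _ hk
    rw [cl_mul, cl_zpow, hcl, zero_add] at h1
    apply hk0
    refine hli.eq_zero_of_smul_mem_span ⟨i, hid⟩ k (Submodule.span_mono ?_ h1)
    rintro _ ⟨j, hj, rfl⟩
    refine ⟨j, ?_, rfl⟩
    have hj' : (j : ℕ) < i := hj
    simp only [Set.mem_sdiff, Set.mem_univ, Set.mem_singleton_iff, true_and]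
    intro h2
    rw [h2] at hj'
    exact lt_irrefl _ hj'

end Pool.Agent.H9Nil
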