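import Pool.Agent.H9Nil.Conj

/-!
# Distortion of commutators in a nilpotent group
-/

set_option autoImplicit false

namespace Pool.Agent.H9Nil

open scoped Pointwise commutatorElement

section

variable {G : Type*} [Group G]

private theorem Zs_mono {S S' : Set G} (h : S ⊆ S') (i : ℕ) : Zs S i ⊆ Zs S' i := by
  induction i with
  | zero => exact h
  | succ i ih =>
    rintro x ⟨v, hv, u, hu, hx⟩
    exact ⟨v, ih hv, u, h hu, hx⟩

private theorem symm_union {S S' : Set G} (h : Symm S) (h' : Symm S') : Symm (S ∪ S') where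
  fin := h.fin.union h'.fin
  one := Or.inl h.one
  inv := by
    rintro x (hx | hx)
    · exact Or.inl (h.inv x hx)
    · exact Or.inr (h'.inv x hx)

private theorem exists_symm (z : G) (hz : z ∈ commutator G) :
    ∃ S : Set G, Symm S ∧ ∃ k : ℕ, z ∈ Zs S 1 ^ k := by
  rw [commutator_eq_closure] at hz
  induction hz using Subgroup.closure_induction with
  | mem x hx =>
    obtain ⟨a, b, rfl⟩ := hx
    refine ⟨{1, a, a⁻¹, b, b⁻¹}, ⟨Set.toFinite _, by simp, ?_⟩, 1, ?_⟩
    · intro x hx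
      simp only [Set.mem_insert_iff, Set.mem_singleton_iff] at hx
      rcases hx with rfl | rfl | rfl | rfl | rfl <;> simp
    · rw [pow_one]
      refine ⟨a⁻¹, ?_, b⁻¹, ?_, Or.inl ?_⟩
      · show a⁻¹ ∈ ({1, a, a⁻¹, b, b⁻¹} : Set G)
        simp
      · simp
      · simp [cm, commutatorElement_def]
  | one => exact ⟨{1}, ⟨Set.finite_singleton _, rfl, by simp⟩, 0, by simp⟩
  | mul x y _ _ hx hy =>
    obtain ⟨S, hS, k, hk⟩ := hx
    obtain ⟨S', hS', k', hk'⟩ := hy
    exact ⟨S ∪ S', symm_union hS hS', k + k', mul_mem_pow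
      (Set.pow_subset_pow_left (Zs_mono Set.subset_union_left 1) hk)
      (Set.pow_subset_pow_left (Zs_mono Set.subset_union_right 1) hk')⟩
  | inv x _ hx =>
    obtain ⟨S, hS, k, hk⟩ := hx
    exact ⟨S, hS, k, inv_mem_pow (inv_Zs hS 1) hk⟩

private theorem ell_pow {S : Set G} {M : ℕ} {ell : G → ℕ} (hM : ∀ x ∈ S, ell x ≤ M)
    (hmul : ∀ g h, ell (g * h) ≤ ell g + ell h) : ∀ (m : ℕ) (x : G), x ∈ S ^ m →
    ell x ≤ m * M + ell 1 := by
  intro m
  induction m with
  | zero =>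
    intro x hx
    rw [pow_zero, Set.mem_one] at hx
    rw [hx]; omega
  | succ m ih =>
    intro x hx
    rw [pow_succ'] at hx
    obtain ⟨a, ha, b, hb, rfl⟩ := Set.mem_mul.1 hx
    have h1 := hmul a b
    have h2 := hM a ha
    have h3 := ih b hb
    have h4 : (m + 1) * M = m * M + M := by ring
    omega

end

/-- An element of the commutator subgroup of a nilpotent group is quadratically distorted. -/
theorem distortion {H : Type} [Group H] [Group.IsNilpotent H] (z : H) (hz : z ∈ commutator H)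
    (ell : H → ℕ) (hmul : ∀ g h, ell (g * h) ≤ ell g + ell h) :
    ∃ D : ℕ, ∀ t : ℕ, 1 ≤ t → ∀ q : ℕ, q ≤ t ^ 2 → ell (z ^ q) ≤ D * t := by
  obtain ⟨S, hS, k, hk⟩ := exists_symm z hz
  obtain ⟨L, _, hL⟩ := PE_nilpotent H S hS 1 k
  obtain ⟨M, hM⟩ : ∃ M, ∀ x ∈ S, ell x ≤ M := by
    obtain ⟨M, hM⟩ := (hS.fin.image ell).bddAbove
    exact ⟨M, fun x hx => hM ⟨x, hx, rfl⟩⟩
  refine ⟨L * M + ell 1, fun t ht q hq => ?_⟩
  have h1 : z ^ q ∈ Zs S 1 ^ (k * q) := by
    rw [pow_mul]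
    exact Set.pow_mem_pow hk
  have h2 : z ^ q ∈ S ^ (L * t) := by
    refine (hL t ht).1 (Set.pow_subset_pow (Zs_Xs hS 1 (k * t)) (one_Xs hS 1 (k * t)) ?_ h1)
    exact Nat.mul_le_mul_left _ hq
  have h3 := ell_pow hM hmul _ _ h2
  have h4 : (L * M + ell 1) * t = L * t * M + ell 1 * t := by ring
  have h5 : ell 1 * 1 ≤ ell 1 * t := Nat.mul_le_mul_left _ ht
  omega

end Pool.Agent.H9Nil
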