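import Pool.Agent.H36Top.SeriesDefs

/-!
Lattices in commutative groups with a series with infinite cyclic factors: every nontrivial element
is the image of a basis vector under an injective homomorphism from a lattice of full rank.
-/

set_option autoImplicit false

namespace Pool.Agent.H9Nil

open Pool.Agent.H36Top

/-- The lattice `ℤ ^ n` has a central series of length `n` with infinite cyclic factors. -/
theorem hasSeries_lattice (n : ℕ) : HasSeries (Multiplicative (Fin n → ℤ)) n := by
  refine ⟨fun i =>
    { carrier := {x | ∀ j : Fin n, i ≤ (j : ℕ) → (Multiplicative.toAdd x) j = 0}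
      mul_mem' := ?_
      one_mem' := ?_
      inv_mem' := ?_ }, ?_, ?_, ?_⟩
  · intro a b ha hb j hj
    have h1 := ha j hj
    have h2 := hb j hj
    simp only [toAdd_mul, Pi.add_apply, h1, h2, add_zero]
  · intro j hj
    simp
  · intro a ha j hj
    have h1 := ha j hj
    simp only [toAdd_inv, Pi.neg_apply, h1, neg_zero]
  · ext x
    constructor
    · intro hx
      have h1 : ∀ j : Fin n, (Multiplicative.toAdd x) j = 0 := fun j => hx j (Nat.zero_le _)
      rw [Subgroup.mem_bot]
      apply Multiplicative.toAdd.injective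
      funext j
      rw [h1 j]
      simp
    · intro hx
      rw [Subgroup.mem_bot] at hx
      subst hx
      intro j hj
      simp
  · ext x
    constructor
    · intro _
      trivial
    · intro _ j hj
      exact absurd j.isLt (by omega)
  · intro i hi
    refine ⟨?_, ?_, Multiplicative.ofAdd (Pi.single ⟨i, hi⟩ 1), ?_, ?_, ?_⟩
    · intro x hx j hj
      exact hx j (by omega)
    · intro g s hs
      have h1 : g * s * g⁻¹ * s⁻¹ = 1 := by
        rw [mul_comm g s]
        group
      rw [h1]
      exact one_mem _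
    · intro j hj
      have h1 : j ≠ ⟨i, hi⟩ := by
        intro h
        rw [h] at hj
        simp at hj
      simp [h1]
    · intro s hs
      refine ⟨-(Multiplicative.toAdd s) ⟨i, hi⟩, ?_⟩
      intro j hj
      by_cases h1 : j = ⟨i, hi⟩
      · subst h1
        simp
      · have h2 : i + 1 ≤ (j : ℕ) := by
          have h3 : (j : ℕ) ≠ i := fun h => h1 (Fin.ext h)
          omega
        have h4 := hs j h2
        simp [h1, h4]
    · intro k hk
      have h1 := hk ⟨i, hi⟩ le_rfl
      simpa using h1

theorem exists_lattice {K : Type} [Group K] {k : ℕ} (h : HasSeries K (k + 1))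
    (hc : ∀ a b : K, a * b = b * a) (z : K) (hz : z ≠ 1) :
    ∃ θ : Multiplicative (Fin (k + 1) → ℤ) →* K, Function.Injective θ ∧
      θ (Multiplicative.ofAdd (Pi.single 0 1)) = z ∧
      HasSeries (Multiplicative (Fin (k + 1) → ℤ)) (k + 1) := by
  classical
  let _ : CommGroup K := { ‹Group K› with mul_comm := hc }
  obtain ⟨S, h0, hd, hS⟩ := h
  have hS' : ∀ i, ∃ τ : K, i < k + 1 → (τ ∈ S (i + 1) ∧
      (∀ s ∈ S (i + 1), ∃ m : ℤ, s * τ ^ m ∈ S i) ∧ ∀ m : ℤ, τ ^ m ∈ S i → m = 0) := by
    intro i
    by_cases hi : i < k + 1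
    · obtain ⟨-, -, τ, h1, h2, h3⟩ := hS i hi
      exact ⟨τ, fun _ => ⟨h1, h2, h3⟩⟩
    · exact ⟨1, fun h => absurd h hi⟩
  choose τ hτ using hS'
  have hmono : ∀ i j, i ≤ j → j ≤ k + 1 → S i ≤ S j := by
    intro i j hij
    induction j, hij using Nat.le_induction with
    | base => intro _; exact le_rfl
    | succ j hij ih => intro hj; exact (ih (by omega)).trans (hS j (by omega)).1
  have hmem : ∀ m, m ≤ k + 1 → ∀ c : ℕ → ℤ, (∏ i ∈ Finset.range m, τ i ^ c i) ∈ S m := by
    intro m hm c
    refine Subgroup.prod_mem _ fun i hi => ?_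
    have hi' : i < m := Finset.mem_range.mp hi
    exact zpow_mem (hmono (i + 1) m (by omega) hm (hτ i (by omega)).1) _
  have hspan : ∀ m, m ≤ k + 1 → ∀ g ∈ S m, ∃ c : ℕ → ℤ,
      g = ∏ i ∈ Finset.range m, τ i ^ c i := by
    intro m
    induction m with
    | zero =>
      intro _ g hg
      rw [h0, Subgroup.mem_bot] at hg
      exact ⟨0, by simp [hg]⟩
    | succ m ih =>
      intro hm g hg
      obtain ⟨e, he⟩ := (hτ m (by omega)).2.1 g hg
      obtain ⟨c, hcc⟩ := ih (by omega) _ he
      refine ⟨fun i => if i = m then -e else c i, ?_⟩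
      rw [Finset.prod_range_succ]
      have h1 : ∏ i ∈ Finset.range m, τ i ^ (if i = m then -e else c i) =
          ∏ i ∈ Finset.range m, τ i ^ c i := by
        refine Finset.prod_congr rfl fun i hi => ?_
        rw [if_neg (Finset.mem_range.mp hi).ne]
      rw [h1, ← hcc]
      simp
  have hind : ∀ m, m ≤ k + 1 → ∀ c : ℕ → ℤ, (∏ i ∈ Finset.range m, τ i ^ c i) = 1 →
      ∀ i < m, c i = 0 := by
    intro m
    induction m with
    | zero => intro _ c _ i hi; omega
    | succ m ih =>
      intro hm c hcc i hi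
      rw [Finset.prod_range_succ] at hcc
      have h1 : τ m ^ c m = (∏ i ∈ Finset.range m, τ i ^ c i)⁻¹ :=
        eq_inv_of_mul_eq_one_right hcc
      have h2 : c m = 0 := by
        apply (hτ m (by omega)).2.2
        rw [h1]
        exact inv_mem (hmem m (by omega) c)
      rw [h2, zpow_zero, mul_one] at hcc
      rcases Nat.lt_succ_iff_lt_or_eq.mp hi with h3 | h3
      · exact ih (by omega) c hcc i h3
      · rw [h3]; exact h2
  have hind' : ∀ y : Fin (k + 1) → ℤ, (∏ i : Fin (k + 1), τ i ^ y i) = 1 → ∀ i, y i = 0 := by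
    intro y hy i
    have h1 := hind (k + 1) le_rfl (fun i => if hi : i < k + 1 then y ⟨i, hi⟩ else 0) (by
      rw [← Fin.prod_univ_eq_prod_range (fun i => τ i ^ (if hi : i < k + 1 then y ⟨i, hi⟩ else 0))
        (k + 1)]
      rw [← hy]
      refine Finset.prod_congr rfl fun i _ => ?_
      rw [dif_pos i.isLt]) i i.isLt
    rw [dif_pos i.isLt] at h1
    exact h1
  obtain ⟨c, hcz⟩ := hspan (k + 1) le_rfl z (by rw [hd]; trivial)
  have hcz' : z = ∏ i : Fin (k + 1), τ i ^ c i := by
    rw [hcz, Fin.prod_univ_eq_prod_range (fun i => τ i ^ c i) (k + 1)]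
  obtain ⟨j, hj⟩ : ∃ j : Fin (k + 1), c j ≠ 0 := by
    by_contra hcon
    push Not at hcon
    apply hz
    rw [hcz']
    refine Finset.prod_eq_one fun i _ => ?_
    rw [hcon i, zpow_zero]
  let θ : Multiplicative (Fin (k + 1) → ℤ) →* K :=
    { toFun := fun x => z ^ (Multiplicative.toAdd x 0) *
        ∏ i : Fin k, τ (j.succAbove i) ^ (Multiplicative.toAdd x i.succ)
      map_one' := by simp
      map_mul' := by
        intro x y
        simp only [toAdd_mul, Pi.add_apply, zpow_add, Finset.prod_mul_distrib]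
        exact mul_mul_mul_comm _ _ _ _ }
  refine ⟨θ, ?_, ?_, hasSeries_lattice (k + 1)⟩
  · rw [injective_iff_map_eq_one]
    intro x hx
    have hx' : z ^ (Multiplicative.toAdd x 0) *
        ∏ i : Fin k, τ (j.succAbove i) ^ (Multiplicative.toAdd x i.succ) = 1 := hx
    have h1 : ∏ l : Fin (k + 1), τ l ^ (c l * Multiplicative.toAdd x 0 +
        Fin.insertNth (α := fun _ => ℤ) j 0 (fun i => Multiplicative.toAdd x i.succ) l) = 1 := by
      simp only [zpow_add, Finset.prod_mul_distrib]
      rw [← hx']
      congr 1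
      · simp only [zpow_mul, Finset.prod_zpow]
        rw [← hcz']
      · rw [Fin.prod_univ_succAbove _ j]
        simp
    have h2 := hind' _ h1
    have h3 : Multiplicative.toAdd x 0 = 0 := by
      have h4 := h2 j
      rw [Fin.insertNth_apply_same, add_zero] at h4
      exact (mul_eq_zero.mp h4).resolve_left hj
    have h5 : ∀ i : Fin k, Multiplicative.toAdd x i.succ = 0 := by
      intro i
      have h4 := h2 (j.succAbove i)
      rw [Fin.insertNth_apply_succAbove, h3, mul_zero, zero_add] at h4
      exact h4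
    apply Multiplicative.toAdd.injective
    funext i
    refine Fin.cases ?_ ?_ i
    · rw [h3]; simp
    · intro i; rw [h5 i]; simp
  · show z ^ (Pi.single (M := fun _ : Fin (k + 1) => ℤ) 0 1 0) *
      ∏ i : Fin k, τ (j.succAbove i) ^ (Pi.single (M := fun _ : Fin (k + 1) => ℤ) 0 1 i.succ) = z
    simp [Fin.succ_ne_zero]

end Pool.Agent.H9Nil
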