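import Pool.Agent.H9Nil.Scale
import Pool.Agent.H9Nil.Distort
import Pool.Agent.H9Nil.Lattice
import Pool.Agent.H36Top.Series

set_option autoImplicit false

/-!
# Lattices meet commutator subgroups of nilpotent subgroups trivially
-/

namespace Pool.Agent.H9Nil

open Pool.Agent.AutDim3 Pool.Agent.H9DimN Pool.Agent.H36Top

/-- A commutative group `K` with a central series of length `k + 1`, mapped to a combed group in such
a way that an element `z ≠ 1` goes to the commutator subgroup of a nilpotent subgroup: there is a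
lattice in `K` with a nontrivial cycle killed by all cocycles that are bounded on small simplices. -/
theorem exists_dead {G : Type} [Group G] (C : Comb G) {k : ℕ} {K : Type} [Group K]
    (hK : HasSeries K (k + 1)) (hc : ∀ a b : K, a * b = b * a) (φ : K →* G) (z : K) (hz : z ≠ 1)
    (H : Subgroup G) (hH : Group.IsNilpotent H) (hzH : φ z ∈ ⁅H, H⁆) :
    ∃ (θ : Zn (k + 1) →* K) (y : Ch (Zn (k + 1))) (ν : Ch (Zn (k + 1)) →ₗ[ℝ] ℝ),
      Function.Injective θ ∧ y ∈ Deg (G := Zn (k + 1)) (k + 2) ∧ IsCyc y ∧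
      Vanishes k C (φ.comp θ) y ∧ InvUnder (MonoidHom.id (Zn (k + 1))) ν ∧
      Closed (k + 2) ν ∧ ν y = 1 := by
  obtain ⟨θ, hθ, hθz, hs⟩ := exists_lattice hK hc z hz
  obtain ⟨y, ν, hy, cyc, hi, hcl, hv⟩ := exists_top hs
  rw [← Subgroup.map_subtype_commutator] at hzH
  obtain ⟨z', hz', hzz⟩ := hzH
  obtain ⟨D, hD⟩ := distortion z' hz' (fun h => C.len (h : G)) (fun g h => by
    rw [Subgroup.coe_mul]; exact C.len_mul _ _)
  refine ⟨θ, y, ν, hθ, hy, cyc, distorted_vanish C (φ.comp θ) ⟨D, fun t ht => ?_⟩ y hy cyc, hi,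
    hcl, hv⟩
  have h1 : (φ.comp θ) (eb 0 ^ (t ^ 2)) = ((z' ^ (t ^ 2) : H) : G) := by
    rw [map_pow, MonoidHom.comp_apply]
    have : θ (eb 0) = z := hθz
    rw [this, Subgroup.coe_pow, ← hzz]
    rfl
  rw [h1]
  exact hD t ht _ le_rfl

end Pool.Agent.H9Nil
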