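import Pool.Agent.H36Top.SeriesDefs

set_option autoImplicit false

/-!
# Central series of subgroups of finite index
-/

namespace Pool.Agent.H9Nil

open Pool.Agent.H36Top

theorem series_of_finiteIndex {N N' : Type} [Group N] [Group N'] {d : ℕ} (h : HasSeries N d)
    (ι : N' →* N) (hι : Function.Injective ι) (hfi : ι.range.index ≠ 0) : HasSeries N' d := by
  obtain ⟨S, h0, hd, hS⟩ := h
  refine ⟨fun i => (S i).comap ι, ?_, ?_, ?_⟩
  · show (S 0).comap ι = ⊥
    rw [h0, MonoidHom.comap_bot, (MonoidHom.ker_eq_bot_iff ι).mpr hι]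
  · show (S d).comap ι = ⊤
    rw [hd, Subgroup.comap_top]
  · intro i hi
    obtain ⟨hle, hcen, τ, hτ, h1, h2⟩ := hS i hi
    have hnorm : (S i).Normal := ⟨fun s hs g => by
      have := (S i).mul_mem (hcen g s (hle hs)) hs
      simpa using this⟩
    let q : N →* N ⧸ S i := QuotientGroup.mk' (S i)
    have hq : ∀ x : N, q x = 1 ↔ x ∈ S i := fun x => QuotientGroup.eq_one_iff x
    let J : AddSubgroup ℤ :=
      { carrier := {k | ∃ x : N', q (ι x) = q τ ^ k}
        zero_mem' := ⟨1, by simp⟩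
        add_mem' := by
          rintro a b ⟨x, hx⟩ ⟨y, hy⟩
          exact ⟨x * y, by rw [map_mul, map_mul, hx, hy, zpow_add]⟩
        neg_mem' := by
          rintro a ⟨x, hx⟩
          exact ⟨x⁻¹, by rw [map_inv, map_inv, hx, zpow_neg]⟩ }
    obtain ⟨k₀, hk₀⟩ := Int.subgroup_cyclic J
    have hmem : ∀ k : ℤ, k ∈ J ↔ ∃ l : ℤ, l * k₀ = k := by
      intro k
      rw [hk₀, AddSubgroup.mem_closure_singleton]
      simp only [smul_eq_mul]
    obtain ⟨n, hn, -, hnm⟩ := Subgroup.exists_pow_mem_of_index_ne_zero hfi τ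
    obtain ⟨y, hy⟩ := hnm
    have hnJ : (n : ℤ) ∈ J := ⟨y, by rw [hy, map_pow, zpow_natCast]⟩
    have hk0 : k₀ ≠ 0 := by
      intro h
      obtain ⟨l, hl⟩ := (hmem _).mp hnJ
      rw [h, mul_zero] at hl
      have : (n : ℤ) ≠ 0 := by exact_mod_cast hn.ne'
      exact this hl.symm
    obtain ⟨τ', hτ'⟩ := (hmem k₀).mpr ⟨1, one_mul _⟩
    refine ⟨Subgroup.comap_mono hle, ?_, τ', ?_, ?_, ?_⟩
    · intro g s hs
      rw [Subgroup.mem_comap] at hs ⊢
      rw [map_mul, map_mul, map_mul, map_inv, map_inv]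
      exact hcen (ι g) (ι s) hs
    · rw [Subgroup.mem_comap]
      have h3 : (τ ^ k₀)⁻¹ * ι τ' ∈ S i := by
        rw [← hq, map_mul, map_inv, map_zpow, hτ', inv_mul_cancel]
      have h4 := (S (i + 1)).mul_mem ((S (i + 1)).zpow_mem hτ k₀) (hle h3)
      rwa [mul_inv_cancel_left] at h4
    · intro s hs
      rw [Subgroup.mem_comap] at hs
      obtain ⟨k, hk⟩ := h1 (ι s) hs
      rw [← hq, map_mul, map_zpow] at hk
      have hkJ : k ∈ J := ⟨s⁻¹, by
        rw [map_inv, map_inv]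
        exact inv_eq_of_mul_eq_one_right hk⟩
      obtain ⟨l, hl⟩ := (hmem k).mp hkJ
      refine ⟨l, ?_⟩
      rw [Subgroup.mem_comap, ← hq, map_mul, map_zpow, map_mul, map_zpow, hτ', ← zpow_mul,
        mul_comm k₀ l, hl]
      exact hk
    · intro l hl
      rw [Subgroup.mem_comap, map_zpow, ← hq, map_zpow, hτ', ← zpow_mul, ← map_zpow, hq] at hl
      have := h2 _ hl
      rcases mul_eq_zero.mp this with h | h
      · exact absurd h hk0
      · exact h

end Pool.Agent.H9Nil
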