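import Pool.Agent.H9Nil.GenThin
import Pool.Agent.H9Nil.Rank
import Pool.Agent.H9Nil.SeriesSub
import Pool.Agent.H36Top.Series
import Pool.Agent.H36Top.Large

set_option autoImplicit false

/-!
# Nilpotent subgroups of large Hirsch length and thin complexes
-/

namespace Pool.Agent.H9Nil

open Pool.Agent.AutDim3 Pool.Agent.H9DimN Pool.Agent.H36Top

/-- A torsion-free nilpotent subgroup of Hirsch length `k + 1` of a group with a thin complex in
dimension `k + 1` has a commutative subgroup of finite index if the group is a subgroup of finite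
index in an automatic group. -/
theorem comm_of_thin {G : Type} [Group G] {k : ℕ} (hG : IsAutomatic G) (G₁ : Subgroup G)
    (hi : G₁.index ≠ 0) (K : ThinComplex (k + 1) G₁) (N : Subgroup G) (h : HasSeries N (k + 1)) :
    ∃ A : Subgroup G, A ≤ N ∧ A.relIndex N ≠ 0 ∧ ∀ a ∈ A, ∀ b ∈ A, a * b = b * a := by
  have hfi : G₁.FiniteIndex := ⟨hi⟩
  have hAN : (N ⊓ G₁).relIndex N ≠ 0 := by
    rw [Subgroup.inf_relIndex_left]
    exact (inferInstance : (G₁.subgroupOf N).FiniteIndex).index_ne_zero
  refine ⟨N ⊓ G₁, inf_le_left, hAN, ?_⟩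
  set A := N ⊓ G₁ with hA
  have hAs : HasSeries A (k + 1) := by
    refine series_of_finiteIndex h (Subgroup.inclusion (inf_le_left : N ⊓ G₁ ≤ N))
      (Subgroup.inclusion_injective _) ?_
    rw [Subgroup.inclusion_range]
    exact hAN
  by_contra hcon
  push Not at hcon
  obtain ⟨a, ha, b, hb, hab⟩ := hcon
  have h1 : Group.IsNilpotent A := series_nilpotent hAs
  have h2 : Group.FG A := series_fg hAs
  have h3 := rank_lt hAs ⟨⟨a, ha⟩, ⟨b, hb⟩, fun h => hab (by simpa using congrArg Subtype.val h)⟩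
  obtain ⟨C⟩ := exists_comb G hG
  obtain ⟨z, ν, hz, cyc, hin, hc, hv⟩ := exists_top hAs
  have h4 := thin_zero C G₁.subtype G₁.subtype_injective
    (by rw [Subgroup.range_subtype]; exact hfi) K
    (Subgroup.inclusion (inf_le_right : N ⊓ G₁ ≤ G₁)) (Subgroup.inclusion_injective _) z hz cyc
    (nil_vanish C _ h3 z hz cyc) ν hin hc
  rw [hv] at h4
  exact one_ne_zero h4

end Pool.Agent.H9Nil
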