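import Pool.Agent.H9Nil.GenDim
import Pool.Agent.H9Nil.Rank
import Pool.Agent.H36Top.Series
import Pool.Agent.H36Top.Large

set_option autoImplicit false

/-!
# Nilpotent subgroups of maximal Hirsch length
-/

namespace Pool.Agent.H9Nil

open Pool.Agent.AutDim3 Pool.Agent.H9DimN Pool.Agent.H36Top

/-- A torsion-free nilpotent subgroup of Hirsch length `k + 1` of an automatic group of real dimension
at most `k + 1` is commutative. -/
theorem comm_of_dim {G : Type} [Group G] {k : ℕ} (hG : IsAutomatic G) (hd : DimLe (k + 1) G)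
    (N : Subgroup G) (h : HasSeries N (k + 1)) (a b : N) : a * b = b * a := by
  by_contra hcon
  have h1 : Group.IsNilpotent N := series_nilpotent h
  have h2 : Group.FG N := series_fg h
  have h3 := rank_lt h ⟨a, b, hcon⟩
  obtain ⟨C⟩ := exists_comb G hG
  obtain ⟨z, ν, hz, cyc, hi, hc, hv⟩ := exists_top h
  have h4 := dim_zero C hd N.subtype N.subtype_injective z hz
    (nil_vanish C N.subtype h3 z hz cyc) ν hi hc
  rw [hv] at h4
  exact one_ne_zero h4

end Pool.Agent.H9Nil
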