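import Pool.Agent.H9Nil.Cup

set_option autoImplicit false

/-!
# Cup products of lists of homomorphisms
-/

namespace Pool.Agent.H9Nil

open Pool.Agent.AutDim3 Pool.Agent.H9Thin

variable {N : Type} [Group N]

/-- Additive functions. -/
def Addi (N : Type) [Group N] : Set (N → ℝ) := {f | ∀ g h, f (g * h) = f g + f h}

/-- The cup product of a list of functions. -/
noncomputable def KF : List (N → ℝ) → (Ch N →ₗ[ℝ] ℝ)
  | [] => Finsupp.linearCombination ℝ (fun l => match l with
    | [_] => (1 : ℝ)
    | _ => 0)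
  | f :: L => cc f (KF L)

theorem KF_map {r : ℕ} (χ : Fin r → N → ℝ) (I : List (Fin r)) : KF (I.map χ) = KI χ I := by
  induction I with
  | nil => rfl
  | cons i I ih => rw [List.map_cons, KF, KI, ih]

theorem KF_inv (L : List (N → ℝ)) : InvUnder (MonoidHom.id N) (KF L) := by
  induction L with
  | nil =>
    intro g l
    match l with
    | [] => rfl
    | [x] => simp [KF, sg]
    | x :: y :: l => simp [KF, sg]
  | cons i I ih => exact cc_inv _ _ ih

theorem KF_nil (x : N) : KF (N := N) [] (sg [x]) = 1 := by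
  simp [KF, sg]

theorem KF_closed (L : List (N → ℝ)) (hL : ∀ f ∈ L, f ∈ Addi N) :
    Closed (L.length + 1) (KF L) := by
  induction L with
  | nil =>
    intro l hl
    match l, hl with
    | [x, y], _ =>
      rw [bd_cons, bd_cons, bd_nil, map_zero, sub_zero, map_sub, cone_sg, KF_nil, KF_nil, sub_self]
  | cons f L ih =>
    intro l hl
    match l, hl with
    | x :: y :: w :: l, hl =>
      rw [KF, cc_closed (hL f (by simp)),
        ih (fun f hf => hL f (List.mem_cons_of_mem _ hf)) (y :: w :: l) (by simpa using hl),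
        mul_zero, neg_zero]

theorem KF_swap_nil (a b : N → ℝ) (L : List (N → ℝ)) (ha : a ∈ Addi N) (hb : b ∈ Addi N)
    (hL : ∀ f ∈ L, f ∈ Addi N) : Cob (L.length + 2) (KF (a :: b :: L) + KF (b :: a :: L)) := by
  refine ⟨- cc (fun g => a g * b g) (KF L), ?_, ?_⟩
  · intro g l
    rw [LinearMap.neg_apply, LinearMap.neg_apply, cc_inv _ _ (KF_inv L) g l]
  · intro l hl
    match l, hl with
    | x :: y :: w :: l, hl =>
      rw [LinearMap.add_apply, KF, KF, KF, KF, cc_sg, cc_sg, cc_sg, cc_sg, LinearMap.neg_apply,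
        cc_bd, KF_closed L hL (y :: w :: l) (by simpa using hl)]
      have e1 : a (x⁻¹ * w) = a (x⁻¹ * y) + a (y⁻¹ * w) := by
        rw [← ha]; congr 1; group
      have e2 : b (x⁻¹ * w) = b (x⁻¹ * y) + b (y⁻¹ * w) := by
        rw [← hb]; congr 1; group
      simp only [e1, e2]
      ring

theorem KF_swap_app (a b : N → ℝ) (L J : List (N → ℝ)) (ha : a ∈ Addi N) (hb : b ∈ Addi N)
    (hL : ∀ f ∈ L, f ∈ Addi N) (hJ : ∀ f ∈ J, f ∈ Addi N) :
    Cob (J.length + L.length + 2) (KF (J ++ a :: b :: L) + KF (J ++ b :: a :: L)) := by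
  induction J with
  | nil => simpa using KF_swap_nil a b L ha hb hL
  | cons j J ih =>
    have h1 := Cob.cc (ih fun f hf => hJ f (List.mem_cons_of_mem _ hf)) (hJ j (by simp))
    obtain ⟨E, h2, h3⟩ := h1
    have hlen : (j :: J).length + L.length + 2 = J.length + L.length + 1 + 2 := by
      simp only [List.length_cons]; ring
    rw [hlen]
    refine ⟨E, h2, ?_⟩
    intro l hl
    rw [← h3 l hl]
    match l, hl with
    | x :: y :: l, hl =>
      rw [List.cons_append, List.cons_append, LinearMap.add_apply, KF, KF, cc_sg, cc_sg, cc_sg,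
        LinearMap.add_apply]
      ring

theorem KF_swap_val (a b : N → ℝ) (L J : List (N → ℝ)) (ha : a ∈ Addi N) (hb : b ∈ Addi N)
    (hL : ∀ f ∈ L, f ∈ Addi N) (hJ : ∀ f ∈ J, f ∈ Addi N)
    {z : Ch N} (hz : z ∈ Deg (G := N) (J.length + L.length + 2 + 1))
    (hcyc : ∀ E : Ch N →ₗ[ℝ] ℝ, InvUnder (MonoidHom.id N) E → E (bd z) = 0) :
    KF (J ++ a :: b :: L) z = - KF (J ++ b :: a :: L) z := by
  obtain ⟨E, h2, h3⟩ := KF_swap_app a b L J ha hb hL hJ
  have h4 := eq_of_sg (KF (J ++ a :: b :: L) + KF (J ++ b :: a :: L)) (E ∘ₗ bd)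
    (fun l hl => h3 l hl) hz
  rw [LinearMap.add_apply, LinearMap.comp_apply, hcyc E h2] at h4
  linarith

theorem KF_repeat (a : N → ℝ) (ha : a ∈ Addi N)
    (M : List (N → ℝ)) : ∀ (L J : List (N → ℝ)) {z : Ch N} {n : ℕ},
    (∀ f ∈ M, f ∈ Addi N) → (∀ f ∈ L, f ∈ Addi N) → (∀ f ∈ J, f ∈ Addi N) →
    (J ++ a :: (M ++ a :: L)).length = n → z ∈ Deg (G := N) (n + 1) →
    (∀ E : Ch N →ₗ[ℝ] ℝ, InvUnder (MonoidHom.id N) E → E (bd z) = 0) →
    KF (J ++ a :: (M ++ a :: L)) z = 0 := by
  induction M with
  | nil =>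
    intro L J z n _ hL hJ hn hz hcyc
    have e : n = J.length + L.length + 2 := by rw [← hn]; simp; ring
    rw [e] at hz
    have := KF_swap_val a a L J ha ha hL hJ hz hcyc
    rw [List.nil_append]
    linarith
  | cons m M ih =>
    intro L J z n hM hL hJ hn hz hcyc
    have hm : m ∈ Addi N := hM m (by simp)
    have hM' : ∀ f ∈ M, f ∈ Addi N := fun f hf => hM f (List.mem_cons_of_mem _ hf)
    have e : n = J.length + (M ++ a :: L).length + 2 := by rw [← hn]; simp; ring
    have hz' := hz
    rw [e] at hz'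
    have h1 := KF_swap_val a m (M ++ a :: L) J ha hm (by
      intro f hf
      rcases List.mem_append.mp hf with h | h
      · exact hM' f h
      · rcases List.mem_cons.mp h with rfl | h
        · exact ha
        · exact hL f h) hJ hz' hcyc
    rw [List.cons_append, h1]
    have h2 : J ++ m :: a :: (M ++ a :: L) = (J ++ [m]) ++ a :: (M ++ a :: L) := by simp
    rw [h2, ih L (J ++ [m]) (n := n) hM' hL (by
      intro f hf
      rcases List.mem_append.mp hf with h | h
      · exact hJ f h
      · rw [List.mem_singleton.mp h]; exact hm) (by rw [← hn]; simp) hz hcyc, neg_zero]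

/-- Multilinearity. -/
theorem KF_lin (J L : List (N → ℝ)) (f g : N → ℝ) (α β : ℝ) :
    KF (J ++ (fun x => α * f x + β * g x) :: L) =
      α • KF (J ++ f :: L) + β • KF (J ++ g :: L) := by
  induction J with
  | nil =>
    apply ext_sg
    intro l
    simp only [List.nil_append, LinearMap.add_apply, LinearMap.smul_apply, smul_eq_mul]
    match l with
    | [] => simp [KF, cc, ccL, sg]
    | [x] => simp [KF, cc, ccL, sg]
    | x :: y :: l => rw [KF, KF, KF, cc_sg, cc_sg, cc_sg]; ring
  | cons j J ih =>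
    apply ext_sg
    intro l
    simp only [List.cons_append, LinearMap.add_apply, LinearMap.smul_apply, smul_eq_mul]
    match l with
    | [] => simp [KF, cc, ccL, sg]
    | [x] => simp [KF, cc, ccL, sg]
    | x :: y :: l =>
      rw [KF, KF, KF, cc_sg, cc_sg, cc_sg, ih]
      simp only [LinearMap.add_apply, LinearMap.smul_apply, smul_eq_mul]
      ring

theorem KF_push (ψ : N →* N) (L : List (N → ℝ)) (y : Ch N) :
    KF L (push ψ y) = KF (L.map fun f => f ∘ ψ) y := by
  have key : KF L ∘ₗ push ψ = KF (L.map fun f => f ∘ ψ) := by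
    induction L with
    | nil =>
      apply ext_sg
      intro l
      rw [LinearMap.comp_apply, push_sg, List.map_nil]
      match l with
      | [] => rfl
      | [x] => simp [KF, sg]
      | x :: y :: l => simp [KF, sg]
    | cons f L ih =>
      apply ext_sg
      intro l
      match l with
      | [] => simp [KF, cc, ccL, sg, push]
      | [x] => simp [KF, cc, ccL, sg, push]
      | x :: y :: l =>
        rw [LinearMap.comp_apply, push_sg, List.map_cons, List.map_cons, KF, cc_sg,
          List.map_cons, KF, cc_sg, ← List.map_cons (f := ψ)]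
        have e1 := LinearMap.congr_fun ih (sg (y :: l))
        rw [LinearMap.comp_apply, push_sg] at e1
        rw [e1]
        have e2 : (ψ x)⁻¹ * ψ y = ψ (x⁻¹ * y) := by simp
        rw [e2]
        rfl
  exact LinearMap.congr_fun key y

/-- Cup products under a shear. -/
theorem KF_shear {r : ℕ} (χ : Fin r → N → ℝ) (hχ : ∀ i, χ i ∈ Addi N) (i₀ : Fin r)
    (α w : Fin r → ℝ) (M : Fin r → N → ℝ)
    (h₀ : M i₀ = fun x => w i₀ * χ i₀ x)
    (h₁ : ∀ i, i ≠ i₀ → M i = fun x => α i * χ i₀ x + w i * χ i x) (hM : ∀ i, M i ∈ Addi N)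
    (I : List (Fin r)) : ∀ (J : List (N → ℝ)) {z : Ch N} {n : ℕ},
    (∀ f ∈ J, f ∈ Addi N) → (χ i₀ ∈ J ∨ i₀ ∈ I) →
    (J ++ I.map χ).length = n → z ∈ Deg (G := N) (n + 1) →
    (∀ E : Ch N →ₗ[ℝ] ℝ, InvUnder (MonoidHom.id N) E → E (bd z) = 0) →
    KF (J ++ I.map M) z = (I.map w).prod * KF (J ++ I.map χ) z := by
  induction I with
  | nil => intro J z n _ _ _ _ _; simp
  | cons i I ih =>
    intro J z n hJ hmem hn hz hcyc
    have happ : ∀ f : N → ℝ, f ∈ Addi N → ∀ g ∈ J ++ [f], g ∈ Addi N := by
      intro f hf g hg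
      rcases List.mem_append.mp hg with h | h
      · exact hJ g h
      · rw [List.mem_singleton.mp h]; exact hf
    have hlen : ∀ f : N → ℝ, ((J ++ [f]) ++ I.map χ).length = n := by
      intro f
      rw [← hn]
      simp
    have hform : ∀ (f : N → ℝ) (T : List (N → ℝ)), J ++ f :: T = (J ++ [f]) ++ T := by
      intro f T; simp
    by_cases hi : i = i₀
    · subst hi
      have e0 : (fun x => w i * χ i x) = fun x => w i * χ i x + 0 * χ i x := by
        funext x; ring
      rw [List.map_cons, h₀, e0, KF_lin, LinearMap.add_apply, LinearMap.smul_apply,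
        LinearMap.smul_apply, zero_smul, add_zero, hform, List.map_cons, List.map_cons,
        List.prod_cons, hform (χ i) (I.map χ),
        ih (J ++ [χ i]) (happ _ (hχ i)) (Or.inl (by simp)) (hlen _) hz hcyc, smul_eq_mul]
      ring
    · have hmem' : χ i₀ ∈ J ∨ i₀ ∈ I := by
        rcases hmem with h | h
        · exact Or.inl h
        · rcases List.mem_cons.mp h with h | h
          · exact absurd h.symm hi
          · exact Or.inr h
      have hzero : KF ((J ++ [χ i₀]) ++ I.map χ) z = 0 := by
        rcases hmem' with h | h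
        · obtain ⟨J₁, J₂, rfl⟩ := List.append_of_mem h
          have e : (J₁ ++ χ i₀ :: J₂ ++ [χ i₀]) ++ I.map χ =
              J₁ ++ χ i₀ :: (J₂ ++ χ i₀ :: I.map χ) := by simp
          rw [e]
          refine KF_repeat (χ i₀) (hχ i₀) J₂ (I.map χ) J₁ (n := n) ?_ ?_ ?_ ?_ hz hcyc
          · intro f hf; exact hJ f (by simp [hf])
          · intro f hf
            obtain ⟨j, _, rfl⟩ := List.mem_map.mp hf
            exact hχ j
          · intro f hf; exact hJ f (by simp [hf])
          · rw [← e]; exact hlen _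
        · obtain ⟨I₁, I₂, rfl⟩ := List.append_of_mem h
          have e : (J ++ [χ i₀]) ++ (I₁ ++ i₀ :: I₂).map χ =
              J ++ χ i₀ :: (I₁.map χ ++ χ i₀ :: I₂.map χ) := by simp
          rw [e]
          refine KF_repeat (χ i₀) (hχ i₀) (I₁.map χ) (I₂.map χ) J (n := n) ?_ ?_ hJ ?_ hz hcyc
          · intro f hf
            obtain ⟨j, _, rfl⟩ := List.mem_map.mp hf
            exact hχ j
          · intro f hf
            obtain ⟨j, _, rfl⟩ := List.mem_map.mp hf
            exact hχ j
          · rw [← e]; exact hlen _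
      rw [List.map_cons, h₁ i hi, KF_lin, LinearMap.add_apply, LinearMap.smul_apply,
        LinearMap.smul_apply, hform, hform (χ i) (I.map M), List.map_cons, List.map_cons,
        List.prod_cons, hform (χ i) (I.map χ),
        ih (J ++ [χ i₀]) (happ _ (hχ i₀)) (Or.inl (by simp)) (hlen _) hz hcyc, hzero,
        ih (J ++ [χ i]) (happ _ (hχ i)) (by
          rcases hmem' with h | h
          · exact Or.inl (by simp [h])
          · exact Or.inr h) (hlen _) hz hcyc, mul_zero, smul_zero, zero_add, smul_eq_mul]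
      ring

end Pool.Agent.H9Nil
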