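import Pool.Agent.H9Nil.Scale
import Pool.Agent.H9Nil.KF

set_option autoImplicit false

/-!
# Lattices with a bounded class are undistorted
-/

namespace Pool.Agent.H9Nil

open Pool.Agent.AutDim3 Pool.Agent.H9Thin Pool.Agent.H9DimN

/-- The shear which sends the basis vector `i₀` to `x` and stretches the others by `t`. -/
def shear {n : ℕ} (i₀ : Fin n) (x : Zn n) (t : ℕ) : Zn n →* Zn n where
  toFun v := Multiplicative.ofAdd fun i => Multiplicative.toAdd x i * Multiplicative.toAdd v i₀ +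
    if i = i₀ then 0 else (t : ℤ) * Multiplicative.toAdd v i
  map_one' := by
    apply Multiplicative.toAdd.injective
    funext i
    simp
  map_mul' v w := by
    apply Multiplicative.toAdd.injective
    funext i
    simp only [toAdd_ofAdd, toAdd_mul, Pi.add_apply]
    split_ifs <;> ring

theorem co'_shear {n : ℕ} (i₀ : Fin n) (x : Zn n) (t : ℕ) (i : Fin n) (v : Zn n) :
    co' i (shear i₀ x t v) = co' i x * co' i₀ v + if i = i₀ then 0 else (t : ℝ) * co' i v := by
  simp only [co', shear, MonoidHom.coe_mk, OneHom.coe_mk, toAdd_ofAdd]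
  split_ifs <;> push_cast <;> rfl

theorem shear_eb {n : ℕ} (i₀ : Fin n) (x : Zn n) (t : ℕ) : shear i₀ x t (eb i₀) = x := by
  apply Multiplicative.toAdd.injective
  funext j
  simp only [shear, MonoidHom.coe_mk, OneHom.coe_mk, toAdd_ofAdd, eb, Pi.single_apply]
  by_cases hj : j = i₀ <;> simp [hj]

theorem shear_eb_ne {n : ℕ} (i₀ : Fin n) (x : Zn n) (t : ℕ) {i : Fin n} (hi : i ≠ i₀) :
    shear i₀ x t (eb i) = eb i ^ t := by
  apply Multiplicative.toAdd.injective
  funext j
  simp only [shear, MonoidHom.coe_mk, OneHom.coe_mk, toAdd_ofAdd, eb, toAdd_pow, Pi.smul_apply,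
    Pi.single_apply, smul_eq_mul]
  by_cases hj : j = i₀
  · subst hj
    simp [hi, Ne.symm hi]
  · by_cases hji : j = i
    · subst hji
      simp [hj, Ne.symm hj]
    · simp [hj, hji, Ne.symm hi]

/-- Growth of the shears. -/
theorem shear_growth {G : Type} [Group G] (C : Comb G) {n : ℕ} (φ : Zn n →* G) (i₀ : Fin n)
    (v : Zn n) : ∃ D : ℕ, ∀ (x : Zn n) (t : ℕ), 1 ≤ t → C.len (φ x) ≤ t →
      C.len (φ (shear i₀ x t v)) ≤ D * t := by
  let P : Zn n → Prop := fun v => ∃ D : ℕ, ∀ (x : Zn n) (t : ℕ), 1 ≤ t → C.len (φ x) ≤ t →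
      C.len (φ (shear i₀ x t v)) ≤ D * t
  have hone : P 1 := ⟨0, fun x t _ _ => by rw [map_one, map_one, C.len_one]; exact Nat.zero_le _⟩
  have hmul : ∀ a b, P a → P b → P (a * b) := by
    rintro a b ⟨A, hA⟩ ⟨B, hB⟩
    refine ⟨A + B, fun x t ht hx => ?_⟩
    rw [map_mul, map_mul, Nat.add_mul]
    exact (C.len_mul _ _).trans (add_le_add (hA x t ht hx) (hB x t ht hx))
  have hinv : ∀ a, P a → P a⁻¹ := by
    rintro a ⟨A, hA⟩
    refine ⟨A, fun x t ht hx => ?_⟩
    rw [map_inv, map_inv, C.len_inv]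
    exact hA x t ht hx
  have hpow : ∀ a, P a → ∀ m : ℕ, P (a ^ m) := by
    intro a ha m
    induction m with
    | zero => rw [pow_zero]; exact hone
    | succ m ih => rw [pow_succ]; exact hmul _ _ ih ha
  have hzpow : ∀ a, P a → ∀ m : ℤ, P (a ^ m) := by
    intro a ha m
    obtain ⟨k, rfl | rfl⟩ := m.eq_nat_or_neg
    · rw [zpow_natCast]; exact hpow a ha k
    · rw [zpow_neg, zpow_natCast]; exact hinv _ (hpow a ha k)
  have hlen : ∀ (g : G) (m : ℕ), C.len (g ^ m) ≤ C.len g * m := by
    intro g m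
    induction m with
    | zero => rw [pow_zero, C.len_one]; exact Nat.zero_le _
    | succ m ih =>
      rw [pow_succ]
      refine (C.len_mul _ _).trans ?_
      rw [Nat.mul_succ]
      omega
  have hgen : ∀ i : Fin n, P (eb i) := by
    intro i
    by_cases hi : i = i₀
    · subst hi
      refine ⟨1, fun x t _ hx => ?_⟩
      rw [shear_eb, one_mul]
      exact hx
    · refine ⟨C.len (φ (eb i)), fun x t _ _ => ?_⟩
      rw [shear_eb_ne _ _ _ hi, map_pow]
      exact hlen _ _
  show P v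
  rw [zn_expand v]
  exact Finset.prod_induction _ P hmul hone fun i _ => hzpow _ (hgen i) _

/-- A lattice on which some bounded class does not vanish is undistorted. -/
theorem undistorted {G : Type} [Group G] (C : Comb G) {k : ℕ} (φ : Zn (k + 1) →* G)
    (z : Ch (Zn (k + 1))) (hz : z ∈ Deg (G := Zn (k + 1)) (k + 2)) (cyc : IsCyc z)
    (hnv : ¬ Vanishes k C φ z) (i₀ : Fin (k + 1)) :
    ∃ c : ℝ, ∀ x : Zn (k + 1), |co' i₀ x| ≤ c * (1 + C.len (φ x)) := by
  classical
  have hnv' : ∃ F : Ch G →ₗ[ℝ] ℝ, InvUnder φ F ∧ Closed (k + 2) F ∧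
      (∀ R : ℕ, ∃ M : ℝ, ∀ l : List G, l.length = k + 2 → C.Small R l → |F (sg l)| ≤ M) ∧
      F (push φ z) ≠ 0 := by
    by_contra hcon
    push Not at hcon
    exact hnv fun F h1 h2 h3 => hcon F h1 h2 h3
  obtain ⟨F, hi, hc, hb, hne⟩ := hnv'
  have hfg : Group.FG (Zn (k + 1)) := inferInstance
  have hnil : Group.IsNilpotent (Zn (k + 1)) := inferInstance
  obtain ⟨F₃, B, hB, hF₃i, hF₃c, hF₃z, hgrow⟩ := exists_growth C φ F hi hc hb
  obtain ⟨a, ha⟩ := span_gen C φ (fun i => eb i) co' (fun W _ _ D h g => zn_basis W D h g) F₃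
    hF₃i hF₃c B hB hgrow
  rw [← hF₃z z cyc] at hne
  have hcycψ : ∀ x t, IsCyc (push (shear i₀ x t) z) := by
    intro x t E hE
    rw [← push_bd]
    refine cyc (E ∘ₗ push (shear i₀ x t)) ?_
    intro n l
    simp only [LinearMap.comp_apply, push_sg, MonoidHom.id_apply, List.map_map]
    have := hE (shear i₀ x t n) (l.map (shear i₀ x t))
    rw [List.map_map] at this
    rw [← this]
    congr 2
    apply List.map_congr_left
    intro x _
    simp
  have hdeg : ∀ x t, push (shear i₀ x t) z ∈ Deg (G := Zn (k + 1)) (k + 2) := fun x t =>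
    push_mem_deg _ hz
  have hadd : ∀ i : Fin (k + 1), co' i ∈ Addi (Zn (k + 1)) := fun i => co'_mul i
  -- scaling
  have hscale : ∀ x t, F₃ (push (shear i₀ x t) z) = co' i₀ x * (t : ℝ) ^ k * F₃ z := by
    intro x t
    rw [ha ⟨_, hdeg x t, hcycψ x t⟩, ha ⟨z, hz, cyc⟩, Finset.mul_sum]
    refine Finset.sum_congr rfl fun s _ => ?_
    have hrep : ¬ Function.Injective s → ∀ y : Ch (Zn (k + 1)),
        y ∈ Deg (G := Zn (k + 1)) (k + 2) → IsCyc y → KI co' (List.ofFn s) y = 0 := by
      intro hs y hy hcy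
      have hnd : ¬ (List.ofFn s).Nodup := fun h => hs (List.nodup_ofFn.mp h)
      obtain ⟨b, J, M, I, hI⟩ := exists_repeat _ hnd
      rw [hI]
      refine repeat_val co'_mul b M I J (n := k + 1) ?_ hy hcy
      rw [← hI, List.length_ofFn]
    by_cases hs : Function.Injective s
    · have hbij : Function.Bijective s := Finite.injective_iff_bijective.mp hs
      have e1 : KI co' (List.ofFn s) (push (shear i₀ x t) z) =
          KF ((List.ofFn s).map fun i => co' i ∘ shear i₀ x t) z := by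
        rw [← KF_map, KF_push, List.map_map]
        rfl
      have e2 := KF_shear (N := Zn (k + 1)) co' hadd i₀ (fun i => co' i x)
        (fun i => if i = i₀ then co' i₀ x else (t : ℝ)) (fun i => co' i ∘ shear i₀ x t)
        (by
          funext v
          rw [Function.comp_apply, co'_shear, if_pos rfl, add_zero, if_pos rfl])
        (by
          intro i hi
          funext v
          rw [Function.comp_apply, co'_shear, if_neg hi, if_neg hi])
        (by
          intro i g h
          simp only [Function.comp_apply, map_mul]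
          exact co'_mul i _ _)
        (List.ofFn s) [] (z := z) (n := k + 1) (by simp)
        (Or.inr (by
          rw [List.mem_ofFn]
          exact hbij.2 i₀)) (by simp) hz cyc
      rw [List.nil_append, List.nil_append] at e2
      have hp : ((List.ofFn s).map fun i => if i = i₀ then co' i₀ x else (t : ℝ)).prod =
          co' i₀ x * (t : ℝ) ^ k := by
        rw [List.map_ofFn, List.prod_ofFn]
        simp only [Function.comp_apply]
        rw [Function.Bijective.prod_comp hbij (fun i => if i = i₀ then co' i₀ x else (t : ℝ)),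
          ← Finset.mul_prod_erase Finset.univ _ (Finset.mem_univ i₀), if_pos rfl]
        congr 1
        rw [Finset.prod_congr rfl (fun i hi => if_neg (Finset.ne_of_mem_erase hi)),
          Finset.prod_const, Finset.card_erase_of_mem (Finset.mem_univ _), Finset.card_univ,
          Fintype.card_fin, Nat.add_sub_cancel]
      rw [e1, e2, hp, KF_map]
      ring
    · rw [hrep hs _ (hdeg x t) (hcycψ x t), hrep hs z hz cyc]
      ring
  -- diameter
  choose Df hDf using shear_growth C φ i₀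
  set V : Finset (Zn (k + 1)) := z.support.biUnion (fun l => l.toFinset) with hV
  set D : ℕ := (V ×ˢ V).sup fun pq => Df (pq.1⁻¹ * pq.2) with hD
  have hbound : ∀ x t, 1 ≤ t → C.len (φ x) ≤ t →
      |F₃ (push (shear i₀ x t) z)| ≤ B * (1 + (D * t : ℕ)) ^ (k + 1) * nrm z := by
    intro x t ht hx
    have hsupp : push (shear i₀ x t) z ∈ Finsupp.supported ℝ ℝ {l : List (Zn (k + 1)) |
        l.length = k + 1 + 1 ∧ ∀ p ∈ l, ∀ q ∈ l, C.len (φ (p⁻¹ * q)) ≤ D * t} := by
      have hz' : z ∈ Finsupp.supported ℝ ℝ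
          {l : List (Zn (k + 1)) | l.length = k + 2 ∧ l ∈ z.support} := by
        have h := hz
        unfold Deg at h
        rw [Finsupp.mem_supported] at h ⊢
        exact fun l hl => ⟨h hl, hl⟩
      refine map_mem_of_sg (push (shear i₀ x t)) ?_ hz'
      rintro l ⟨hl1, hl2⟩
      rw [push_sg]
      refine sg_mem_supported ⟨by simpa using hl1, ?_⟩
      intro p hp q hq
      rw [List.mem_map] at hp hq
      obtain ⟨p', hp', rfl⟩ := hp
      obtain ⟨q', hq', rfl⟩ := hq
      rw [← map_inv (shear i₀ x t), ← map_mul (shear i₀ x t)]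
      refine (hDf _ x t ht hx).trans (Nat.mul_le_mul_right _ ?_)
      have hmem : ∀ r ∈ l, r ∈ V := by
        intro r hr
        rw [hV, Finset.mem_biUnion]
        exact ⟨l, hl2, List.mem_toFinset.mpr hr⟩
      have : (p', q') ∈ V ×ˢ V := by
        rw [Finset.mem_product]
        exact ⟨hmem p' hp', hmem q' hq'⟩
      exact Finset.le_sup (f := fun pq : Zn (k + 1) × Zn (k + 1) => Df (pq.1⁻¹ * pq.2)) this
    rw [Finsupp.mem_supported] at hsupp
    have e1 := abs_le_nrm F₃ (push (shear i₀ x t) z) (c := B * (1 + (D * t : ℕ)) ^ (k + 1)) (by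
      intro l hl
      obtain ⟨g1, g2⟩ := hsupp hl
      exact hgrow _ l g1 g2)
    exact e1.trans (mul_le_mul_of_nonneg_left (nrm_push_le _ _) (by positivity))
  -- conclusion
  have hpos : 0 < |F₃ z| := abs_pos.mpr hne
  have hn0 := nrm_nonneg z
  refine ⟨B * (1 + D) ^ (k + 1) * nrm z / |F₃ z|, fun x => ?_⟩
  set t : ℕ := 1 + C.len (φ x) with ht
  have ht0 : 1 ≤ t := by omega
  have ht1 : (1 : ℝ) ≤ t := by exact_mod_cast ht0
  have h1 := hbound x t ht0 (by omega)
  rw [hscale, abs_mul, abs_mul, abs_of_nonneg (by positivity : (0 : ℝ) ≤ (t : ℝ) ^ k)] at h1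
  have h2 : (1 + ((D * t : ℕ) : ℝ)) ≤ (1 + D) * t := by
    push_cast
    have : (0 : ℝ) ≤ D := Nat.cast_nonneg _
    have e : (1 + (D : ℝ)) * t = t + D * t := by ring
    rw [e]; linarith
  have h3 : (1 + ((D * t : ℕ) : ℝ)) ^ (k + 1) ≤ ((1 + D) * t) ^ (k + 1) :=
    pow_le_pow_left₀ (by positivity) h2 (k + 1)
  have h5 : 0 < (t : ℝ) ^ k := by positivity
  have h4 : (t : ℝ) ^ k * (|co' i₀ x| * |F₃ z|) ≤
      (t : ℝ) ^ k * (B * (1 + D) ^ (k + 1) * nrm z * t) := by
    calc (t : ℝ) ^ k * (|co' i₀ x| * |F₃ z|) = |co' i₀ x| * (t : ℝ) ^ k * |F₃ z| := by ring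
      _ ≤ B * (1 + ((D * t : ℕ) : ℝ)) ^ (k + 1) * nrm z := h1
      _ ≤ B * ((1 + D) * t) ^ (k + 1) * nrm z :=
          mul_le_mul_of_nonneg_right (mul_le_mul_of_nonneg_left h3 hB) hn0
      _ = (t : ℝ) ^ k * (B * (1 + D) ^ (k + 1) * nrm z * t) := by rw [mul_pow]; ring
  have h6 := le_of_mul_le_mul_left h4 h5
  have h7 : (t : ℝ) = 1 + C.len (φ x) := by rw [ht]; push_cast; ring
  rw [← h7, div_mul_eq_mul_div, le_div_iff₀ hpos]
  exact h6

end Pool.Agent.H9Nil
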