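import Pool.Agent.H9Nil.Inter
import Pool.Agent.H9Nil.Undist
import Pool.Agent.H9Nil.HirschDim
import Pool.Agent.H9Nil.HirschThin

set_option autoImplicit false

/-!
# Undistorted lattices and intersections with commutator subgroups
-/

namespace Pool.Agent.H9Nil

open Pool.Agent.AutDim3 Pool.Agent.H9DimN Pool.Agent.H36Top

/-- Products of lists over a finite set have linear length. -/
theorem len_prod_le {G : Type} [Group G] (C : Comb G) {S : Set G} (hS : S.Finite) :
    ∃ M : ℕ, ∀ l : List G, (∀ s ∈ l, s ∈ S) → C.len l.prod ≤ M * l.length := by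
  obtain ⟨M, hM⟩ := (hS.image C.len).bddAbove
  refine ⟨M, fun l => ?_⟩
  induction l with
  | nil => intro _; rw [List.prod_nil, C.len_one]; exact Nat.zero_le _
  | cons a l ih =>
    intro h
    rw [List.prod_cons, List.length_cons]
    have h1 : C.len a ≤ M := hM ⟨a, h a (by simp), rfl⟩
    have h2 := ih fun s hs => h s (List.mem_cons_of_mem _ hs)
    refine (C.len_mul _ _).trans ?_
    rw [Nat.mul_succ]
    omega

/-- From a bound for the length of the combed group to word lengths. -/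
theorem word_bound {G : Type} [Group G] (C : Comb G) {n : ℕ} (φ : Zn n →* G)
    (h : ∀ i : Fin n, ∃ c : ℝ, ∀ x : Zn n, |co' i x| ≤ c * (1 + C.len (φ x)))
    (S : Set G) (hS : S.Finite) : ∃ c : ℝ, ∀ (x : Zn n) (l : List G), (∀ s ∈ l, s ∈ S) →
      l.prod = φ x → ∀ i : Fin n, |((Multiplicative.toAdd x i : ℤ) : ℝ)| ≤ c * (1 + l.length) := by
  choose c hc using h
  obtain ⟨M, hM⟩ := len_prod_le C hS
  refine ⟨(∑ i, |c i|) * (1 + M), fun x l hl hp i => ?_⟩
  have h1 := hc i x
  have h2 : |c i| ≤ ∑ i, |c i| :=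
    Finset.single_le_sum (f := fun i => |c i|) (fun i _ => abs_nonneg _) (Finset.mem_univ i)
  have h3 : (C.len (φ x) : ℝ) ≤ M * l.length := by
    rw [← hp]
    exact_mod_cast hM l hl
  have h4 : (0 : ℝ) ≤ l.length := Nat.cast_nonneg _
  have h5 : (0 : ℝ) ≤ M := Nat.cast_nonneg _
  have h6 : 1 + (C.len (φ x) : ℝ) ≤ (1 + M) * (1 + l.length) := by
    have : (1 + (M : ℝ)) * (1 + l.length) = 1 + M * l.length + (l.length + M) := by ring
    rw [this]; linarith
  calc |((Multiplicative.toAdd x i : ℤ) : ℝ)| ≤ c i * (1 + C.len (φ x)) := h1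
    _ ≤ |c i| * (1 + C.len (φ x)) :=
        mul_le_mul_of_nonneg_right (le_abs_self _) (by positivity)
    _ ≤ (∑ i, |c i|) * ((1 + M) * (1 + l.length)) :=
        mul_le_mul h2 h6 (by positivity) ((abs_nonneg _).trans h2)
    _ = _ := by ring

/-- A group with a central series with infinite cyclic factors is torsion-free. -/
theorem series_torsionfree {N : Type} [Group N] {d : ℕ} (h : HasSeries N d) (z : N) (m : ℕ)
    (hm : m ≠ 0) (hz : z ^ m = 1) : z = 1 := by
  obtain ⟨S, h0, hd, hS⟩ := h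
  have key : ∀ i ≤ d, z ∈ S (d - i) := by
    intro i
    induction i with
    | zero => intro _; rw [Nat.sub_zero, hd]; trivial
    | succ i ih =>
      intro hi
      have h1 := ih (by omega)
      have e : d - i = (d - (i + 1)) + 1 := by omega
      rw [e] at h1
      set j := d - (i + 1) with hj
      obtain ⟨hle, hcen, τ, hτ, h2, h3⟩ := hS j (by omega)
      have hnorm : (S j).Normal := ⟨fun s hs g => by
        have := (S j).mul_mem (hcen g s (hle hs)) hs
        simpa using this⟩
      let q : N →* N ⧸ S j := QuotientGroup.mk' (S j)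
      have hq : ∀ x : N, q x = 1 ↔ x ∈ S j := fun x => QuotientGroup.eq_one_iff x
      obtain ⟨k, hk⟩ := h2 z h1
      rw [← hq, map_mul, map_zpow] at hk
      have hqz : q z = q τ ^ (-k) := by
        rw [zpow_neg]
        exact eq_inv_of_mul_eq_one_left hk
      have h4 : q τ ^ (-k * m) = 1 := by
        rw [zpow_mul, ← hqz, zpow_natCast, ← map_pow, hz, map_one]
      rw [← map_zpow, hq] at h4
      have h5 := h3 _ h4
      have h6 : k = 0 := by
        rcases mul_eq_zero.mp h5 with h | h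
        · omega
        · exact absurd (by exact_mod_cast h) hm
      rw [h6, neg_zero, zpow_zero, hq] at hqz
      exact hqz
  have := key d le_rfl
  rw [Nat.sub_self, h0, Subgroup.mem_bot] at this
  exact this

/-! ### bounded dimension -/

theorem undist_dim {G : Type} [Group G] {k : ℕ} (hG : IsAutomatic G) (hd : DimLe (k + 1) G)
    (θ : Zn (k + 1) →* G) (hθ : Function.Injective θ) (S : Set G) (hS : S.Finite) :
    ∃ c : ℝ, ∀ (x : Zn (k + 1)) (l : List G), (∀ s ∈ l, s ∈ S) →
      l.prod = θ x → ∀ i, |((Multiplicative.toAdd x i : ℤ) : ℝ)| ≤ c * (1 + l.length) := by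
  obtain ⟨C⟩ := exists_comb G hG
  obtain ⟨y, ν, hy, cyc, hi, hcl, hv⟩ := exists_top (hasSeries_lattice (k + 1))
  refine word_bound C θ (fun i => undistorted C θ y hy cyc (fun hvan => ?_) i) S hS
  have h4 := dim_zero C hd θ hθ y hy hvan ν hi hcl
  rw [hv] at h4
  exact one_ne_zero h4

theorem inter_dim {G : Type} [Group G] {k : ℕ} (hG : IsAutomatic G) (hd : DimLe (k + 1) G)
    (K H : Subgroup G) (hK : HasSeries K (k + 1)) (hH : Group.IsNilpotent H) (z : G) (hzK : z ∈ K)
    (hzH : z ∈ ⁅H, H⁆) : z = 1 := by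
  by_contra hz
  obtain ⟨C⟩ := exists_comb G hG
  obtain ⟨θ, y, ν, hθ, hy, cyc, hvan, hi, hcl, hv⟩ := exists_dead C hK (comm_of_dim hG hd K hK)
    K.subtype ⟨z, hzK⟩ (fun h => hz (congrArg Subtype.val h)) H hH hzH
  have h4 := dim_zero C hd (K.subtype.comp θ) (by
    rw [MonoidHom.coe_comp]
    exact K.subtype_injective.comp hθ) y hy hvan ν hi hcl
  rw [hv] at h4
  exact one_ne_zero h4

/-! ### thin complexes -/

theorem undist_thin {G : Type} [Group G] {k : ℕ} (hG : IsAutomatic G) (G₁ : Subgroup G)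
    (hi : G₁.index ≠ 0) (K : ThinComplex (k + 1) G₁)
    (θ : Zn (k + 1) →* G) (hθ : Function.Injective θ) (S : Set G) (hS : S.Finite) :
    ∃ c : ℝ, ∀ (x : Zn (k + 1)) (l : List G), (∀ s ∈ l, s ∈ S) →
      l.prod = θ x → ∀ i, |((Multiplicative.toAdd x i : ℤ) : ℝ)| ≤ c * (1 + l.length) := by
  obtain ⟨C⟩ := exists_comb G hG
  have hfi : G₁.FiniteIndex := ⟨hi⟩
  set M := G₁.normalCore with hM
  have hMi : M.index ≠ 0 := (Subgroup.finiteIndex_normalCore (H := G₁)).index_ne_zero
  set d := M.index with hd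
  let φ₁ : Zn (k + 1) →* G₁ := (θ.comp (powMonoidHom d)).codRestrict G₁ (fun x => by
    apply G₁.normalCore_le
    rw [MonoidHom.comp_apply, powMonoidHom_apply, map_pow]
    exact Subgroup.pow_index_mem M _)
  have hφ₁ : ∀ x, ((φ₁ x : G₁) : G) = θ x ^ d := fun x => by
    simp [φ₁]
  have hinj : Function.Injective φ₁ := by
    intro x y hxy
    have h1 : θ (x ^ d) = θ (y ^ d) := by
      rw [map_pow, map_pow, ← hφ₁, ← hφ₁, hxy]
    have h2 := congrArg Multiplicative.toAdd (hθ h1)
    rw [toAdd_pow, toAdd_pow] at h2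
    apply Multiplicative.toAdd.injective
    funext i
    have h3 := congrFun h2 i
    rw [Pi.smul_apply, Pi.smul_apply, nsmul_eq_mul, nsmul_eq_mul] at h3
    exact mul_left_cancel₀ (by exact_mod_cast hMi) h3
  obtain ⟨y, ν, hy, cyc, hin, hcl, hv⟩ := exists_top (hasSeries_lattice (k + 1))
  have hbd : ∀ i : Fin (k + 1), ∃ c : ℝ, ∀ x : Zn (k + 1),
      |co' i x| ≤ c * (1 + C.len (θ x)) := by
    intro i
    obtain ⟨c, hc⟩ := undistorted C (G₁.subtype.comp φ₁) y hy cyc (fun hvan => by
      have h4 := thin_zero C G₁.subtype G₁.subtype_injective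
        (by rw [Subgroup.range_subtype]; exact hfi) K φ₁ hinj y hy cyc hvan ν hin hcl
      rw [hv] at h4
      exact one_ne_zero h4) i
    refine ⟨|c| * (1 + d), fun x => ?_⟩
    have h1 := hc x
    have h2 : C.len ((G₁.subtype.comp φ₁) x) ≤ d * C.len (θ x) := by
      rw [MonoidHom.comp_apply, Subgroup.coe_subtype, hφ₁]
      have : ∀ (g : G) (m : ℕ), C.len (g ^ m) ≤ m * C.len g := by
        intro g m
        induction m with
        | zero => rw [pow_zero, C.len_one]; exact Nat.zero_le _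
        | succ m ih =>
          rw [pow_succ, Nat.succ_mul]
          exact (C.len_mul _ _).trans (by omega)
      exact this _ _
    have h3 : (C.len ((G₁.subtype.comp φ₁) x) : ℝ) ≤ d * C.len (θ x) := by exact_mod_cast h2
    have h5 : (0 : ℝ) ≤ d := Nat.cast_nonneg _
    have h6 : (0 : ℝ) ≤ C.len (θ x) := Nat.cast_nonneg _
    calc |co' i x| ≤ c * (1 + C.len ((G₁.subtype.comp φ₁) x)) := h1
      _ ≤ |c| * (1 + C.len ((G₁.subtype.comp φ₁) x)) :=
          mul_le_mul_of_nonneg_right (le_abs_self _) (by positivity)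
      _ ≤ |c| * ((1 + d) * (1 + C.len (θ x))) := by
          refine mul_le_mul_of_nonneg_left ?_ (abs_nonneg _)
          have : (1 + (d : ℝ)) * (1 + C.len (θ x)) = 1 + d * C.len (θ x) + (C.len (θ x) + d) := by
            ring
          rw [this]; linarith
      _ = _ := by ring
  exact word_bound C θ hbd S hS

theorem inter_thin {G : Type} [Group G] {k : ℕ} (hG : IsAutomatic G) (G₁ : Subgroup G)
    (hi : G₁.index ≠ 0) (T : ThinComplex (k + 1) G₁)
    (K H : Subgroup G) (hK : HasSeries K (k + 1)) (hH : Group.IsNilpotent H) (z : G) (hzK : z ∈ K)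
    (hzH : z ∈ ⁅H, H⁆) : z = 1 := by
  by_contra hz
  obtain ⟨C⟩ := exists_comb G hG
  have hfi : G₁.FiniteIndex := ⟨hi⟩
  -- pass to a commutative subgroup of finite index inside `G₁`
  obtain ⟨A, hAK, hAi, hAc⟩ := comm_of_thin hG G₁ hi T K hK
  have hBi : (A ⊓ G₁).relIndex K ≠ 0 := by
    have h1 : G₁.relIndex K ≠ 0 := (inferInstance : (G₁.subgroupOf K).FiniteIndex).index_ne_zero
    exact Subgroup.relIndex_inf_ne_zero hAi h1
  set B := A ⊓ G₁ with hB
  have hBK : B ≤ K := inf_le_left.trans hAK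
  have hBs : HasSeries B (k + 1) := by
    refine series_of_finiteIndex hK (Subgroup.inclusion hBK) (Subgroup.inclusion_injective _) ?_
    rw [Subgroup.inclusion_range]
    exact hBi
  obtain ⟨m, hm, -, hmB⟩ := Subgroup.exists_pow_mem_of_index_ne_zero hBi (⟨z, hzK⟩ : K)
  have hmB' : z ^ m ∈ B := hmB
  have hzm : z ^ m ≠ 1 := by
    intro h
    have h1 : (⟨z, hzK⟩ : K) ^ m = 1 := Subtype.ext (by simpa using h)
    exact hz (congrArg Subtype.val (series_torsionfree hK _ m hm.ne' h1))
  obtain ⟨θ, y, ν, hθ, hy, cyc, hvan, hin, hcl, hv⟩ := exists_dead C hBs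
    (fun a b => Subtype.ext (hAc a.1 a.2.1 b.1 b.2.1))
    B.subtype ⟨z ^ m, hmB'⟩ (fun h => hzm (congrArg Subtype.val h)) H hH
    (Subgroup.pow_mem _ hzH m)
  have h4 := thin_zero C G₁.subtype G₁.subtype_injective
    (by rw [Subgroup.range_subtype]; exact hfi) T
    ((Subgroup.inclusion (inf_le_right : A ⊓ G₁ ≤ G₁)).comp θ) (by
      rw [MonoidHom.coe_comp]
      exact (Subgroup.inclusion_injective _).comp hθ) y hy cyc hvan ν hin hcl
  rw [hv] at h4
  exact one_ne_zero h4

end Pool.Agent.H9Nil
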