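import Pool.Agent.AutDim3.Chain
import Pool.Agent.H9DimN.Dim

set_option autoImplicit false

/-!
# Functionals vanishing on invariant cycles are invariant coboundaries (helper4)
-/

namespace Pool.Agent.H9Nil

open Pool.Agent.AutDim3

variable {N : Type} [Group N]

/-- The span of the differences `g l - l`. -/
noncomputable def CoInv (N : Type) [Group N] : Submodule ℝ (Ch N) :=
  Submodule.span ℝ {v | ∃ (g : N) (l : List N), v = sg (l.map (g * ·)) - sg l}

theorem inv_of_kills {E : Ch N →ₗ[ℝ] ℝ} (h : ∀ v ∈ CoInv N, E v = 0) :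
    InvUnder (MonoidHom.id N) E := by
  intro g l
  have := h _ (Submodule.subset_span ⟨g, l, rfl⟩)
  rw [map_sub, sub_eq_zero] at this
  exact this

theorem kills_of_inv {E : Ch N →ₗ[ℝ] ℝ} (h : InvUnder (MonoidHom.id N) E) :
    ∀ v ∈ CoInv N, E v = 0 := by
  intro v hv
  have : CoInv N ≤ LinearMap.ker E := by
    rw [CoInv, Submodule.span_le]
    rintro _ ⟨g, l, rfl⟩
    rw [SetLike.mem_coe, LinearMap.mem_ker, map_sub, sub_eq_zero]
    exact h g l
  exact this hv

theorem cob_of_cycles (n : ℕ) (ν : Ch N →ₗ[ℝ] ℝ) (_hν : InvUnder (MonoidHom.id N) ν)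
    (h : ∀ z ∈ Deg (G := N) (n + 1),
      (∀ E : Ch N →ₗ[ℝ] ℝ, InvUnder (MonoidHom.id N) E → E (bd z) = 0) → ν z = 0) :
    ∃ E : Ch N →ₗ[ℝ] ℝ, InvUnder (MonoidHom.id N) E ∧
      ∀ l : List N, l.length = n + 1 → ν (sg l) = E (bd (sg l)) := by
  set f : Deg (G := N) (n + 1) →ₗ[ℝ] (Ch N ⧸ CoInv N) :=
    (CoInv N).mkQ ∘ₗ bd ∘ₗ (Deg (G := N) (n + 1)).subtype with hf
  have hr := LinearMap.range_dualMap_eq_dualAnnihilator_ker (K := ℝ)
    (V₁ := Deg (G := N) (n + 1)) (V₂ := Ch N ⧸ CoInv N) f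
  have hmem : (ν ∘ₗ (Deg (G := N) (n + 1)).subtype : Module.Dual ℝ (Deg (G := N) (n + 1))) ∈
      LinearMap.range f.dualMap := by
    rw [hr, Submodule.mem_dualAnnihilator]
    rintro ⟨w, hw⟩ hk
    rw [LinearMap.mem_ker, hf, LinearMap.comp_apply, LinearMap.comp_apply,
      Submodule.mkQ_apply, Submodule.Quotient.mk_eq_zero] at hk
    exact h w hw fun E hE => kills_of_inv hE _ hk
  obtain ⟨E, hE⟩ := hmem
  refine ⟨E ∘ₗ (CoInv N).mkQ, inv_of_kills ?_, ?_⟩
  · intro v hv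
    rw [LinearMap.comp_apply, Submodule.mkQ_apply, (Submodule.Quotient.mk_eq_zero _).mpr hv,
      map_zero]
  · intro l hl
    have := LinearMap.congr_fun hE ⟨sg l, sg_mem_deg hl⟩
    exact this.symm

/-- The version with functions. -/
theorem cob_fn (n : ℕ)
    (H : ∀ ν : Ch N →ₗ[ℝ] ℝ, InvUnder (MonoidHom.id N) ν → Closed (n + 1) ν →
      ∀ z ∈ Deg (G := N) (n + 1),
        (∀ E : Ch N →ₗ[ℝ] ℝ, InvUnder (MonoidHom.id N) E → E (bd z) = 0) → ν z = 0)
    (c : (Fin (n + 1) → N) → ℝ) (hc : ∀ (g : N) (σ : Fin (n + 1) → N), c (fun i => g * σ i) = c σ)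
    (hcc : ∀ τ : Fin (n + 2) → N,
      ∑ i : Fin (n + 2), (-1 : ℝ) ^ (i : ℕ) * c (fun j => τ (i.succAbove j)) = 0) :
    ∃ b : (Fin n → N) → ℝ, (∀ (g : N) (σ : Fin n → N), b (fun i => g * σ i) = b σ) ∧
      ∀ σ : Fin (n + 1) → N,
        c σ = ∑ i : Fin (n + 1), (-1 : ℝ) ^ (i : ℕ) * b (fun j => σ (i.succAbove j)) := by
  classical
  set ν : Ch N →ₗ[ℝ] ℝ := Finsupp.linearCombination ℝ
    (fun l : List N => if l.length = n + 1 then c (fun i => l.getD i 1) else 0) with hν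
  have hνs : ∀ s : Fin (n + 1) → N, ν (sg (List.ofFn s)) = c s := by
    intro s
    have h1 : (fun i : Fin (n + 1) => (List.ofFn s).getD i 1) = s := by
      funext i
      rw [List.getD_eq_getElem _ _ (by rw [List.length_ofFn]; exact i.isLt), List.getElem_ofFn]
    rw [hν]
    unfold sg
    rw [Finsupp.linearCombination_single, one_smul, if_pos (by simp), h1]
  have hi : InvUnder (MonoidHom.id N) ν := by
    intro g l
    by_cases hl : l.length = n + 1
    · obtain ⟨s, rfl⟩ := Pool.Agent.H9DimN.exists_ofFn hl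
      rw [List.map_ofFn, hνs, hνs]
      exact hc g s
    · rw [hν]
      unfold sg
      rw [Finsupp.linearCombination_single, Finsupp.linearCombination_single, one_smul, one_smul,
        if_neg hl, if_neg (by rwa [List.length_map])]
  have hcl : Closed (n + 1) ν := by
    intro l hl
    obtain ⟨τ, rfl⟩ := Pool.Agent.H9DimN.exists_ofFn hl
    rw [Pool.Agent.H9DimN.bd_ofFn, map_sum]
    simp only [map_smul, hνs, smul_eq_mul]
    exact hcc τ
  obtain ⟨E, hE1, hE2⟩ := cob_of_cycles n ν hi (H ν hi hcl)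
  refine ⟨fun s => E (sg (List.ofFn s)), ?_, ?_⟩
  · intro g σ
    have := hE1 g (List.ofFn σ)
    rw [List.map_ofFn] at this
    exact this
  · intro σ
    have := hE2 (List.ofFn σ) (by simp)
    rw [hνs, Pool.Agent.H9DimN.bd_ofFn, map_sum] at this
    simpa only [map_smul, smul_eq_mul] using this

end Pool.Agent.H9Nil
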