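import Pool.Agent.H9Nil.Main
import Pool.Agent.H9Nil.Cob
import Pool.Agent.H9DimN.Dim

set_option autoImplicit false

/-!
# Restrictions to nilpotent groups are sums of products of classes of degree one
-/

namespace Pool.Agent.H9Nil

open Pool.Agent.AutDim3 Pool.Agent.H9DimN

/-- The functional given by a function of `n` variables. -/
noncomputable def fnl {G : Type} [Group G] (n : ℕ) (c : (Fin n → G) → ℝ) : Ch G →ₗ[ℝ] ℝ :=
  Finsupp.linearCombination ℝ
    (fun l : List G => if l.length = n then c (fun i => l.getD i 1) else 0)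

theorem fnl_ofFn {G : Type} [Group G] {n : ℕ} (c : (Fin n → G) → ℝ) (s : Fin n → G) :
    fnl n c (sg (List.ofFn s)) = c s := by
  have h1 : (fun i : Fin n => (List.ofFn s).getD i 1) = s := by
    funext i
    rw [List.getD_eq_getElem _ _ (by rw [List.length_ofFn]; exact i.isLt), List.getElem_ofFn]
  unfold fnl sg
  rw [Finsupp.linearCombination_single, one_smul, if_pos (by simp), h1]

theorem fnl_ne {G : Type} [Group G] {n : ℕ} (c : (Fin n → G) → ℝ) {l : List G}
    (hl : l.length ≠ n) : fnl n c (sg l) = 0 := by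
  unfold fnl sg
  rw [Finsupp.linearCombination_single, one_smul, if_neg hl]

theorem KI_sum_inv {N : Type} [Group N] {r n : ℕ} (χ : Fin r → N → ℝ)
    (a : (Fin n → Fin r) → ℝ) :
    InvUnder (MonoidHom.id N) (∑ s, a s • KI χ (List.ofFn s)) := by
  intro g l
  rw [LinearMap.sum_apply, LinearMap.sum_apply]
  refine Finset.sum_congr rfl fun s _ => ?_
  rw [LinearMap.smul_apply, LinearMap.smul_apply, KI_inv χ _ g l]

/-- The restriction of a cocycle that is bounded by an invariant function. -/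
theorem classes {G : Type} [Group G] (hG : IsAutomatic G) {N : Type} [Group N]
    [Group.IsNilpotent N] [Group.FG N] (φ : N →* G) {k : ℕ}
    (f : (Fin (k + 2) → G) → ℝ)
    (hf : ∀ (n : N) (σ : Fin (k + 2) → G), f (fun i => φ n * σ i) = f σ)
    (B : (Fin (k + 2) → G) → ℝ)
    (hB : ∀ (g : G) (σ : Fin (k + 2) → G), B (fun i => g * σ i) = B σ)
    (hfB : ∀ σ, |f σ| ≤ B σ)
    (hcl : ∀ τ : Fin (k + 3) → G,
      ∑ i : Fin (k + 3), (-1 : ℝ) ^ (i : ℕ) * f (fun j => τ (i.succAbove j)) = 0) :
    (∃ (χ : Fin (Module.finrank ℤ (Additive (Abelianization N))) → N → ℝ)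
      (a : (Fin (k + 1) → Fin (Module.finrank ℤ (Additive (Abelianization N)))) → ℝ)
      (h : (Fin (k + 1) → N) → ℝ),
      (∀ i x y, χ i (x * y) = χ i x + χ i y) ∧
      (∀ (n : N) (σ : Fin (k + 1) → N), h (fun i => n * σ i) = h σ) ∧
      ∀ σ : Fin (k + 2) → N, f (fun i => φ (σ i)) =
        ∑ s, a s * ∏ j : Fin (k + 1), χ (s j) ((σ j.castSucc)⁻¹ * σ j.succ) +
          ∑ i : Fin (k + 2), (-1 : ℝ) ^ (i : ℕ) * h (fun j => σ (i.succAbove j))) ∧
    (Module.finrank ℤ (Additive (Abelianization N)) < k + 1 →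
      ∃ h : (Fin (k + 1) → N) → ℝ,
        (∀ (n : N) (σ : Fin (k + 1) → N), h (fun i => n * σ i) = h σ) ∧
        ∀ σ : Fin (k + 2) → N, f (fun i => φ (σ i)) =
          ∑ i : Fin (k + 2), (-1 : ℝ) ^ (i : ℕ) * h (fun j => σ (i.succAbove j))) := by
  classical
  obtain ⟨C⟩ := exists_comb G hG
  set F := fnl (k + 2) f with hFdef
  have hi : InvUnder φ F := by
    intro n l
    by_cases hl : l.length = k + 2
    · obtain ⟨s, rfl⟩ := exists_ofFn hl
      rw [List.map_ofFn, fnl_ofFn, fnl_ofFn]
      exact hf n s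
    · rw [fnl_ne f hl, fnl_ne f (by simpa using hl)]
  have hc : Closed (k + 2) F := by
    intro l hl
    obtain ⟨τ, rfl⟩ := exists_ofFn hl
    rw [bd_ofFn, map_sum, ← hcl τ]
    refine Finset.sum_congr rfl fun i _ => ?_
    rw [map_smul, fnl_ofFn, smul_eq_mul]
  have hb : ∀ R : ℕ, ∃ M : ℝ, ∀ l : List G, l.length = k + 2 → C.Small R l → |F (sg l)| ≤ M := by
    intro R
    obtain ⟨M, hM⟩ := bounded_of_inv C (k + 1) (fun l => fnl (k + 2) B (sg l))
      (fun g l hl => by
        obtain ⟨s, rfl⟩ := exists_ofFn hl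
        simp only [List.map_ofFn]
        rw [fnl_ofFn, fnl_ofFn]
        exact hB g s) R
    refine ⟨M, fun l hl hs => ?_⟩
    have h1 := hM l hl hs
    obtain ⟨s, rfl⟩ := exists_ofFn hl
    rw [fnl_ofFn]
    simp only [fnl_ofFn] at h1
    exact (hfB s).trans h1
  obtain ⟨χ, hχ, a, ha⟩ := nil_span C φ F hi hc hb
  have hFi : InvUnder (MonoidHom.id N) (F ∘ₗ push φ) := by
    intro n l
    simp only [LinearMap.comp_apply, push_sg, MonoidHom.id_apply, List.map_map]
    have := hi n (l.map φ)
    rw [List.map_map] at this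
    rw [← this]
    congr 2
    apply List.map_congr_left
    intro x _
    simp
  have hval : ∀ σ : Fin (k + 2) → N, F (push φ (sg (List.ofFn σ))) = f (fun i => φ (σ i)) := by
    intro σ
    rw [push_sg, List.map_ofFn, fnl_ofFn]
    rfl
  refine ⟨?_, ?_⟩
  · obtain ⟨E, hE1, hE2⟩ := cob_of_cycles (k + 1) (F ∘ₗ push φ - ∑ s, a s • KI χ (List.ofFn s))
      (by
        intro n l
        rw [LinearMap.sub_apply, LinearMap.sub_apply, hFi n l, KI_sum_inv χ a n l])
      (by
        intro z hz cyc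
        rw [LinearMap.sub_apply, LinearMap.comp_apply, ha ⟨z, hz, cyc⟩, LinearMap.sum_apply,
          sub_eq_zero]
        rfl)
    refine ⟨χ, a, fun σ => E (sg (List.ofFn σ)), hχ, ?_, ?_⟩
    · intro n σ
      have := hE1 n (List.ofFn σ)
      rw [List.map_ofFn] at this
      exact this
    · intro σ
      have h1 := hE2 (List.ofFn σ) (by simp)
      rw [LinearMap.sub_apply, LinearMap.comp_apply, hval, LinearMap.sum_apply, bd_ofFn, map_sum,
        sub_eq_iff_eq_add] at h1
      rw [h1, add_comm]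
      congr 1
      · refine Finset.sum_congr rfl fun s _ => ?_
        rw [LinearMap.smul_apply, smul_eq_mul, KI_ofFn]
      · refine Finset.sum_congr rfl fun i _ => ?_
        rw [map_smul, smul_eq_mul]
  · intro hr
    obtain ⟨E, hE1, hE2⟩ := cob_of_cycles (k + 1) (F ∘ₗ push φ) hFi
      (by
        intro z hz cyc
        rw [LinearMap.comp_apply, ha ⟨z, hz, cyc⟩]
        refine Finset.sum_eq_zero fun s _ => ?_
        rw [KI_zero hχ (List.ofFn s) (by simp) hr hz cyc, mul_zero])
    refine ⟨fun σ => E (sg (List.ofFn σ)), ?_, ?_⟩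
    · intro n σ
      have := hE1 n (List.ofFn σ)
      rw [List.map_ofFn] at this
      exact this
    · intro σ
      have h1 := hE2 (List.ofFn σ) (by simp)
      rw [LinearMap.comp_apply, hval, bd_ofFn, map_sum] at h1
      rw [h1]
      refine Finset.sum_congr rfl fun i _ => ?_
      rw [map_smul, smul_eq_mul]

end Pool.Agent.H9Nil
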