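import Pool.Agent.H9Nil.Cv

set_option autoImplicit false

/-!
# Cup products of homomorphisms
-/

namespace Pool.Agent.H9Nil

open Pool.Agent.AutDim3 Pool.Agent.H9Thin

variable {N : Type} [Group N]

/-- Cup product with a one-cochain. -/
noncomputable def ccL (h : N → ℝ) (E : Ch N →ₗ[ℝ] ℝ) : List N → ℝ
  | x :: y :: l => h (x⁻¹ * y) * E (sg (y :: l))
  | _ => 0

/-- Cup product with a one-cochain. -/
noncomputable def cc (h : N → ℝ) (E : Ch N →ₗ[ℝ] ℝ) : Ch N →ₗ[ℝ] ℝ :=
  Finsupp.linearCombination ℝ (ccL h E)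

theorem cc_sg (h : N → ℝ) (E : Ch N →ₗ[ℝ] ℝ) (x y : N) (l : List N) :
    cc h E (sg (x :: y :: l)) = h (x⁻¹ * y) * E (sg (y :: l)) := by
  simp [cc, ccL, sg]

theorem cc_cone_cone (h : N → ℝ) (E : Ch N →ₗ[ℝ] ℝ) (x y : N) (w : Ch N) :
    cc h E (cone x (cone y w)) = h (x⁻¹ * y) * E (cone y w) := by
  have : cc h E ∘ₗ cone x ∘ₗ cone y = h (x⁻¹ * y) • (E ∘ₗ cone y) := by
    apply ext_sg
    intro l
    simp only [LinearMap.comp_apply, LinearMap.smul_apply, smul_eq_mul]
    rw [cone_sg, cone_sg, cc_sg]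
  exact LinearMap.congr_fun this w

theorem cc_inv (h : N → ℝ) (E : Ch N →ₗ[ℝ] ℝ) (hE : InvUnder (MonoidHom.id N) E) :
    InvUnder (MonoidHom.id N) (cc h E) := by
  intro g l
  match l with
  | [] => rfl
  | [x] => simp [cc, ccL, sg]
  | x :: y :: l =>
    have e := hE g (y :: l)
    simp only [List.map_cons, MonoidHom.id_apply] at e ⊢
    rw [cc_sg, cc_sg, e]
    congr 2
    group

/-- The coboundary of a cup product with a one-cochain. -/
theorem cc_bd (h : N → ℝ) (E : Ch N →ₗ[ℝ] ℝ) (x y w : N) (l : List N) :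
    cc h E (bd (sg (x :: y :: w :: l))) =
      (h (y⁻¹ * w) - h (x⁻¹ * w) + h (x⁻¹ * y)) * E (sg (w :: l))
        - h (x⁻¹ * y) * E (bd (sg (y :: w :: l))) := by
  rw [bd_cons x, map_sub, cc_sg, bd_cons y, map_sub, map_sub, cone_sg, cc_sg, cc_cone_cone,
    map_sub]
  ring

/-- Cocycles of the form `K I`. -/
noncomputable def KI {r : ℕ} (χ : Fin r → N → ℝ) : List (Fin r) → (Ch N →ₗ[ℝ] ℝ)
  | [] => Finsupp.linearCombination ℝ (fun l => match l with
    | [_] => (1 : ℝ)
    | _ => 0)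
  | i :: I => cc (χ i) (KI χ I)

variable {r : ℕ} (χ : Fin r → N → ℝ)

theorem KI_nil (x : N) : KI χ [] (sg [x]) = 1 := by
  simp [KI, sg]

theorem KI_inv (I : List (Fin r)) : InvUnder (MonoidHom.id N) (KI χ I) := by
  induction I with
  | nil =>
    intro g l
    match l with
    | [] => rfl
    | [x] => simp [KI, sg]
    | x :: y :: l => simp [KI, sg]
  | cons i I ih => exact cc_inv _ _ ih

theorem KI_cons (i : Fin r) (I : List (Fin r)) (x y : N) (l : List N) :
    KI χ (i :: I) (sg (x :: y :: l)) = χ i (x⁻¹ * y) * KI χ I (sg (y :: l)) := by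
  rw [KI, cc_sg]

/-- Linear recursion for the coboundary. -/
theorem cc_closed {χ₀ : N → ℝ} (hχ : ∀ g h, χ₀ (g * h) = χ₀ g + χ₀ h) (E : Ch N →ₗ[ℝ] ℝ)
    (x y w : N) (l : List N) :
    cc χ₀ E (bd (sg (x :: y :: w :: l))) = - (χ₀ (x⁻¹ * y) * E (bd (sg (y :: w :: l)))) := by
  rw [cc_bd]
  have : χ₀ (x⁻¹ * w) = χ₀ (x⁻¹ * y) + χ₀ (y⁻¹ * w) := by
    rw [← hχ]; congr 1; group
  rw [this]
  ring

theorem KI_closed (hχ : ∀ i g h, χ i (g * h) = χ i g + χ i h) (I : List (Fin r)) :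
    Closed (I.length + 1) (KI χ I) := by
  induction I with
  | nil =>
    intro l hl
    match l, hl with
    | [x, y], _ =>
      rw [bd_cons, bd_cons, bd_nil, map_zero, sub_zero, map_sub, cone_sg, KI_nil, KI_nil, sub_self]
  | cons i I ih =>
    intro l hl
    match l, hl with
    | x :: y :: w :: l, hl =>
      rw [KI, cc_closed (hχ i), ih (y :: w :: l) (by simpa using hl), mul_zero, neg_zero]

/-- A functional is a coboundary on lists of `n + 1` entries. -/
def Cob (n : ℕ) (F : Ch N →ₗ[ℝ] ℝ) : Prop :=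
  ∃ E : Ch N →ₗ[ℝ] ℝ, InvUnder (MonoidHom.id N) E ∧
    ∀ l : List N, l.length = n + 1 → F (sg l) = E (bd (sg l))

theorem Cob.cc {n : ℕ} {F : Ch N →ₗ[ℝ] ℝ} (h : Cob (n + 1) F) {χ₀ : N → ℝ}
    (hχ : ∀ g h, χ₀ (g * h) = χ₀ g + χ₀ h) : Cob (n + 2) (cc χ₀ F) := by
  obtain ⟨E, h1, h2⟩ := h
  refine ⟨- H9Nil.cc χ₀ E, ?_, ?_⟩
  · intro g l
    rw [LinearMap.neg_apply, LinearMap.neg_apply, cc_inv χ₀ E h1 g l]
  · intro l hl
    match l, hl with
    | x :: y :: w :: l, hl =>
      rw [LinearMap.neg_apply, cc_closed hχ, neg_neg, cc_sg, h2 (y :: w :: l) (by simpa using hl)]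

/-- Swapping two neighbours. -/
theorem swap_nil (hχ : ∀ i g h, χ i (g * h) = χ i g + χ i h) (a b : Fin r) (I : List (Fin r)) :
    Cob (I.length + 2) (KI χ (a :: b :: I) + KI χ (b :: a :: I)) := by
  refine ⟨- cc (fun g => χ a g * χ b g) (KI χ I), ?_, ?_⟩
  · intro g l
    rw [LinearMap.neg_apply, LinearMap.neg_apply, cc_inv _ _ (KI_inv χ I) g l]
  · intro l hl
    match l, hl with
    | x :: y :: w :: l, hl =>
      rw [LinearMap.add_apply, KI_cons, KI_cons, KI_cons, KI_cons, LinearMap.neg_apply, cc_bd,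
        KI_closed χ hχ I (y :: w :: l) (by simpa using hl)]
      have e1 : χ a (x⁻¹ * w) = χ a (x⁻¹ * y) + χ a (y⁻¹ * w) := by
        rw [← hχ]; congr 1; group
      have e2 : χ b (x⁻¹ * w) = χ b (x⁻¹ * y) + χ b (y⁻¹ * w) := by
        rw [← hχ]; congr 1; group
      simp only [e1, e2]
      ring

theorem swap_app (hχ : ∀ i g h, χ i (g * h) = χ i g + χ i h) (a b : Fin r) (I J : List (Fin r)) :
    Cob (J.length + I.length + 2) (KI χ (J ++ a :: b :: I) + KI χ (J ++ b :: a :: I)) := by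
  induction J with
  | nil => simpa using swap_nil χ hχ a b I
  | cons j J ih =>
    have h1 := Cob.cc ih (hχ j)
    obtain ⟨E, h2, h3⟩ := h1
    have hlen : (j :: J).length + I.length + 2 = J.length + I.length + 1 + 2 := by
      simp only [List.length_cons]; ring
    rw [hlen]
    refine ⟨E, h2, ?_⟩
    intro l hl
    rw [← h3 l hl]
    match l, hl with
    | x :: y :: l, hl =>
      rw [List.cons_append, List.cons_append, LinearMap.add_apply, KI_cons, KI_cons, cc_sg,
        LinearMap.add_apply]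
      ring

variable {χ}

/-- The value on a cycle. -/
theorem swap_val (hχ : ∀ i g h, χ i (g * h) = χ i g + χ i h) (a b : Fin r) (I J : List (Fin r))
    {z : Ch N} (hz : z ∈ Deg (G := N) (J.length + I.length + 2 + 1))
    (hcyc : ∀ E : Ch N →ₗ[ℝ] ℝ, InvUnder (MonoidHom.id N) E → E (bd z) = 0) :
    KI χ (J ++ a :: b :: I) z = - KI χ (J ++ b :: a :: I) z := by
  obtain ⟨E, h2, h3⟩ := swap_app χ hχ a b I J
  have h4 := eq_of_sg (KI χ (J ++ a :: b :: I) + KI χ (J ++ b :: a :: I)) (E ∘ₗ bd)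
    (fun l hl => h3 l hl) hz
  rw [LinearMap.add_apply, LinearMap.comp_apply, hcyc E h2] at h4
  linarith

theorem repeat_val (hχ : ∀ i g h, χ i (g * h) = χ i g + χ i h) (a : Fin r)
    (M : List (Fin r)) : ∀ (I J : List (Fin r)) {z : Ch N} {n : ℕ},
    (J ++ a :: (M ++ a :: I)).length = n → z ∈ Deg (G := N) (n + 1) →
    (∀ E : Ch N →ₗ[ℝ] ℝ, InvUnder (MonoidHom.id N) E → E (bd z) = 0) →
    KI χ (J ++ a :: (M ++ a :: I)) z = 0 := by
  induction M with
  | nil =>
    intro I J z n hn hz hcyc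
    have e : n = J.length + I.length + 2 := by rw [← hn]; simp; ring
    rw [e] at hz
    have := swap_val hχ a a I J hz hcyc
    rw [List.nil_append]
    linarith
  | cons m M ih =>
    intro I J z n hn hz hcyc
    have e : n = J.length + (M ++ a :: I).length + 2 := by rw [← hn]; simp; ring
    have hz' := hz
    rw [e] at hz'
    have h1 := swap_val hχ a m (M ++ a :: I) J hz' hcyc
    rw [List.cons_append, h1]
    have h2 : J ++ m :: a :: (M ++ a :: I) = (J ++ [m]) ++ a :: (M ++ a :: I) := by simp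
    rw [h2, ih I (J ++ [m]) (n := n) (by rw [← hn]; simp) hz hcyc, neg_zero]

theorem exists_repeat {α : Type} (l : List α) (h : ¬ l.Nodup) :
    ∃ (a : α) (J M I : List α), l = J ++ a :: (M ++ a :: I) := by
  induction l with
  | nil => exact absurd List.nodup_nil h
  | cons x l ih =>
    by_cases hx : x ∈ l
    · obtain ⟨M, I, rfl⟩ := List.append_of_mem hx
      exact ⟨x, [], M, I, rfl⟩
    · have : ¬ l.Nodup := fun hl => h (List.nodup_cons.mpr ⟨hx, hl⟩)
      obtain ⟨a, J, M, I, rfl⟩ := ih this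
      exact ⟨a, x :: J, M, I, rfl⟩

/-- Cup products of more than `r` homomorphisms among `r` vanish on cycles. -/
theorem KI_zero (hχ : ∀ i g h, χ i (g * h) = χ i g + χ i h) (I : List (Fin r)) {n : ℕ}
    (hn : I.length = n) (hr : r < n) {z : Ch N} (hz : z ∈ Deg (G := N) (n + 1))
    (hcyc : ∀ E : Ch N →ₗ[ℝ] ℝ, InvUnder (MonoidHom.id N) E → E (bd z) = 0) :
    KI χ I z = 0 := by
  have h1 : ¬ I.Nodup := by
    intro h
    have := h.length_le_card
    rw [Fintype.card_fin] at this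
    omega
  obtain ⟨a, J, M, I', rfl⟩ := exists_repeat I h1
  exact repeat_val hχ a M I' J hn hz hcyc

end Pool.Agent.H9Nil
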