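import Pool.Agent.AutDim3.Chain
import Pool.Agent.H9Thin.Norm
import Pool.Agent.H9Thin.LiftSub

set_option autoImplicit false

/-!
# Joins with combinations of vertices, and smoothing of chains
-/

namespace Pool.Agent.H9Nil

open Pool.Agent.AutDim3 Pool.Agent.H9Thin

variable {N : Type}

/-- The join with a combination of vertices. -/
noncomputable def cv : (N →₀ ℝ) →ₗ[ℝ] (Ch N →ₗ[ℝ] Ch N) :=
  Finsupp.linearCombination ℝ (fun x => cone x)

/-- The sum of the coefficients. -/
noncomputable def mass : (N →₀ ℝ) →ₗ[ℝ] ℝ := Finsupp.linearCombination ℝ (fun _ => (1 : ℝ))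

theorem cv_single (x : N) (r : ℝ) : cv (Finsupp.single x r) = r • cone x := by
  simp [cv]

theorem mass_single (x : N) (r : ℝ) : mass (Finsupp.single x r) = r := by
  simp [mass]

theorem bd_cv (v : N →₀ ℝ) (w : Ch N) : bd (cv v w) = mass v • w - cv v (bd w) := by
  induction v using Finsupp.induction_linear with
  | zero => simp
  | add f g hf hg =>
    rw [map_add, map_add, LinearMap.add_apply, LinearMap.add_apply, map_add, hf, hg, add_smul]
    abel
  | single x r =>
    rw [cv_single, mass_single, LinearMap.smul_apply, LinearMap.smul_apply, map_smul, bd_cone,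
      smul_sub]

theorem nrm_cv_le (v : N →₀ ℝ) (w : Ch N) : nrm (cv v w) ≤ l1 v * nrm w := by
  classical
  have h1 : cv v w = ∑ x ∈ v.support, v x • cone x w := by
    rw [cv, Finsupp.linearCombination_apply, Finsupp.sum, LinearMap.sum_apply]
    rfl
  rw [h1, l1, Finsupp.sum, Finset.sum_mul]
  refine (nrm_sum_le _ _).trans (Finset.sum_le_sum fun x _ => ?_)
  rw [nrm_smul]
  exact mul_le_mul_of_nonneg_left (nrm_cone_le _ _) (abs_nonneg _)

/-- Supports. -/
theorem cv_mem {A : Set N} {s s' : Set (List N)} (h : ∀ x ∈ A, ∀ l ∈ s, (x :: l) ∈ s')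
    {v : N →₀ ℝ} (hv : v ∈ Finsupp.supported ℝ ℝ A) {w : Ch N}
    (hw : w ∈ Finsupp.supported ℝ ℝ s) : cv v w ∈ Finsupp.supported ℝ ℝ s' := by
  classical
  have h1 : cv v w = ∑ x ∈ v.support, v x • cone x w := by
    rw [cv, Finsupp.linearCombination_apply, Finsupp.sum, LinearMap.sum_apply]
    rfl
  rw [h1]
  refine Submodule.sum_mem _ fun x hx => Submodule.smul_mem _ _ ?_
  rw [Finsupp.mem_supported] at hv
  have hxA : x ∈ A := hv hx
  refine map_mem_of_sg (cone x) ?_ hw
  intro l hl
  rw [cone_sg]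
  exact sg_mem_supported (h x hxA l hl)

section Grp

variable [Group N]

/-- Left translation of combinations of vertices. -/
noncomputable def L (g : N) : (N →₀ ℝ) →ₗ[ℝ] (N →₀ ℝ) := Finsupp.lmapDomain ℝ ℝ (g * ·)

theorem L_single (g x : N) (r : ℝ) : L g (Finsupp.single x r) = Finsupp.single (g * x) r := by
  simp [L, Finsupp.lmapDomain_apply, Finsupp.mapDomain_single]

theorem L_mul (g h : N) (v : N →₀ ℝ) : L (g * h) v = L g (L h v) := by
  have : L (g * h) = L g ∘ₗ L h := by
    apply Finsupp.lhom_ext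
    intro x r
    rw [LinearMap.comp_apply, L_single, L_single, L_single, mul_assoc]
  exact LinearMap.congr_fun this v

theorem L_one (v : N →₀ ℝ) : L (1 : N) v = v := by
  have : L (1 : N) = LinearMap.id := by
    apply Finsupp.lhom_ext
    intro x r
    rw [L_single, one_mul, LinearMap.id_apply]
  exact LinearMap.congr_fun this v

theorem mass_L (g : N) (v : N →₀ ℝ) : mass (L g v) = mass v := by
  have : mass ∘ₗ L g = mass := by
    apply Finsupp.lhom_ext
    intro x r
    rw [LinearMap.comp_apply, L_single, mass_single, mass_single]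
  exact LinearMap.congr_fun this v

theorem l1_L_le (g : N) (v : N →₀ ℝ) : l1 (L g v) ≤ l1 v := l1_mapDomain_le _ v

theorem l1_L (g : N) (v : N →₀ ℝ) : l1 (L g v) = l1 v := by
  apply le_antisymm (l1_L_le g v)
  have := l1_L_le g⁻¹ (L g v)
  rwa [← L_mul, inv_mul_cancel, L_one] at this

theorem push_cv (g : N) (v : N →₀ ℝ) (w : Ch N) :
    push (g * ·) (cv v w) = cv (L g v) (push (g * ·) w) := by
  induction v using Finsupp.induction_linear with
  | zero => simp
  | add f h hf hg =>
    rw [map_add, LinearMap.add_apply, map_add, hf, hg, map_add, map_add, LinearMap.add_apply]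
  | single x r =>
    rw [cv_single, L_single, cv_single, LinearMap.smul_apply, LinearMap.smul_apply, map_smul,
      push_cone]

theorem L_mem {A B : Set N} (g : N) (h : ∀ x ∈ A, g * x ∈ B) {v : N →₀ ℝ}
    (hv : v ∈ Finsupp.supported ℝ ℝ A) : L g v ∈ Finsupp.supported ℝ ℝ B := by
  classical
  rw [Finsupp.mem_supported] at hv ⊢
  refine (Finset.coe_subset.mpr (Finsupp.mapDomain_support (f := (g * ·)) (s := v))).trans ?_
  intro y hy
  rw [Finset.coe_image] at hy
  obtain ⟨x, hx, rfl⟩ := hy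
  exact h x (hv hx)

/-! ### the smoothing operator -/

/-- The normalised part. -/
noncomputable def Td (μ : N →₀ ℝ) : N → List N → Ch N
  | _, [] => sg []
  | x, y :: l => cv (L y μ - L x μ) (Td μ y l)

/-- The smoothing of a list. -/
noncomputable def TL (μ : N →₀ ℝ) : List N → Ch N
  | [] => sg []
  | x :: l => cv (L x μ) (Td μ x l)

/-- Linear extension. -/
noncomputable def Tdl (μ : N →₀ ℝ) (x : N) : Ch N →ₗ[ℝ] Ch N := Finsupp.linearCombination ℝ (Td μ x)

/-- The smoothing operator. -/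
noncomputable def T (μ : N →₀ ℝ) : Ch N →ₗ[ℝ] Ch N := Finsupp.linearCombination ℝ (TL μ)

theorem Tdl_sg (μ : N →₀ ℝ) (x : N) (l : List N) : Tdl μ x (sg l) = Td μ x l := by
  simp [Tdl, sg]

theorem T_sg (μ : N →₀ ℝ) (l : List N) : T μ (sg l) = TL μ l := by
  simp [T, sg]

theorem Tdl_cone (μ : N →₀ ℝ) (x y : N) (w : Ch N) :
    Tdl μ x (cone y w) = cv (L y μ - L x μ) (Tdl μ y w) := by
  have : Tdl μ x ∘ₗ cone y = cv (L y μ - L x μ) ∘ₗ Tdl μ y := by
    apply ext_sg
    intro l
    rw [LinearMap.comp_apply, LinearMap.comp_apply, cone_sg, Tdl_sg, Tdl_sg, Td]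
  exact LinearMap.congr_fun this w

theorem T_cone (μ : N →₀ ℝ) (x : N) (w : Ch N) :
    T μ (cone x w) = cv (L x μ) (Tdl μ x w) := by
  have : T μ ∘ₗ cone x = cv (L x μ) ∘ₗ Tdl μ x := by
    apply ext_sg
    intro l
    rw [LinearMap.comp_apply, LinearMap.comp_apply, cone_sg, Tdl_sg, T_sg, TL]
  exact LinearMap.congr_fun this w

theorem bd_Td (μ : N →₀ ℝ) (l : List N) : ∀ x : N, bd (Td μ x l) = 0 := by
  induction l with
  | nil => intro x; rw [Td, bd_nil]
  | cons y l ih =>
    intro x
    rw [Td, bd_cv, ih, map_zero, map_sub, mass_L, mass_L, sub_self, zero_smul, sub_zero]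

theorem Tdl_bd (μ : N →₀ ℝ) (l : List N) : ∀ x y : N, Tdl μ x (bd (sg (y :: l))) = Td μ y l := by
  induction l with
  | nil =>
    intro x y
    rw [bd_cons, bd_nil, map_zero, sub_zero, Tdl_sg, Td, Td]
  | cons w l ih =>
    intro x y
    rw [bd_cons, map_sub, Tdl_cone, ih y w, Tdl_sg, Td, ← LinearMap.sub_apply,
      ← map_sub (cv (N := N)), Td]
    congr 2
    abel

theorem bd_TL (μ : N →₀ ℝ) (hμ : mass μ = 1) (x : N) (l : List N) :
    bd (TL μ (x :: l)) = T μ (bd (sg (x :: l))) := by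
  rw [TL, bd_cv, bd_Td, map_zero, sub_zero, mass_L, hμ, one_smul, bd_cons, map_sub, T_cone, T_sg]
  match l with
  | [] => rw [bd_nil, map_zero, map_zero, sub_zero, TL, Td]
  | y :: l => rw [Tdl_bd, TL, Td, map_sub, LinearMap.sub_apply]

theorem Td_equi (μ : N →₀ ℝ) (g : N) (l : List N) : ∀ x : N,
    Td μ (g * x) (l.map (g * ·)) = push (g * ·) (Td μ x l) := by
  induction l with
  | nil => intro x; rw [List.map_nil, Td, Td, push_sg, List.map_nil]
  | cons y l ih =>
    intro x
    rw [List.map_cons, Td, Td, push_cv, ih, map_sub (L g), L_mul, L_mul]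

theorem TL_equi (μ : N →₀ ℝ) (g : N) (l : List N) :
    TL μ (l.map (g * ·)) = push (g * ·) (TL μ l) := by
  match l with
  | [] => rw [List.map_nil, TL, push_sg, List.map_nil]
  | x :: l => rw [List.map_cons, TL, TL, push_cv, Td_equi, L_mul]

omit [Group N] in
theorem cv_deg {n : ℕ} (v : N →₀ ℝ) {w : Ch N} (hw : w ∈ Deg (G := N) n) :
    cv v w ∈ Deg (G := N) (n + 1) := by
  refine cv_mem (A := Set.univ) ?_ (by rw [Finsupp.supported_univ]; trivial) hw
  intro x _ l hl
  simpa using hl

theorem Td_deg (μ : N →₀ ℝ) (l : List N) : ∀ x : N, Td μ x l ∈ Deg (G := N) l.length := by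
  induction l with
  | nil => intro x; exact sg_mem_deg rfl
  | cons y l ih =>
    intro x
    rw [Td, List.length_cons]
    exact cv_deg _ (ih y)

theorem TL_deg (μ : N →₀ ℝ) (l : List N) : TL μ l ∈ Deg (G := N) l.length := by
  match l with
  | [] => exact sg_mem_deg rfl
  | x :: l =>
    rw [TL, List.length_cons]
    exact cv_deg _ (Td_deg _ _ _)

/-- Homotopies in every degree. -/
theorem exists_htpy (μ : N →₀ ℝ) (hμ : mass μ = 1) (n : ℕ) :
    ∃ H : Ch N →ₗ[ℝ] Ch N,
      (∀ (g : N) (l : List N), H (sg (l.map (g * ·))) = push (g * ·) (H (sg l))) ∧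
      (∀ l : List N, l.length = n → H (sg l) ∈ Deg (G := N) (n + 1)) ∧
      (∀ v ∈ Deg (G := N) n, bd v = 0 → T μ v - v = bd (H v)) := by
  induction n with
  | zero =>
    refine ⟨0, by simp, by simp, ?_⟩
    intro v hv _
    rw [LinearMap.zero_apply, map_zero]
    have := eq_of_sg (T μ) LinearMap.id (fun l hl => by
      have hl' : l = [] := List.length_eq_zero_iff.mp hl
      rw [hl', T_sg, TL, LinearMap.id_apply]) hv
    rw [this, LinearMap.id_apply, sub_self]
  | succ n ih =>
    obtain ⟨H, h1, h2, h3⟩ := ih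
    obtain ⟨H', h1', h2', _, h4'⟩ := stepHs (MonoidHom.id N) (T μ) (T μ) H n
      (fun g l => by
        rw [T_sg, T_sg]
        exact TL_equi μ g l)
      (fun l hl => by rw [T_sg, ← hl]; exact TL_deg μ l)
      (fun g l => h1 g l) h2
      (fun l hl => by
        match l, hl with
        | x :: l, _ => rw [T_sg]; exact bd_TL μ hμ x l) h3
    exact ⟨H', h1', h2', h4'⟩

/-- Smoothing does not change the value of a closed invariant functional on a cycle. -/
theorem smooth_eq (μ : N →₀ ℝ) (hμ : mass μ = 1) (n : ℕ) (F : Ch N →ₗ[ℝ] ℝ)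
    (hi : InvUnder (MonoidHom.id N) F) (hc : Closed (n + 1) F) (z : Ch N)
    (hz : z ∈ Deg (G := N) (n + 1))
    (hcyc : ∀ E : Ch N →ₗ[ℝ] ℝ, InvUnder (MonoidHom.id N) E → E (bd z) = 0) :
    F (T μ z) = F z := by
  obtain ⟨H, h1, h2, h3⟩ := exists_htpy μ hμ n
  obtain ⟨H', h1', h2', h3', _⟩ := stepHs (MonoidHom.id N) (T μ) (T μ) H n
      (fun g l => by
        rw [T_sg, T_sg]
        exact TL_equi μ g l)
      (fun l hl => by rw [T_sg, ← hl]; exact TL_deg μ l)
      (fun g l => h1 g l) h2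
      (fun l hl => by
        match l, hl with
        | x :: l, _ => rw [T_sg]; exact bd_TL μ hμ x l) h3
  have e1 : (T μ - (LinearMap.id : Ch N →ₗ[ℝ] Ch N)) z = (bd ∘ₗ H' + H ∘ₗ bd) z := by
    refine eq_of_sg _ _ (fun l hl => ?_) hz
    simp only [LinearMap.sub_apply, LinearMap.id_apply, LinearMap.add_apply,
      LinearMap.comp_apply]
    exact h3' l hl
  simp only [LinearMap.sub_apply, LinearMap.id_apply, LinearMap.add_apply,
      LinearMap.comp_apply] at e1
  have e2 : F (T μ z) - F z = F (bd (H' z)) + F (H (bd z)) := by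
    rw [← map_sub, e1, map_add]
  have e3 : H' z ∈ Deg (G := N) (n + 2) := map_mem_of_sg H' (fun l hl => h2' l hl) hz
  rw [hc.apply e3] at e2
  have e4 := hcyc (F ∘ₗ H) (by
    intro g l
    rw [LinearMap.comp_apply, LinearMap.comp_apply, MonoidHom.id_apply, h1]
    exact hi.apply g _)
  rw [LinearMap.comp_apply] at e4
  rw [e4] at e2
  linarith

end Grp

end Pool.Agent.H9Nil
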