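import Pool.Agent.H9Nil.Main
import Pool.Agent.H9DimN.Dim

set_option autoImplicit false

/-!
# Groups of bounded dimension
-/

namespace Pool.Agent.H9Nil

open Pool.Agent.AutDim3 Pool.Agent.H9DimN

/-- In a combed group of dimension at most `k + 1` invariant cocycles vanish on the cycles that are
killed by all cocycles bounded on small simplices. -/
theorem dim_zero {N G : Type} [Group N] [Group G] {k : ℕ} (C : Comb G)
    (hd : DimLe (k + 1) G) (φ : N →* G) (hφ : Function.Injective φ) (z : Ch N)
    (hz : z ∈ Deg (G := N) (k + 2)) (hv : Vanishes k C φ z) (nu : Ch N →ₗ[ℝ] ℝ)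
    (nu_inv : InvUnder (MonoidHom.id N) nu) (nu_closed : Closed (k + 2) nu) : nu z = 0 := by
  classical
  obtain ⟨e, he1, he2, he3⟩ := exists_proj (k + 1) hd
  obtain ⟨ρ, hρ1, hρ2⟩ := exists_retraction φ hφ
  -- extend `e` by zero
  set e' : Ch G →ₗ[ℝ] Ch G := Finsupp.linearCombination ℝ
    (fun l : List G => if l.length = k + 2 then e (sg l) else 0) with he'
  have he's : ∀ l : List G, e' (sg l) = if l.length = k + 2 then e (sg l) else 0 := by
    intro l
    simp only [he', sg, Finsupp.linearCombination_single, one_smul]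
  have he'd : ∀ w ∈ Deg (G := G) (k + 2), e' w = e w := by
    intro w hw
    exact eq_of_sg e' e (fun l hl => by rw [he's]; exact if_pos hl) hw
  have he'i : ∀ (g : G) (l : List G), e' (sg (l.map (g * ·))) = push (g * ·) (e' (sg l)) := by
    intro g l
    rw [he's, he's, List.length_map]
    by_cases hl : l.length = k + 2
    · rw [if_pos hl, if_pos hl, he1 g l hl]
    · rw [if_neg hl, if_neg hl, map_zero]
  have hnrm : ∀ (g : G) (w : Ch G), nrm (push (g * ·) w) = nrm w := by
    intro g w
    apply le_antisymm (nrm_push_le _ _)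
    have h1 := nrm_push_le (g⁻¹ * ·) (push (g * ·) w)
    rw [push_push] at h1
    have h2 : (fun x : G => g⁻¹ * x) ∘ (fun x => g * x) = fun x => x := by
      ext x; simp
    rw [h2, push_id] at h1
    exact h1
  have hkey : ∀ q : Quotient (trSetoid φ), kap φ q (e' (push φ z)) = 0 := by
    intro q
    have := hv (kap φ q ∘ₗ e') ?_ ?_ ?_
    · exact this
    · intro n l
      rw [LinearMap.comp_apply, LinearMap.comp_apply, he'i, (kap_inv φ q).apply]
    · intro l hl
      rw [LinearMap.comp_apply, he'd _ (bd_sg_mem_deg hl), he3 l hl, map_zero]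
    · intro R
      obtain ⟨M, hM⟩ := bounded_of_inv C (k + 1) (fun l => nrm (e' (sg l)))
        (fun g l _ => by rw [he'i, hnrm]) R
      exact ⟨M, fun l hl hs => (kap_le φ q _).trans (hM l hl hs)⟩
  set V : Ch G →ₗ[ℝ] ℝ := nu ∘ₗ push ρ with hV
  have hVi : InvUnder φ V := by
    intro n l
    simp only [hV, LinearMap.comp_apply, push_sg, List.map_map]
    have := nu_inv n (l.map ρ)
    rw [List.map_map] at this
    rw [← this]
    congr 2
    apply List.map_congr_left
    intro x _
    simp [hρ1]
  have h1 : V (e' (push φ z)) = 0 := eq_zero_of_kap φ hVi hkey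
  have hZ : push φ z ∈ Deg (G := G) (k + 2) := push_mem_deg _ hz
  have h2 : e (push φ z) ∈ Deg (G := G) (k + 2) :=
    map_mem_of_sg e (fun l hl => (he2 l hl).1) hZ
  have h3 : bd (e (push φ z)) = bd (push φ z) :=
    eq_of_sg (bd ∘ₗ e) bd (fun l hl => by simpa using (he2 l hl).2) hZ
  have h4 : V (push φ z - e (push φ z)) = 0 := by
    have h5 : bd (push φ z - e (push φ z)) = 0 := by rw [map_sub, h3, sub_self]
    rw [eq_bd_cone (x := (1 : G)) h5, hV, LinearMap.comp_apply, push_bd]
    exact nu_closed.apply (push_mem_deg _ (cone_mem_deg _ (Submodule.sub_mem _ hZ h2)))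
  rw [map_sub, ← he'd _ hZ, h1, sub_zero, hV, LinearMap.comp_apply, push_push] at h4
  have h6 : ρ ∘ φ = fun x => x := by ext x <;> simp [hρ2]
  rw [h6, push_id] at h4
  exact h4

end Pool.Agent.H9Nil
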