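import Pool.Agent.H9Nil.Span

set_option autoImplicit false

/-!
# Lattices with a distorted direction
-/

namespace Pool.Agent.H9Nil

open Pool.Agent.AutDim3 Pool.Agent.H9Thin Pool.Agent.H9DimN

/-- Cup products under a diagonal endomorphism. -/
theorem KI_push {N : Type} [Group N] {r : ℕ} (χ : Fin r → N → ℝ) (ψ : N →* N) (w : Fin r → ℝ)
    (h : ∀ i x, χ i (ψ x) = w i * χ i x) (I : List (Fin r)) (y : Ch N) :
    KI χ I (push ψ y) = (I.map w).prod * KI χ I y := by
  have key : KI χ I ∘ₗ push ψ = (I.map w).prod • KI χ I := by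
    induction I with
    | nil =>
      apply ext_sg
      intro l
      rw [LinearMap.comp_apply, push_sg, List.map_nil, List.prod_nil, one_smul]
      match l with
      | [] => rfl
      | [x] => simp [KI, sg]
      | x :: y :: l => simp [KI, sg]
    | cons i I ih =>
      apply ext_sg
      intro l
      match l with
      | [] => simp [KI, cc, ccL, sg, push]
      | [x] => simp [KI, cc, ccL, sg, push]
      | x :: y :: l =>
        rw [LinearMap.comp_apply, push_sg, List.map_cons, List.map_cons, KI_cons,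
          LinearMap.smul_apply, KI_cons, List.map_cons, List.prod_cons, ← List.map_cons (f := ψ)]
        have e1 := LinearMap.congr_fun ih (sg (y :: l))
        rw [LinearMap.comp_apply, push_sg, LinearMap.smul_apply] at e1
        rw [e1]
        have e2 : (ψ x)⁻¹ * ψ y = ψ (x⁻¹ * y) := by simp
        rw [e2, h]
        simp only [smul_eq_mul]
        ring
  exact LinearMap.congr_fun key y

/-- The lattice. -/
abbrev Zn (n : ℕ) : Type := Multiplicative (Fin n → ℤ)

/-- The basis. -/
def eb {n : ℕ} (i : Fin n) : Zn n := Multiplicative.ofAdd (Pi.single i 1)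

/-- The coordinates. -/
def co' {n : ℕ} (i : Fin n) (x : Zn n) : ℝ := ((Multiplicative.toAdd x i : ℤ) : ℝ)

theorem co'_mul {n : ℕ} (i : Fin n) (x y : Zn n) : co' i (x * y) = co' i x + co' i y := by
  simp [co']

theorem zn_expand {n : ℕ} (x : Zn n) : x = ∏ i, eb i ^ (Multiplicative.toAdd x i) := by
  apply Multiplicative.toAdd.injective
  funext j
  rw [toAdd_prod, Finset.sum_apply]
  simp only [toAdd_zpow, eb, toAdd_ofAdd, Pi.smul_apply, Pi.single_apply, smul_eq_mul]
  simp

theorem zn_basis {n : ℕ} (W : Type) [AddCommGroup W] [Module ℝ W] (D : Zn n → W)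
    (h : ∀ g h, D (g * h) = D g + D h) (g : Zn n) : D g = ∑ i, co' i g • D (eb i) := by
  have h1 : D 1 = 0 := by
    have := h 1 1
    rw [mul_one] at this
    exact left_eq_add.mp this
  let D' : Zn n →* Multiplicative W :=
    { toFun := fun x => Multiplicative.ofAdd (D x)
      map_one' := by rw [h1]; rfl
      map_mul' := fun x y => by rw [h x y]; rfl }
  have h2 : D' g = ∏ i, D' (eb i) ^ (Multiplicative.toAdd g i) := by
    conv_lhs => rw [zn_expand g]
    rw [map_prod]
    simp only [map_zpow]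
  have h3 := congrArg Multiplicative.toAdd h2
  rw [toAdd_prod] at h3
  have h4 : ∀ x, Multiplicative.toAdd (D' x) = D x := fun x => rfl
  simp only [toAdd_zpow, h4] at h3
  rw [h3]
  refine Finset.sum_congr rfl fun i _ => ?_
  rw [co', Int.cast_smul_eq_zsmul]

/-- The stretching. -/
def psi {n : ℕ} (t : ℕ) : Zn (n + 1) →* Zn (n + 1) where
  toFun x := Multiplicative.ofAdd fun i => (if i = 0 then (t : ℤ) ^ 2 else t) *
    Multiplicative.toAdd x i
  map_one' := by
    apply Multiplicative.toAdd.injective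
    funext i
    simp
  map_mul' x y := by
    apply Multiplicative.toAdd.injective
    funext i
    simp [mul_add]

theorem co'_psi {n : ℕ} (t : ℕ) (i : Fin (n + 1)) (x : Zn (n + 1)) :
    co' i (psi t x) = (if i = 0 then (t : ℝ) ^ 2 else t) * co' i x := by
  simp only [co', psi, MonoidHom.coe_mk, OneHom.coe_mk, toAdd_ofAdd]
  push_cast
  split_ifs <;> push_cast <;> rfl

theorem psi_eb {n : ℕ} (t : ℕ) (i : Fin (n + 1)) :
    psi t (eb i) = eb i ^ (if i = 0 then t ^ 2 else t) := by
  apply Multiplicative.toAdd.injective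
  funext j
  simp only [psi, MonoidHom.coe_mk, OneHom.coe_mk, toAdd_ofAdd, eb, toAdd_pow, Pi.smul_apply,
    Pi.single_apply, smul_eq_mul]
  by_cases hj : j = i
  · subst hj
    split_ifs <;> simp
  · simp [hj]

/-- Growth of the stretching. -/
theorem psi_growth {G : Type} [Group G] (C : Comb G) {n : ℕ} (φ : Zn (n + 1) →* G)
    (hd : ∃ D : ℕ, ∀ t : ℕ, 1 ≤ t → C.len (φ (eb 0 ^ (t ^ 2))) ≤ D * t) (x : Zn (n + 1)) :
    ∃ D : ℕ, ∀ t : ℕ, 1 ≤ t → C.len (φ (psi t x)) ≤ D * t := by
  let P : Zn (n + 1) → Prop := fun x => ∃ D : ℕ, ∀ t : ℕ, 1 ≤ t → C.len (φ (psi t x)) ≤ D * t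
  have hone : P 1 := ⟨0, fun t _ => by rw [map_one, map_one, C.len_one]; exact Nat.zero_le _⟩
  have hmul : ∀ a b, P a → P b → P (a * b) := by
    rintro a b ⟨A, hA⟩ ⟨B, hB⟩
    refine ⟨A + B, fun t ht => ?_⟩
    rw [map_mul, map_mul, Nat.add_mul]
    exact (C.len_mul _ _).trans (add_le_add (hA t ht) (hB t ht))
  have hinv : ∀ a, P a → P a⁻¹ := by
    rintro a ⟨A, hA⟩
    refine ⟨A, fun t ht => ?_⟩
    rw [map_inv, map_inv, C.len_inv]
    exact hA t ht
  have hpow : ∀ a, P a → ∀ m : ℕ, P (a ^ m) := by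
    intro a ha m
    induction m with
    | zero => rw [pow_zero]; exact hone
    | succ m ih => rw [pow_succ]; exact hmul _ _ ih ha
  have hzpow : ∀ a, P a → ∀ m : ℤ, P (a ^ m) := by
    intro a ha m
    obtain ⟨k, rfl | rfl⟩ := m.eq_nat_or_neg
    · rw [zpow_natCast]; exact hpow a ha k
    · rw [zpow_neg, zpow_natCast]; exact hinv _ (hpow a ha k)
  have hlen : ∀ (g : G) (m : ℕ), C.len (g ^ m) ≤ C.len g * m := by
    intro g m
    induction m with
    | zero => rw [pow_zero, C.len_one]; exact Nat.zero_le _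
    | succ m ih =>
      rw [pow_succ]
      refine (C.len_mul _ _).trans ?_
      rw [Nat.mul_succ]
      omega
  have hgen : ∀ i : Fin (n + 1), P (eb i) := by
    intro i
    by_cases hi : i = 0
    · subst hi
      obtain ⟨D, hD⟩ := hd
      refine ⟨D, fun t ht => ?_⟩
      rw [psi_eb, if_pos rfl]
      exact hD t ht
    · refine ⟨C.len (φ (eb i)), fun t _ => ?_⟩
      rw [psi_eb, if_neg hi, map_pow]
      exact hlen _ _
  show P x
  rw [zn_expand x]
  exact Finset.prod_induction _ P hmul hone fun i _ => hzpow _ (hgen i) _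

/-- All bounded classes vanish on a lattice with a distorted direction. -/
theorem distorted_vanish {G : Type} [Group G] (C : Comb G) {k : ℕ} (φ : Zn (k + 1) →* G)
    (hd : ∃ D : ℕ, ∀ t : ℕ, 1 ≤ t → C.len (φ (eb 0 ^ (t ^ 2))) ≤ D * t) (z : Ch (Zn (k + 1)))
    (hz : z ∈ Deg (G := Zn (k + 1)) (k + 2)) (cyc : IsCyc z) : Vanishes k C φ z := by
  classical
  intro F hi hc hb
  have hfg : Group.FG (Zn (k + 1)) := inferInstance
  have hnil : Group.IsNilpotent (Zn (k + 1)) := inferInstance
  obtain ⟨F₃, B, hB, hF₃i, hF₃c, hF₃z, hgrow⟩ := exists_growth C φ F hi hc hb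
  obtain ⟨a, ha⟩ := span_gen C φ (fun i => eb i) co' (fun W _ _ D h g => zn_basis W D h g) F₃
    hF₃i hF₃c B hB hgrow
  rw [← hF₃z z cyc]
  have hcycψ : ∀ t : ℕ, IsCyc (push (psi t) z) := by
    intro t E hE
    rw [← push_bd]
    refine cyc (E ∘ₗ push (psi t)) ?_
    intro n l
    simp only [LinearMap.comp_apply, push_sg, MonoidHom.id_apply, List.map_map]
    have := hE (psi t n) (l.map (psi t))
    rw [List.map_map] at this
    rw [← this]
    congr 2
    apply List.map_congr_left
    intro x _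
    simp
  have hdeg : ∀ t : ℕ, push (psi t) z ∈ Deg (G := Zn (k + 1)) (k + 2) := fun t =>
    push_mem_deg _ hz
  -- scaling
  have hscale : ∀ t : ℕ, F₃ (push (psi t) z) = (t : ℝ) ^ (k + 2) * F₃ z := by
    intro t
    rw [ha ⟨_, hdeg t, hcycψ t⟩, ha ⟨z, hz, cyc⟩, Finset.mul_sum]
    refine Finset.sum_congr rfl fun s _ => ?_
    rw [KI_push co' (psi t) (fun i => if i = 0 then (t : ℝ) ^ 2 else t) (co'_psi t)]
    by_cases hs : Function.Injective s
    · have hbij : Function.Bijective s := Finite.injective_iff_bijective.mp hs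
      have hp : ((List.ofFn s).map fun i => if i = 0 then (t : ℝ) ^ 2 else t).prod =
          (t : ℝ) ^ (k + 2) := by
        rw [List.map_ofFn, List.prod_ofFn]
        simp only [Function.comp_apply]
        rw [Function.Bijective.prod_comp hbij (fun i => if i = 0 then (t : ℝ) ^ 2 else t),
          Fin.prod_univ_succ]
        simp only [if_true, Fin.succ_ne_zero, if_false, Finset.prod_const, Finset.card_univ,
          Fintype.card_fin]
        ring
      rw [hp]
      ring
    · have hnd : ¬ (List.ofFn s).Nodup := fun h => hs (List.nodup_ofFn.mp h)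
      obtain ⟨b, J, M, I, hI⟩ := exists_repeat _ hnd
      have h0 : KI co' (List.ofFn s) z = 0 := by
        rw [hI]
        refine repeat_val co'_mul b M I J (n := k + 1) ?_ hz cyc
        rw [← hI, List.length_ofFn]
      rw [h0]
      ring
  -- diameter
  choose Df hDf using psi_growth C φ hd
  set V : Finset (Zn (k + 1)) := z.support.biUnion (fun l => l.toFinset) with hV
  set D : ℕ := (V ×ˢ V).sup fun pq => Df (pq.1⁻¹ * pq.2) with hD
  have hbound : ∀ t : ℕ, 1 ≤ t →
      |F₃ (push (psi t) z)| ≤ B * (1 + (D * t : ℕ)) ^ (k + 1) * nrm z := by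
    intro t ht
    have hsupp : push (psi t) z ∈ Finsupp.supported ℝ ℝ {l : List (Zn (k + 1)) |
        l.length = k + 1 + 1 ∧ ∀ p ∈ l, ∀ q ∈ l, C.len (φ (p⁻¹ * q)) ≤ D * t} := by
      have hz' : z ∈ Finsupp.supported ℝ ℝ
          {l : List (Zn (k + 1)) | l.length = k + 2 ∧ l ∈ z.support} := by
        have h := hz
        unfold Deg at h
        rw [Finsupp.mem_supported] at h ⊢
        exact fun l hl => ⟨h hl, hl⟩
      refine map_mem_of_sg (push (psi t)) ?_ hz'
      rintro l ⟨hl1, hl2⟩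
      rw [push_sg]
      refine sg_mem_supported ⟨by simpa using hl1, ?_⟩
      intro p hp q hq
      rw [List.mem_map] at hp hq
      obtain ⟨p', hp', rfl⟩ := hp
      obtain ⟨q', hq', rfl⟩ := hq
      rw [← map_inv (psi t), ← map_mul (psi t)]
      refine (hDf _ t ht).trans (Nat.mul_le_mul_right _ ?_)
      have hmem : ∀ r ∈ l, r ∈ V := by
        intro r hr
        rw [hV, Finset.mem_biUnion]
        exact ⟨l, hl2, List.mem_toFinset.mpr hr⟩
      have : (p', q') ∈ V ×ˢ V := by
        rw [Finset.mem_product]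
        exact ⟨hmem p' hp', hmem q' hq'⟩
      exact Finset.le_sup (f := fun pq : Zn (k + 1) × Zn (k + 1) => Df (pq.1⁻¹ * pq.2)) this
    rw [Finsupp.mem_supported] at hsupp
    have e1 := abs_le_nrm F₃ (push (psi t) z) (c := B * (1 + (D * t : ℕ)) ^ (k + 1)) (by
      intro l hl
      obtain ⟨g1, g2⟩ := hsupp hl
      exact hgrow _ l g1 g2)
    exact e1.trans (mul_le_mul_of_nonneg_left (nrm_push_le _ _) (by positivity))
  -- conclusion
  by_contra hne
  have hpos : 0 < |F₃ z| := abs_pos.mpr hne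
  set Q : ℝ := B * (1 + D) ^ (k + 1) * nrm z with hQ
  have hn0 := nrm_nonneg z
  have hQ0 : 0 ≤ Q := by positivity
  obtain ⟨t, ht⟩ := exists_nat_gt (Q / |F₃ z|)
  have ht' : Q < t * |F₃ z| := by
    rwa [div_lt_iff₀ hpos] at ht
  have ht0 : 1 ≤ t := by
    rcases Nat.eq_zero_or_pos t with h | h
    · rw [h] at ht'
      simp only [Nat.cast_zero, zero_mul] at ht'
      linarith
    · exact h
  have ht1 : (1 : ℝ) ≤ t := by exact_mod_cast ht0
  have h1 := hbound t ht0
  rw [hscale, abs_mul, abs_of_nonneg (by positivity : (0 : ℝ) ≤ (t : ℝ) ^ (k + 2))] at h1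
  have h2 : (1 + ((D * t : ℕ) : ℝ)) ≤ (1 + D) * t := by
    push_cast
    have : (0 : ℝ) ≤ D := Nat.cast_nonneg _
    have e : (1 + (D : ℝ)) * t = t + D * t := by ring
    rw [e]; linarith
  have h3 : (1 + ((D * t : ℕ) : ℝ)) ^ (k + 1) ≤ ((1 + D) * t) ^ (k + 1) :=
    pow_le_pow_left₀ (by positivity) h2 (k + 1)
  have h4 : (t : ℝ) ^ (k + 2) * |F₃ z| ≤ Q * (t : ℝ) ^ (k + 1) := by
    refine h1.trans ?_
    calc B * (1 + ((D * t : ℕ) : ℝ)) ^ (k + 1) * nrm z
        ≤ B * ((1 + D) * t) ^ (k + 1) * nrm z :=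
          mul_le_mul_of_nonneg_right (mul_le_mul_of_nonneg_left h3 hB) hn0
      _ = Q * (t : ℝ) ^ (k + 1) := by rw [hQ, mul_pow]; ring
  have h5 : 0 < (t : ℝ) ^ (k + 1) := by positivity
  have h6 : (t : ℝ) ^ (k + 2) * |F₃ z| = (t : ℝ) ^ (k + 1) * (t * |F₃ z|) := by ring
  rw [h6, mul_comm Q] at h4
  have h7 := le_of_mul_le_mul_left h4 h5
  linarith

end Pool.Agent.H9Nil
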