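import Pool.Agent.H9Nil.Cup

set_option autoImplicit false

/-!
# Invariant cocycles of small growth vanish in degrees above the rank
-/

namespace Pool.Agent.H9Nil

open Pool.Agent.AutDim3 Pool.Agent.H9Thin

/-- Sum over the lists of length `k`. -/
def SumI {r : ℕ} {M : Type} [AddCommMonoid M] : ℕ → (List (Fin r) → M) → M
  | 0, f => f []
  | k + 1, f => ∑ i, SumI k (fun I => f (i :: I))

theorem SumI_congr {r : ℕ} {M : Type} [AddCommMonoid M] (k : ℕ) : ∀ (f g : List (Fin r) → M),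
    (∀ I, I.length = k → f I = g I) → SumI k f = SumI k g := by
  induction k with
  | zero => intro f g h; exact h [] rfl
  | succ k ih =>
    intro f g h
    unfold SumI
    refine Finset.sum_congr rfl fun i _ => ih _ _ fun I hI => h _ (by simp [hI])

theorem SumI_zero {r : ℕ} {M : Type} [AddCommMonoid M] (k : ℕ) : ∀ (f : List (Fin r) → M),
    (∀ I, I.length = k → f I = 0) → SumI k f = 0 := by
  induction k with
  | zero => intro f h; exact h [] rfl
  | succ k ih =>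
    intro f h
    unfold SumI
    refine Finset.sum_eq_zero fun i _ => ih _ fun I hI => h _ (by simp [hI])

theorem SumI_map {r : ℕ} {M M' : Type} [AddCommGroup M] [AddCommGroup M'] [Module ℝ M]
    [Module ℝ M'] (φ : M →ₗ[ℝ] M') (k : ℕ) : ∀ (f : List (Fin r) → M),
    φ (SumI k f) = SumI k (fun I => φ (f I)) := by
  induction k with
  | zero => intro f; rfl
  | succ k ih =>
    intro f
    unfold SumI
    rw [map_sum]
    exact Finset.sum_congr rfl fun i _ => ih _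

variable {N : Type} [Group N] {r : ℕ}

/-- The main term, on lists. -/
noncomputable def Wd (χ : Fin r → N → ℝ) (U : Fin r → (N →₀ ℝ)) : N → List N → Ch N
  | _, [] => sg []
  | x, y :: l => cv (∑ i, χ i (x⁻¹ * y) • U i) (Wd χ U y l)

/-- Joins of the vectors `U i`. -/
noncomputable def tens (U : Fin r → (N →₀ ℝ)) : List (Fin r) → Ch N
  | [] => sg []
  | i :: I => cv (U i) (tens U I)

theorem Wd_eq (χ : Fin r → N → ℝ) (U : Fin r → (N →₀ ℝ)) (l : List N) : ∀ x : N,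
    Wd χ U x l = SumI l.length (fun I => KI χ I (sg (x :: l)) • tens U I) := by
  induction l with
  | nil =>
    intro x
    rw [Wd, List.length_nil, SumI, KI_nil, one_smul, tens]
  | cons y l ih =>
    intro x
    rw [Wd, List.length_cons, SumI, ih y, map_sum, LinearMap.sum_apply]
    refine Finset.sum_congr rfl fun i _ => ?_
    rw [map_smul, SumI_map]
    refine SumI_congr _ _ _ fun I _ => ?_
    rw [KI_cons, tens, LinearMap.smul_apply, map_smul, mul_smul]

/-- The main term as a functional. -/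
noncomputable def MainF (χ : Fin r → N → ℝ) (U : Fin r → (N →₀ ℝ)) (μ : N →₀ ℝ)
    (F : Ch N →ₗ[ℝ] ℝ) (k : ℕ) : Ch N →ₗ[ℝ] ℝ :=
  SumI k (fun I => (F (cv μ (tens U I))) • KI χ I)

theorem MainF_apply (χ : Fin r → N → ℝ) (U : Fin r → (N →₀ ℝ)) (μ : N →₀ ℝ)
    (F : Ch N →ₗ[ℝ] ℝ) (k : ℕ) (z : Ch N) :
    MainF χ U μ F k z = SumI k (fun I => F (cv μ (tens U I)) * KI χ I z) := by
  have := SumI_map (LinearMap.applyₗ (R := ℝ) (M₂ := ℝ) z) k
    (fun I => (F (cv μ (tens U I))) • KI χ I)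
  rw [LinearMap.applyₗ_apply_apply] at this
  exact this

theorem MainF_sg (χ : Fin r → N → ℝ) (U : Fin r → (N →₀ ℝ)) (μ : N →₀ ℝ)
    (F : Ch N →ₗ[ℝ] ℝ) (x : N) (l : List N) :
    MainF χ U μ F l.length (sg (x :: l)) = F (cv μ (Wd χ U x l)) := by
  rw [MainF_apply, Wd_eq, ← LinearMap.comp_apply, SumI_map]
  refine SumI_congr _ _ _ fun I _ => ?_
  rw [map_smul, smul_eq_mul, mul_comm, LinearMap.comp_apply]

theorem MainF_zero {χ : Fin r → N → ℝ} (hχ : ∀ i g h, χ i (g * h) = χ i g + χ i h)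
    (U : Fin r → (N →₀ ℝ)) (μ : N →₀ ℝ) (F : Ch N →ₗ[ℝ] ℝ) {d : ℕ} (hr : r < d) {z : Ch N}
    (hz : z ∈ Deg (G := N) (d + 1))
    (hcyc : ∀ E : Ch N →ₗ[ℝ] ℝ, InvUnder (MonoidHom.id N) E → E (bd z) = 0) :
    MainF χ U μ F d z = 0 := by
  rw [MainF_apply]
  refine SumI_zero _ _ fun I hI => ?_
  rw [KI_zero hχ I hI hr hz hcyc, mul_zero]

/-! ### estimates -/

section Est

variable {μ : N →₀ ℝ} {χ : Fin r → N → ℝ} {U : Fin r → (N →₀ ℝ)} {c ε : ℝ}

theorem est_Td (hc : 0 ≤ c) (hε : 0 ≤ ε) (l : List N) : ∀ x : N,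
    (∀ a ∈ x :: l, ∀ b ∈ x :: l, l1 (L b μ - L a μ) ≤ c * ε) →
    nrm (Td μ x l) ≤ (c * ε) ^ l.length := by
  induction l with
  | nil => intro x _; rw [Td, nrm_sg]; simp
  | cons y l ih =>
    intro x h
    rw [Td, List.length_cons, pow_succ']
    refine (nrm_cv_le _ _).trans (mul_le_mul (h x (by simp) y (by simp)) (ih y ?_)
      (nrm_nonneg _) (by positivity))
    intro a ha b hb
    exact h a (List.mem_cons_of_mem _ ha) b (List.mem_cons_of_mem _ hb)

theorem est_diff (hc : 0 ≤ c) (hε : 0 ≤ ε) (l : List N) : ∀ x : N,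
    (∀ a ∈ x :: l, ∀ b ∈ x :: l, l1 (L b μ - L a μ) ≤ c * ε) →
    (∀ a ∈ x :: l, ∀ b ∈ x :: l, l1 (∑ i, χ i (a⁻¹ * b) • U i) ≤ c * ε) →
    (∀ a ∈ x :: l, ∀ b ∈ x :: l,
      l1 (L b μ - L a μ - ∑ i, χ i (a⁻¹ * b) • U i) ≤ c * ε ^ 2) →
    nrm (Td μ x l - Wd χ U x l) ≤ l.length * (c ^ l.length * ε ^ (l.length + 1)) := by
  induction l with
  | nil => intro x _ _ _; rw [Td, Wd, sub_self, nrm_zero]; simp
  | cons y l ih =>
    intro x h1 h2 h3
    have e : Td μ x (y :: l) - Wd χ U x (y :: l) =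
        cv (L y μ - L x μ - ∑ i, χ i (x⁻¹ * y) • U i) (Td μ y l) +
          cv (∑ i, χ i (x⁻¹ * y) • U i) (Td μ y l - Wd χ U y l) := by
      rw [Td, Wd, map_sub cv (L y μ - L x μ), LinearMap.sub_apply,
        map_sub (cv (∑ i, χ i (x⁻¹ * y) • U i))]
      abel
    rw [e]
    refine (nrm_add_le _ _).trans ?_
    have f1 := (nrm_cv_le (L y μ - L x μ - ∑ i, χ i (x⁻¹ * y) • U i) (Td μ y l)).trans
      (mul_le_mul (h3 x (by simp) y (by simp))
        (est_Td hc hε l y fun a ha b hb =>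
          h1 a (List.mem_cons_of_mem _ ha) b (List.mem_cons_of_mem _ hb))
        (nrm_nonneg _) (by positivity))
    have f2 := (nrm_cv_le (∑ i, χ i (x⁻¹ * y) • U i) (Td μ y l - Wd χ U y l)).trans
      (mul_le_mul (h2 x (by simp) y (by simp))
        (ih y
          (fun a ha b hb => h1 a (List.mem_cons_of_mem _ ha) b (List.mem_cons_of_mem _ hb))
          (fun a ha b hb => h2 a (List.mem_cons_of_mem _ ha) b (List.mem_cons_of_mem _ hb))
          (fun a ha b hb => h3 a (List.mem_cons_of_mem _ ha) b (List.mem_cons_of_mem _ hb)))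
        (nrm_nonneg _) (by positivity))
    refine (add_le_add f1 f2).trans (le_of_eq ?_)
    rw [List.length_cons]
    push_cast
    ring

theorem est_total (hc : 1 ≤ c) (hε : 0 ≤ ε) (hμ : l1 μ ≤ 1) (x : N) (l : List N)
    (h0 : l1 (L x μ - μ) ≤ c * ε)
    (h1 : ∀ a ∈ x :: l, ∀ b ∈ x :: l, l1 (L b μ - L a μ) ≤ c * ε)
    (h2 : ∀ a ∈ x :: l, ∀ b ∈ x :: l, l1 (∑ i, χ i (a⁻¹ * b) • U i) ≤ c * ε)
    (h3 : ∀ a ∈ x :: l, ∀ b ∈ x :: l,
      l1 (L b μ - L a μ - ∑ i, χ i (a⁻¹ * b) • U i) ≤ c * ε ^ 2) :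
    nrm (T μ (sg (x :: l)) - cv μ (Wd χ U x l)) ≤
      (l.length + 1) * (c ^ (l.length + 1) * ε ^ (l.length + 1)) := by
  have hc0 : 0 ≤ c := by linarith
  have e : T μ (sg (x :: l)) - cv μ (Wd χ U x l) =
      cv (L x μ - μ) (Td μ x l) + cv μ (Td μ x l - Wd χ U x l) := by
    rw [T_sg, TL, map_sub cv, LinearMap.sub_apply, map_sub (cv μ)]
    abel
  rw [e]
  refine (nrm_add_le _ _).trans ?_
  have f1 := (nrm_cv_le (L x μ - μ) (Td μ x l)).trans
    (mul_le_mul h0 (est_Td hc0 hε l x h1) (nrm_nonneg _) (by positivity))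
  have f2 := (nrm_cv_le μ (Td μ x l - Wd χ U x l)).trans
    (mul_le_mul hμ (est_diff hc0 hε l x h1 h2 h3) (nrm_nonneg _) (by norm_num))
  refine (add_le_add f1 f2).trans ?_
  rw [one_mul, ← pow_succ', mul_pow]
  have f3 : c ^ l.length * ε ^ (l.length + 1) ≤ c ^ (l.length + 1) * ε ^ (l.length + 1) :=
    mul_le_mul_of_nonneg_right (pow_le_pow_right₀ hc (Nat.le_succ _)) (by positivity)
  have f4 := mul_le_mul_of_nonneg_left f3 (Nat.cast_nonneg (α := ℝ) l.length)
  linarith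

end Est

/-! ### supports -/

/-- Lists of length `n` with entries in `A`. -/
def LA (A : Set N) (n : ℕ) : Set (List N) := {l | l.length = n ∧ ∀ p ∈ l, p ∈ A}

omit [Group N] in
theorem cv_LA {A : Set N} {n : ℕ} {v : N →₀ ℝ} (hv : v ∈ Finsupp.supported ℝ ℝ A) {w : Ch N}
    (hw : w ∈ Finsupp.supported ℝ ℝ (LA A n)) :
    cv v w ∈ Finsupp.supported ℝ ℝ (LA A (n + 1)) := by
  refine cv_mem (A := A) (s := LA A n) ?_ hv hw
  rintro x hx l ⟨h1, h2⟩
  refine ⟨by simp [h1], ?_⟩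
  intro p hp
  rcases List.mem_cons.mp hp with rfl | hp
  · exact hx
  · exact h2 p hp

omit [Group N] in
theorem sg_nil_LA {A : Set N} : (sg [] : Ch N) ∈ Finsupp.supported ℝ ℝ (LA A 0) :=
  sg_mem_supported ⟨rfl, by simp⟩

theorem Td_supp {A : Set N} {μ : N →₀ ℝ} (l : List N) : ∀ x : N,
    (∀ a ∈ x :: l, L a μ ∈ Finsupp.supported ℝ ℝ A) →
    Td μ x l ∈ Finsupp.supported ℝ ℝ (LA A l.length) := by
  induction l with
  | nil => intro x _; exact sg_nil_LA
  | cons y l ih =>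
    intro x h
    rw [Td, List.length_cons]
    exact cv_LA (Submodule.sub_mem _ (h y (by simp)) (h x (by simp)))
      (ih y fun a ha => h a (List.mem_cons_of_mem _ ha))

theorem Wd_supp {A : Set N} {χ : Fin r → N → ℝ} {U : Fin r → (N →₀ ℝ)}
    (hU : ∀ i, U i ∈ Finsupp.supported ℝ ℝ A) (l : List N) : ∀ x : N,
    Wd χ U x l ∈ Finsupp.supported ℝ ℝ (LA A l.length) := by
  induction l with
  | nil => intro x; exact sg_nil_LA
  | cons y l ih =>
    intro x
    rw [Wd, List.length_cons]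
    exact cv_LA (Submodule.sum_mem _ fun i _ => Submodule.smul_mem _ _ (hU i)) (ih y)

/-- The main estimate. -/
theorem smooth_key {d : ℕ} (ell : N → ℕ)
    (ell_mul : ∀ g h, ell (g * h) ≤ ell g + ell h) (ell_inv : ∀ g, ell g⁻¹ = ell g)
    (χ : Fin r → N → ℝ) (u : Fin r → N)
    (μ : ℕ → (N →₀ ℝ)) (ε : ℕ → ℝ) (R : ℕ → ℕ) (hε : ∀ m, 0 ≤ ε m)
    (hmass : ∀ m, mass (μ m) = 1) (hl1 : ∀ m, l1 (μ m) ≤ 1)
    (hsupp : ∀ m, ∀ x ∈ (μ m).support, ell x ≤ R m)
    (h1 : ∀ g, ∃ c : ℝ, ∀ m, l1 (L g (μ m) - μ m) ≤ c * ε m)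
    (h2 : ∀ g h, ∃ c : ℝ, ∀ m,
      l1 (L h (L g (μ m) - μ m) - (L g (μ m) - μ m)) ≤ c * ε m ^ 2)
    (h3 : ∀ g, ∃ c : ℝ, ∀ m,
      l1 (L g (μ m) - μ m - ∑ i, χ i g • (L (u i) (μ m) - μ m)) ≤ c * ε m ^ 2)
    (F : Ch N →ₗ[ℝ] ℝ) (hi : InvUnder (MonoidHom.id N) F) (hcl : Closed (d + 1) F)
    (B : ℝ) (hB : 0 ≤ B) (hF : ∀ (δ : ℕ) (l : List N), l.length = d + 1 →
      (∀ p ∈ l, ∀ q ∈ l, ell (p⁻¹ * q) ≤ δ) → |F (sg l)| ≤ B * (1 + δ) ^ d)
    (z : Ch N) (hz : z ∈ Deg (G := N) (d + 1))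
    (hcyc : ∀ E : Ch N →ₗ[ℝ] ℝ, InvUnder (MonoidHom.id N) E → E (bd z) = 0) :
    ∃ Q : ℝ, ∀ m,
      |F z - MainF χ (fun i => L (u i) (μ m) - μ m) (μ m) F d z| ≤
        Q * (ε m ^ (d + 1) * (1 + (R m : ℝ)) ^ d) := by
  classical
  set V : Finset N := z.support.biUnion (fun l => l.toFinset) with hV
  choose c1 hc1 using h1
  choose c2 hc2 using h2
  choose c3 hc3 using h3
  set U : ℕ → Fin r → (N →₀ ℝ) := fun m i => L (u i) (μ m) - μ m with hUdef
  -- constants
  set cU : ℝ := ∑ i, |c1 (u i)| with hcU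
  set c : ℝ := 1 + ∑ a ∈ V, |c1 a| + ∑ p ∈ V ×ˢ V, (|c1 (p.1⁻¹ * p.2)| + |c2 (p.1⁻¹ * p.2) p.1| +
    |c3 (p.1⁻¹ * p.2)| + ∑ i, |χ i (p.1⁻¹ * p.2)| * |c1 (u i)|) with hc
  have hsum0 : ∀ p : N × N, 0 ≤ |c1 (p.1⁻¹ * p.2)| + |c2 (p.1⁻¹ * p.2) p.1| +
    |c3 (p.1⁻¹ * p.2)| + ∑ i, |χ i (p.1⁻¹ * p.2)| * |c1 (u i)| := by
    intro p
    have : 0 ≤ ∑ i, |χ i (p.1⁻¹ * p.2)| * |c1 (u i)| :=
      Finset.sum_nonneg fun i _ => by positivity
    positivity
  have hs1 : 0 ≤ ∑ a ∈ V, |c1 a| := Finset.sum_nonneg fun i _ => abs_nonneg _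
  have hs2 : 0 ≤ ∑ p ∈ V ×ˢ V, (|c1 (p.1⁻¹ * p.2)| + |c2 (p.1⁻¹ * p.2) p.1| +
    |c3 (p.1⁻¹ * p.2)| + ∑ i, |χ i (p.1⁻¹ * p.2)| * |c1 (u i)|) :=
    Finset.sum_nonneg fun p _ => hsum0 p
  have hc1' : 1 ≤ c := by rw [hc]; linarith
  have hcV : ∀ a ∈ V, |c1 a| ≤ c := by
    intro a ha
    have := Finset.single_le_sum (f := fun a => |c1 a|) (fun i _ => abs_nonneg _) ha
    rw [hc]; linarith
  have hcP : ∀ a ∈ V, ∀ b ∈ V, |c1 (a⁻¹ * b)| + |c2 (a⁻¹ * b) a| +
      |c3 (a⁻¹ * b)| + ∑ i, |χ i (a⁻¹ * b)| * |c1 (u i)| ≤ c := by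
    intro a ha b hb
    have := Finset.single_le_sum (f := fun p : N × N => |c1 (p.1⁻¹ * p.2)| +
      |c2 (p.1⁻¹ * p.2) p.1| + |c3 (p.1⁻¹ * p.2)| + ∑ i, |χ i (p.1⁻¹ * p.2)| * |c1 (u i)|)
      (fun p _ => hsum0 p) (Finset.mk_mem_product ha hb)
    simp only at this
    rw [hc]; linarith
  have hchi0 : ∀ a b : N, 0 ≤ ∑ i, |χ i (a⁻¹ * b)| * |c1 (u i)| := fun a b =>
    Finset.sum_nonneg fun i _ => by positivity
  have hLdiff : ∀ (m : ℕ) (a b : N), L b (μ m) - L a (μ m) =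
      L a (L (a⁻¹ * b) (μ m) - μ m) := by
    intro m a b
    rw [map_sub, ← L_mul, mul_inv_cancel_left]
  -- the three estimates
  have E1 : ∀ m, ∀ a ∈ V, ∀ b ∈ V, l1 (L b (μ m) - L a (μ m)) ≤ c * ε m := by
    intro m a ha b hb
    rw [hLdiff, l1_L]
    refine (hc1 _ m).trans (mul_le_mul_of_nonneg_right ?_ (hε m))
    have := hcP a ha b hb
    have e1 := le_abs_self (c1 (a⁻¹ * b))
    have e2 := abs_nonneg (c2 (a⁻¹ * b) a)
    have e3 := abs_nonneg (c3 (a⁻¹ * b))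
    have e4 := hchi0 a b
    linarith
  have E2 : ∀ m, ∀ a ∈ V, ∀ b ∈ V, l1 (∑ i, χ i (a⁻¹ * b) • U m i) ≤ c * ε m := by
    intro m a ha b hb
    have e0 : l1 (∑ i, χ i (a⁻¹ * b) • U m i) ≤ ∑ i, l1 (χ i (a⁻¹ * b) • U m i) := by
      have := Finset.le_sum_of_subadditive (l1s N) (map_zero _).le (fun x y => map_add_le_add _ x y)
        Finset.univ (fun i => χ i (a⁻¹ * b) • U m i)
      simpa only [l1s_apply] using this
    refine e0.trans ?_
    have e1 : ∑ i, l1 (χ i (a⁻¹ * b) • U m i) ≤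
        (∑ i, |χ i (a⁻¹ * b)| * |c1 (u i)|) * ε m := by
      rw [Finset.sum_mul]
      refine Finset.sum_le_sum fun i _ => ?_
      rw [l1_smul, mul_assoc]
      refine mul_le_mul_of_nonneg_left ?_ (abs_nonneg _)
      exact (hc1 _ m).trans (mul_le_mul_of_nonneg_right (le_abs_self _) (hε m))
    refine e1.trans (mul_le_mul_of_nonneg_right ?_ (hε m))
    have := hcP a ha b hb
    have e2 := abs_nonneg (c2 (a⁻¹ * b) a)
    have e3 := abs_nonneg (c3 (a⁻¹ * b))
    have e4 := abs_nonneg (c1 (a⁻¹ * b))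
    linarith
  have E3 : ∀ m, ∀ a ∈ V, ∀ b ∈ V,
      l1 (L b (μ m) - L a (μ m) - ∑ i, χ i (a⁻¹ * b) • U m i) ≤ c * ε m ^ 2 := by
    intro m a ha b hb
    have e0 : L b (μ m) - L a (μ m) - ∑ i, χ i (a⁻¹ * b) • U m i =
        (L a (L (a⁻¹ * b) (μ m) - μ m) - (L (a⁻¹ * b) (μ m) - μ m)) +
          (L (a⁻¹ * b) (μ m) - μ m - ∑ i, χ i (a⁻¹ * b) • (L (u i) (μ m) - μ m)) := by
      rw [hLdiff]
      simp only [hUdef]
      abel
    rw [e0]
    refine (l1_add_le _ _).trans ((add_le_add (hc2 _ _ m) (hc3 _ m)).trans ?_)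
    rw [← add_mul]
    refine mul_le_mul_of_nonneg_right ?_ (sq_nonneg _)
    have := hcP a ha b hb
    have e1 := abs_nonneg (c1 (a⁻¹ * b))
    have e2 := le_abs_self (c2 (a⁻¹ * b) a)
    have e3 := le_abs_self (c3 (a⁻¹ * b))
    have e4 := hchi0 a b
    linarith
  have E0 : ∀ m, ∀ a ∈ V, l1 (L a (μ m) - μ m) ≤ c * ε m := by
    intro m a ha
    exact (hc1 _ m).trans (mul_le_mul_of_nonneg_right ((le_abs_self _).trans (hcV a ha)) (hε m))
  -- supports
  set E : ℕ := (∑ a ∈ V, ell a) + (∑ i, ell (u i)) with hE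
  have hEV : ∀ a ∈ V, ell a ≤ E := by
    intro a ha
    have := Finset.single_le_sum (f := fun a => ell a) (fun i _ => Nat.zero_le _) ha
    omega
  have hEu : ∀ i, ell (u i) ≤ E := by
    intro i
    have := Finset.single_le_sum (f := fun i => ell (u i)) (fun i _ => Nat.zero_le _)
      (Finset.mem_univ i)
    omega
  have hμA : ∀ m, μ m ∈ Finsupp.supported ℝ ℝ {x : N | ell x ≤ E + R m} := by
    intro m
    rw [Finsupp.mem_supported]
    intro x hx
    have := hsupp m x hx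
    change ell x ≤ E + R m
    omega
  have hLA : ∀ m, ∀ g : N, ell g ≤ E → L g (μ m) ∈
      Finsupp.supported ℝ ℝ {x : N | ell x ≤ E + R m} := by
    intro m g hg
    have h0 : μ m ∈ Finsupp.supported ℝ ℝ {x : N | ell x ≤ R m} := by
      rw [Finsupp.mem_supported]
      intro x hx
      exact hsupp m x hx
    refine L_mem g ?_ h0
    intro x hx
    have := ell_mul g x
    have hx' : ell x ≤ R m := hx
    change ell (g * x) ≤ E + R m
    omega
  -- the bound
  have key : ∀ m, |F z - MainF χ (U m) (μ m) F d z| ≤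
      (B * (2 + 2 * E) ^ d * ((d + 1) * c ^ (d + 1)) * nrm z) *
      (ε m ^ (d + 1) * (1 + (R m : ℝ)) ^ d) := by
    intro m
    have e1 : F z - MainF χ (U m) (μ m) F d z =
        (F ∘ₗ T (μ m) - MainF χ (U m) (μ m) F d) z := by
      rw [LinearMap.sub_apply, LinearMap.comp_apply, smooth_eq (μ m) (hmass m) d F hi hcl z hz hcyc]
    rw [e1]
    have e2 := abs_le_nrm (F ∘ₗ T (μ m) - MainF χ (U m) (μ m) F d) z
      (c := (B * (1 + (2 * (E + R m) : ℕ)) ^ d) * ((d + 1) * (c ^ (d + 1) * ε m ^ (d + 1)))) ?_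
    · refine e2.trans ?_
      have e3 : (1 + ((2 * (E + R m) : ℕ) : ℝ)) ≤ (2 + 2 * E) * (1 + R m) := by
        push_cast
        have f1 : (0 : ℝ) ≤ E := Nat.cast_nonneg _
        have f2 : (0 : ℝ) ≤ R m := Nat.cast_nonneg _
        have f3 : (0 : ℝ) ≤ E * R m := mul_nonneg f1 f2
        have f4 : (2 + 2 * (E : ℝ)) * (1 + R m) = 2 + 2 * R m + 2 * E + 2 * (E * R m) := by ring
        rw [f4]; linarith
      have e4 : (1 + ((2 * (E + R m) : ℕ) : ℝ)) ^ d ≤ ((2 + 2 * E) * (1 + R m)) ^ d :=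
        pow_le_pow_left₀ (by positivity) e3 d
      have hn := nrm_nonneg z
      have hεm := hε m
      calc (B * (1 + ((2 * (E + R m) : ℕ) : ℝ)) ^ d) * ((d + 1) * (c ^ (d + 1) * ε m ^ (d + 1)))
            * nrm z
          ≤ (B * ((2 + 2 * E) * (1 + R m)) ^ d) * ((d + 1) * (c ^ (d + 1) * ε m ^ (d + 1)))
            * nrm z := by
            refine mul_le_mul_of_nonneg_right (mul_le_mul_of_nonneg_right
              (mul_le_mul_of_nonneg_left e4 hB) ?_) hn
            have : 0 ≤ c := by linarith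
            positivity
        _ = _ := by rw [mul_pow]; ring
    · intro l hl
      have hlen : l.length = d + 1 := by
        have := hz
        unfold Deg at this
        rw [Finsupp.mem_supported] at this
        exact this hl
      have hlV : ∀ p ∈ l, p ∈ V := by
        intro p hp
        rw [hV, Finset.mem_biUnion]
        exact ⟨l, hl, List.mem_toFinset.mpr hp⟩
      match l, hlen, hlV with
      | x :: l, hlen, hlV =>
        have hd : l.length = d := by simpa using hlen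
        rw [LinearMap.sub_apply, LinearMap.comp_apply]
        rw [← hd, MainF_sg, hd, ← map_sub]
        have hw : T (μ m) (sg (x :: l)) - cv (μ m) (Wd χ (U m) x l) ∈
            Finsupp.supported ℝ ℝ (LA {x : N | ell x ≤ E + R m} (d + 1)) := by
          refine Submodule.sub_mem _ ?_ ?_
          · rw [T_sg, TL, ← hd]
            exact cv_LA (hLA m x (hEV x (hlV x (by simp))))
              (Td_supp l x fun a ha => hLA m a (hEV a (hlV a ha)))
          · rw [← hd]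
            refine cv_LA (hμA m) (Wd_supp (fun i => ?_) l x)
            exact Submodule.sub_mem _ (hLA m _ (hEu i)) (hμA m)
        have e5 := abs_le_nrm F (T (μ m) (sg (x :: l)) - cv (μ m) (Wd χ (U m) x l))
          (c := B * (1 + (2 * (E + R m) : ℕ)) ^ d) (by
            intro l' hl'
            rw [Finsupp.mem_supported] at hw
            obtain ⟨g1, g2⟩ := hw hl'
            refine hF _ l' g1 ?_
            intro p hp q hq
            have q1 := ell_mul p⁻¹ q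
            rw [ell_inv] at q1
            have q2 : ell p ≤ E + R m := g2 p hp
            have q3 : ell q ≤ E + R m := g2 q hq
            omega)
        refine e5.trans (mul_le_mul_of_nonneg_left ?_ (by positivity))
        have e6 := est_total (χ := χ) (U := U m) hc1' (hε m) (hl1 m) x l
          (E0 m x (hlV x (by simp)))
          (fun a ha b hb => E1 m a (hlV a ha) b (hlV b hb))
          (fun a ha b hb => E2 m a (hlV a ha) b (hlV b hb))
          (fun a ha b hb => E3 m a (hlV a ha) b (hlV b hb))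
        rw [hd] at e6
        exact e6
  exact ⟨_, key⟩

theorem SumI_mem {M : Type} [AddCommGroup M] [Module ℝ M] (W : Submodule ℝ M) (k : ℕ) :
    ∀ (f : List (Fin r) → M), (∀ I, I.length = k → f I ∈ W) → SumI k f ∈ W := by
  induction k with
  | zero => intro f h; exact h [] rfl
  | succ k ih =>
    intro f h
    unfold SumI
    exact Submodule.sum_mem _ fun i _ => ih _ fun I hI => h _ (by simp [hI])

/-- Cycles. -/
def Cyc (N : Type) [Group N] (d : ℕ) : Type :=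
  {z : Ch N // z ∈ Deg (G := N) (d + 1) ∧
    ∀ E : Ch N →ₗ[ℝ] ℝ, InvUnder (MonoidHom.id N) E → E (bd z) = 0}

/-- A pointwise limit of combinations of cup products on cycles is such a combination. -/
theorem span_closed {d : ℕ} (χ : Fin r → N → ℝ) (F : Ch N →ₗ[ℝ] ℝ)
    (U : ℕ → Fin r → (N →₀ ℝ)) (μ : ℕ → (N →₀ ℝ))
    (h : ∀ z : Cyc N d, Filter.Tendsto (fun m => MainF χ (U m) (μ m) F d z.1) Filter.atTop
      (nhds (F z.1))) :
    ∃ a : (Fin d → Fin r) → ℝ, ∀ z : Cyc N d,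
      F z.1 = ∑ s, a s * KI χ (List.ofFn s) z.1 := by
  classical
  let v : (Fin d → Fin r) → (Cyc N d → ℝ) := fun s z => KI χ (List.ofFn s) z.1
  let W : Submodule ℝ (Cyc N d → ℝ) := Submodule.span ℝ (Set.range v)
  have hfd : FiniteDimensional ℝ W := FiniteDimensional.span_of_finite ℝ (Set.finite_range v)
  have hcl : IsClosed (W : Set (Cyc N d → ℝ)) := W.closed_of_finiteDimensional
  have hmem : ∀ m, (fun z : Cyc N d => MainF χ (U m) (μ m) F d z.1) ∈ W := by
    intro m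
    have e : (fun z : Cyc N d => MainF χ (U m) (μ m) F d z.1) =
        SumI d (fun I => (F (cv (μ m) (tens (U m) I))) • fun z : Cyc N d => KI χ I z.1) := by
      funext z
      rw [MainF_apply]
      have := SumI_map (LinearMap.proj (R := ℝ) (φ := fun _ : Cyc N d => ℝ) z) d
        (fun I => (F (cv (μ m) (tens (U m) I))) • fun z : Cyc N d => KI χ I z.1)
      rw [LinearMap.proj_apply] at this
      rw [this]
      rfl
    rw [e]
    refine SumI_mem W d _ fun I hI => Submodule.smul_mem _ _ ?_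
    apply Submodule.subset_span
    subst hI
    exact ⟨I.get, by simp only [v, List.ofFn_get]⟩
  have hlim : Filter.Tendsto (fun m => fun z : Cyc N d => MainF χ (U m) (μ m) F d z.1)
      Filter.atTop (nhds fun z : Cyc N d => F z.1) := tendsto_pi_nhds.mpr h
  have hF : (fun z : Cyc N d => F z.1) ∈ W :=
    hcl.mem_of_tendsto hlim (Filter.Eventually.of_forall hmem)
  obtain ⟨a, ha⟩ := (Submodule.mem_span_range_iff_exists_fun ℝ).mp hF
  refine ⟨a, fun z => ?_⟩
  have := congrFun ha z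
  simp only [Finset.sum_apply, Pi.smul_apply, smul_eq_mul] at this
  exact this.symm

/-- The value of a cup product on a list. -/
theorem KI_ofFn (χ : Fin r → N → ℝ) {d : ℕ} (s : Fin d → Fin r) (σ : Fin (d + 1) → N) :
    KI χ (List.ofFn s) (sg (List.ofFn σ)) =
      ∏ j : Fin d, χ (s j) ((σ j.castSucc)⁻¹ * σ j.succ) := by
  induction d with
  | zero =>
    rw [List.ofFn_zero, List.ofFn_succ, List.ofFn_zero, KI_nil]
    simp
  | succ d ih =>
    rw [List.ofFn_succ (f := s), List.ofFn_succ (f := σ), List.ofFn_succ, KI_cons,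
      ← List.ofFn_succ (f := fun i => σ i.succ), ih, Fin.prod_univ_succ]
    rfl

end Pool.Agent.H9Nil
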