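import Pool.Agent.H9Nil.Classes
import Pool.Agent.H9Nil.Rank
import Pool.Agent.H9Nil.SeriesSub
import Pool.Agent.H9Nil.Scale
import Pool.Agent.H9Nil.Distort
import Pool.Agent.H9Nil.LatticeB

set_option autoImplicit false

/-!
# Bounded classes in the top degree and commutator subgroups
-/

namespace Pool.Agent.H9Nil

open Pool.Agent.AutDim3 Pool.Agent.H9DimN Pool.Agent.H36Top

variable {N G : Type} [Group N] [Group G]

/-- Products of homomorphisms scale under a homomorphism that multiplies them by `m`. -/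
theorem KI_map {r : ℕ} (χ : Fin r → N → ℝ) (σ : N →* N) (m : ℝ)
    (hσ : ∀ i g, χ i (σ g) = m * χ i g) : ∀ (I : List (Fin r)) (l : List N),
    l.length = I.length + 1 → KI χ I (sg (l.map σ)) = m ^ I.length * KI χ I (sg l)
  | [], l, hl => by
    match l, hl with
    | [x], _ => rw [List.map_cons, List.map_nil, KI_nil, KI_nil, List.length_nil, pow_zero, mul_one]
  | i :: I, l, hl => by
    match l, hl with
    | x :: y :: l, hl =>
      have ih := KI_map χ σ m hσ I (y :: l) (by simpa using hl)
      rw [List.map_cons, List.map_cons, KI_cons, KI_cons, ← List.map_cons, ih, ← map_inv,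
        ← map_mul, hσ, List.length_cons, pow_succ]
      ring

theorem KI_scale {r : ℕ} (χ : Fin r → N → ℝ) (σ : N →* N) (m : ℝ)
    (hσ : ∀ i g, χ i (σ g) = m * χ i g) (I : List (Fin r)) (w : Ch N)
    (hw : w ∈ Deg (G := N) (I.length + 1)) :
    KI χ I (push σ w) = m ^ I.length * KI χ I w := by
  have h := eq_of_sg (KI χ I ∘ₗ push σ) ((m ^ I.length) • KI χ I) (fun l hl => by
    rw [LinearMap.comp_apply, LinearMap.smul_apply, push_sg, smul_eq_mul]
    exact KI_map χ σ m hσ I l hl) hw
  rw [LinearMap.comp_apply, LinearMap.smul_apply, smul_eq_mul] at h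
  exact h

/-- Homomorphisms map cycles to cycles. -/
theorem IsCyc.push {M : Type} [Group M] {y : Ch N} (h : IsCyc y) (ρ : N →* M) :
    IsCyc (push ρ y) := by
  intro E hE
  rw [← push_bd]
  refine h (E ∘ₗ Pool.Agent.AutDim3.push ρ) ?_
  intro g l
  rw [LinearMap.comp_apply, LinearMap.comp_apply, push_sg, push_sg, List.map_map]
  have h1 := hE (ρ g) (l.map ρ)
  rw [List.map_map] at h1
  rw [← h1]
  congr 2
  apply List.map_congr_left
  intro x _
  simp

/-- All invariant cocycles of a combed group that are bounded on small simplices vanish on the cycles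
of top degree of a torsion-free nilpotent group some element of which goes to the commutator subgroup
of a nilpotent subgroup. -/
theorem top_vanish {k : ℕ} (C : Comb G) (φ : N →* G) (hN : HasSeries N (k + 1)) (z : N)
    (hz : z ≠ 1) (H : Subgroup G) (hH : Group.IsNilpotent H) (hzH : φ z ∈ ⁅H, H⁆)
    (y : Ch N) (hy : y ∈ Deg (G := N) (k + 2)) (cyc : IsCyc y) : Vanishes k C φ y := by
  classical
  have h1 : Group.IsNilpotent N := series_nilpotent hN
  have h2 : Group.FG N := series_fg hN
  by_cases hcomm : ∀ a b : N, a * b = b * a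
  swap
  · push Not at hcomm
    obtain ⟨a, b, hab⟩ := hcomm
    exact nil_vanish C φ (rank_lt hN ⟨a, b, hab⟩) y hy cyc
  intro F hi hc hb
  obtain ⟨θ, hθ, hθz, m, hm, hpow⟩ := exists_lattice_pow hN hcomm z hz
  choose r hr using hpow
  let ρ : N →* Zn (k + 1) :=
    { toFun := r
      map_one' := hθ (by rw [hr, map_one, one_zpow])
      map_mul' := fun a b => hθ (by
        rw [map_mul, hr, hr, hr, Commute.mul_zpow (hcomm a b)]) }
  let σ : N →* N :=
    { toFun := fun g => g ^ m
      map_one' := one_zpow m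
      map_mul' := fun a b => Commute.mul_zpow (hcomm a b) m }
  have hρ : ∀ g, θ (ρ g) = σ g := hr
  -- the vanishing on the lattice
  rw [← Subgroup.map_subtype_commutator] at hzH
  obtain ⟨z', hz', hzz⟩ := hzH
  obtain ⟨D, hD⟩ := distortion z' hz' (fun h => C.len (h : G)) (fun g h => by
    rw [Subgroup.coe_mul]; exact C.len_mul _ _)
  have h3 := distorted_vanish C (φ.comp θ) ⟨D, fun t ht => by
    have h4 : (φ.comp θ) (eb 0 ^ (t ^ 2)) = ((z' ^ (t ^ 2) : H) : G) := by
      rw [map_pow, MonoidHom.comp_apply]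
      have : θ (eb 0) = z := hθz
      rw [this, Subgroup.coe_pow, ← hzz]
      rfl
    rw [h4]
    exact hD t ht _ le_rfl⟩ (push ρ y) (push_mem_deg _ hy) (cyc.push ρ)
  have h5 : F (push (φ.comp θ) (push ρ y)) = 0 := by
    refine h3 F ?_ hc hb
    intro n l
    exact hi (θ n) l
  have h6 : push (φ.comp θ) (push ρ y) = push φ (push σ y) := by
    rw [push_push, push_push]
    congr 2
    funext g
    show φ (θ (ρ g)) = φ (σ g)
    rw [hρ]
  rw [h6] at h5
  obtain ⟨χ, hχ, a, ha⟩ := nil_span C φ F hi hc hb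
  have hχ1 : ∀ i, χ i 1 = 0 := fun i => by
    have := hχ i 1 1
    rw [mul_one] at this
    linarith
  let χ' : Fin (Module.finrank ℤ (Additive (Abelianization N))) → N →* Multiplicative ℝ := fun i =>
    { toFun := fun g => Multiplicative.ofAdd (χ i g)
      map_one' := by rw [hχ1]; rfl
      map_mul' := fun g h => by rw [hχ]; rfl }
  have hσ : ∀ i g, χ i (σ g) = (m : ℝ) * χ i g := by
    intro i g
    have h7 : χ' i (g ^ m) = χ' i g ^ m := map_zpow _ _ _
    have h8 := congrArg Multiplicative.toAdd h7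
    rw [toAdd_zpow, zsmul_eq_mul] at h8
    exact h8
  have h9 : F (push φ y) = ∑ s, a s * KI χ (List.ofFn s) y := ha ⟨y, hy, cyc⟩
  have h10 : F (push φ (push σ y)) = ∑ s, a s * KI χ (List.ofFn s) (push σ y) :=
    ha ⟨push σ y, push_mem_deg _ hy, cyc.push σ⟩
  have h11 : ∀ s : Fin (k + 1) → Fin (Module.finrank ℤ (Additive (Abelianization N))),
      KI χ (List.ofFn s) (push σ y) = (m : ℝ) ^ (k + 1) * KI χ (List.ofFn s) y := by
    intro s
    have := KI_scale χ σ m hσ (List.ofFn s) y (by rw [List.length_ofFn]; exact hy)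
    rw [List.length_ofFn] at this
    exact this
  have h12 : (m : ℝ) ^ (k + 1) * F (push φ y) = 0 := by
    rw [← h5, h9, h10, Finset.mul_sum]
    refine Finset.sum_congr rfl fun s _ => ?_
    rw [h11]
    ring
  exact (mul_eq_zero.mp h12).resolve_left (pow_ne_zero _ (by exact_mod_cast hm))

end Pool.Agent.H9Nil
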